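import Pool.Agent.H295R2.Lap

set_option autoImplicit false

open MeasureTheory Filter Topology Set
open Pool.Agent.H295R2

namespace Pool.Agent.W173.OS

noncomputable section

/-- `f` is measurable, vanishes on `(-∞,0)` and `f(u) e^{-xu}` is integrable for every `x > b` -/
structure LInt (f : ℝ → ℂ) (b : ℝ) : Prop where
  meas : Measurable f
  zero : ∀ u, u < 0 → f u = 0
  int : ∀ x : ℝ, b < x → Integrable (fun u => ‖f u‖ * Real.exp (-(x * u)))

lemma LInt.aesm {f : ℝ → ℂ} {b : ℝ} (h : LInt f b) (s : ℂ) :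
    AEStronglyMeasurable (fun u : ℝ => f u * Complex.exp (-(s * u))) volume := by
  refine AEStronglyMeasurable.mul h.meas.aestronglyMeasurable ?_
  exact Continuous.aestronglyMeasurable (by fun_prop)

lemma LInt.integrable {f : ℝ → ℂ} {b : ℝ} (h : LInt f b) {s : ℂ} (hs : b < s.re) :
    Integrable (fun u : ℝ => f u * Complex.exp (-(s * u))) := by
  refine (h.int s.re hs).mono' (h.aesm s) (Eventually.of_forall fun u => ?_)
  rw [norm_mul, norm_exp_neg_mul]

lemma LInt.add {f g : ℝ → ℂ} {b : ℝ} (h : LInt f b) (h' : LInt g b) :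
    LInt (fun u => f u + g u) b where
  meas := h.meas.add h'.meas
  zero := fun u hu => by rw [h.zero u hu, h'.zero u hu, add_zero]
  int := by
    intro x hx
    refine ((h.int x hx).add (h'.int x hx)).mono' ?_ (Eventually.of_forall fun u => ?_)
    · exact ((h.meas.add h'.meas).norm.mul (by fun_prop)).aestronglyMeasurable
    · rw [Real.norm_of_nonneg (by positivity), Pi.add_apply, ← add_mul]
      exact mul_le_mul_of_nonneg_right (norm_add_le _ _) (Real.exp_pos _).le

lemma LInt.neg {f : ℝ → ℂ} {b : ℝ} (h : LInt f b) : LInt (fun u => - f u) b where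
  meas := h.meas.neg
  zero := fun u hu => by rw [h.zero u hu, neg_zero]
  int := by
    intro x hx
    simpa using h.int x hx

lemma LInt.sub {f g : ℝ → ℂ} {b : ℝ} (h : LInt f b) (h' : LInt g b) :
    LInt (fun u => f u - g u) b := by
  simpa [sub_eq_add_neg] using h.add h'.neg

lemma LInt.mono {f : ℝ → ℂ} {b b' : ℝ} (h : LInt f b) (hb : b ≤ b') : LInt f b' :=
  ⟨h.meas, h.zero, fun x hx => h.int x (lt_of_le_of_lt hb hx)⟩

lemma Nice.lint {f : ℝ → ℂ} {C a : ℝ} (h : Nice f C a 0) : LInt f a where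
  meas := h.meas
  zero := h.zero
  int := by
    intro x hx
    have := (h.integrable (s := (x:ℂ)) (by simpa using hx)).norm
    refine this.congr (Eventually.of_forall fun u => ?_)
    simp only
    rw [norm_mul, norm_exp_neg_mul, Complex.ofReal_re]

/-- pointwise comparison -/
lemma exp_mul_le {δ u : ℝ} (hδ : 0 < δ) (hu : 0 ≤ u) : u ≤ 1 / δ * Real.exp (δ * u) := by
  have := Real.add_one_le_exp (δ * u)
  rw [one_div, ← div_eq_inv_mul, le_div_iff₀ hδ]
  nlinarith

lemma LInt.hasDerivAt {f : ℝ → ℂ} {b : ℝ} (h : LInt f b) {s : ℂ} (hs : b < s.re) :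
    HasDerivAt (Lap f) (∫ u : ℝ, f u * (-(u : ℂ) * Complex.exp (-(s * u)))) s := by
  set δ : ℝ := (s.re - b) / 3 with hδ
  have hδ0 : 0 < δ := by rw [hδ]; linarith
  have key := hasDerivAt_integral_of_dominated_loc_of_deriv_le (μ := volume) (𝕜 := ℂ)
    (F := fun (z : ℂ) (u : ℝ) => f u * Complex.exp (-(z * u)))
    (F' := fun (z : ℂ) (u : ℝ) => f u * (-(u : ℂ) * Complex.exp (-(z * u))))
    (x₀ := s) (s := Metric.ball s δ)
    (bound := fun u => 1 / δ * (‖f u‖ * Real.exp (-((s.re - 2 * δ) * u))))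
    (Metric.ball_mem_nhds s hδ0)
    (Eventually.of_forall fun z => h.aesm z) (h.integrable hs) ?_ ?_ ?_ ?_
  · exact key.2
  · refine AEStronglyMeasurable.mul h.meas.aestronglyMeasurable ?_
    exact Continuous.aestronglyMeasurable (by fun_prop)
  · refine Eventually.of_forall fun u z hz => ?_
    rcases lt_or_ge u 0 with hu | hu
    · rw [h.zero u hu, zero_mul, norm_zero]
      simp
    · rw [norm_mul, norm_mul, norm_exp_neg_mul, norm_neg, Complex.norm_real, Real.norm_eq_abs,
        abs_of_nonneg hu]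
      have hz2 : s.re - δ < z.re := by
        rw [Metric.mem_ball, dist_eq_norm] at hz
        have h2 := (abs_lt.mp (lt_of_le_of_lt (Complex.abs_re_le_norm (z - s)) hz))
        rw [Complex.sub_re] at h2
        linarith [h2.1]
      have h3 : u * Real.exp (-(z.re * u)) ≤ 1 / δ * Real.exp (-((s.re - 2 * δ) * u)) := by
        calc u * Real.exp (-(z.re * u)) ≤ (1 / δ * Real.exp (δ * u)) * Real.exp (-((s.re - δ) * u)) := by
              apply mul_le_mul (exp_mul_le hδ0 hu) _ (Real.exp_pos _).le (by positivity)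
              apply Real.exp_le_exp.mpr
              nlinarith
          _ = _ := by
            rw [mul_assoc, ← Real.exp_add]
            ring_nf
      calc ‖f u‖ * (u * Real.exp (-(z.re * u)))
          ≤ ‖f u‖ * (1 / δ * Real.exp (-((s.re - 2 * δ) * u))) :=
            mul_le_mul_of_nonneg_left h3 (norm_nonneg _)
        _ = _ := by ring
  · exact (h.int _ (by rw [hδ]; linarith)).const_mul _
  · refine Eventually.of_forall fun u z _ => ?_
    have h1 : HasDerivAt (fun z : ℂ => -(z * u)) (-(u : ℂ)) z := by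
      have := ((hasDerivAt_id z).mul_const (u : ℂ)).neg
      rw [one_mul] at this
      exact this
    have h2 := (h1.cexp).const_mul (f u)
    refine h2.congr_deriv ?_
    ring

lemma LInt.differentiableAt {f : ℝ → ℂ} {b : ℝ} (h : LInt f b) {s : ℂ} (hs : b < s.re) :
    DifferentiableAt ℂ (Lap f) s := (h.hasDerivAt hs).differentiableAt

lemma LInt.analyticOnNhd {f : ℝ → ℂ} {b : ℝ} (h : LInt f b) :
    AnalyticOnNhd ℂ (Lap f) {s | b < s.re} :=
  DifferentiableOn.analyticOnNhd (fun _ hs => (h.differentiableAt hs).differentiableWithinAt)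
    (isOpen_lt continuous_const Complex.continuous_re)

/-! ### Landau's theorem -/

/-- moments -/
def mom (f : ℝ → ℝ) (x : ℝ) (n : ℕ) : ℝ := ∫ u, f u * Real.exp (-(x * u)) * u ^ n

lemma pow_le_fact {δ u : ℝ} (hδ : 0 < δ) (hu : 0 ≤ u) (n : ℕ) :
    u ^ n ≤ (n.factorial / δ ^ n) * Real.exp (δ * u) := by
  have h := Real.pow_div_factorial_le_exp (δ * u) (by positivity) n
  have hn : (0:ℝ) < n.factorial := by exact_mod_cast n.factorial_pos
  rw [div_le_iff₀ hn, mul_pow] at h
  rw [div_mul_eq_mul_div, le_div_iff₀ (by positivity)]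
  linarith

lemma mom_integrable {f : ℝ → ℝ} (hfm : Measurable f) (hf0 : ∀ u, u < 0 → f u = 0)
    {x δ : ℝ} (hδ : 0 < δ) (hint : Integrable (fun u => f u * Real.exp (-((x - δ) * u)))) (n : ℕ) :
    Integrable (fun u => f u * Real.exp (-(x * u)) * u ^ n) := by
  refine (hint.norm.const_mul (n.factorial / δ ^ n)).mono' ?_ (Eventually.of_forall fun u => ?_)
  · exact ((hfm.mul (by fun_prop)).mul (by fun_prop)).aestronglyMeasurable
  · rcases lt_or_ge u 0 with hu | hu
    · rw [hf0 u hu]; simp
    · have h1 := pow_le_fact hδ hu n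
      rw [norm_mul, norm_mul, Real.norm_of_nonneg (pow_nonneg hu n), norm_mul,
        Real.norm_of_nonneg (Real.exp_pos _).le, Real.norm_of_nonneg (Real.exp_pos _).le]
      calc ‖f u‖ * Real.exp (-(x * u)) * u ^ n
          ≤ ‖f u‖ * Real.exp (-(x * u)) * ((n.factorial / δ ^ n) * Real.exp (δ * u)) :=
            mul_le_mul_of_nonneg_left h1 (by positivity)
        _ = (n.factorial / δ ^ n) * (‖f u‖ * (Real.exp (-(x * u)) * Real.exp (δ * u))) := by ring
        _ = _ := by rw [← Real.exp_add]; ring_nf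

/-- power series of the Laplace transform of a nonnegative function -/
lemma mom_summable {f : ℝ → ℝ} (hfm : Measurable f) (hfn : ∀ u, 0 ≤ f u) (hf0 : ∀ u, u < 0 → f u = 0)
    {x δ : ℝ} (hδ : 0 < δ) (hint : Integrable (fun u => f u * Real.exp (-((x - δ) * u)))) :
    Summable (fun n : ℕ => mom f x n / n.factorial * δ ^ n) := by
  have hmi := mom_integrable hfm hf0 hδ hint
  have hnn : ∀ n : ℕ, 0 ≤ mom f x n := fun n => by
    refine integral_nonneg fun u => ?_
    rcases lt_or_ge u 0 with hu | hu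
    · rw [hf0 u hu]; simp
    · have := hfn u; positivity
  refine summable_of_sum_range_le (c := ∫ u, f u * Real.exp (-((x - δ) * u)))
    (fun n => mul_nonneg (div_nonneg (hnn n) (by positivity)) (by positivity)) fun N => ?_
  have h1 : ∑ n ∈ Finset.range N, mom f x n / n.factorial * δ ^ n =
      ∫ u, ∑ n ∈ Finset.range N, f u * Real.exp (-(x * u)) * u ^ n * (δ ^ n / n.factorial) := by
    rw [integral_finsetSum _ fun n _ => (hmi n).mul_const _]
    refine Finset.sum_congr rfl fun n _ => ?_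
    rw [integral_mul_const]
    unfold mom
    ring
  rw [h1]
  refine integral_mono (integrable_finsetSum _ fun n _ => (hmi n).mul_const _) hint fun u => ?_
  simp only
  rcases lt_or_ge u 0 with hu | hu
  · rw [hf0 u hu]; simp
  · have h2 := Real.sum_le_exp_of_nonneg (x := δ * u) (by positivity) N
    calc ∑ n ∈ Finset.range N, f u * Real.exp (-(x * u)) * u ^ n * (δ ^ n / n.factorial)
        = f u * Real.exp (-(x * u)) * ∑ n ∈ Finset.range N, (δ * u) ^ n / n.factorial := by
          rw [Finset.mul_sum]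
          refine Finset.sum_congr rfl fun n _ => ?_
          rw [mul_pow]; ring
      _ ≤ f u * Real.exp (-(x * u)) * Real.exp (δ * u) :=
          mul_le_mul_of_nonneg_left h2 (mul_nonneg (hfn u) (Real.exp_pos _).le)
      _ = _ := by rw [mul_assoc, ← Real.exp_add]; ring_nf

lemma lap_hasSum {f : ℝ → ℝ} (hfm : Measurable f) (hfn : ∀ u, 0 ≤ f u) (hf0 : ∀ u, u < 0 → f u = 0)
    {x δ : ℝ} (hδ : 0 < δ) (hint : Integrable (fun u => f u * Real.exp (-((x - δ) * u))))
    {z : ℂ} (hz : ‖z‖ ≤ δ) :
    HasSum (fun n : ℕ => ((mom f x n / n.factorial : ℝ) : ℂ) * z ^ n)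
      (Lap (fun u => (f u : ℂ)) (x - z)) := by
  have hmi := mom_integrable hfm hf0 hδ hint
  have hms := mom_summable hfm hfn hf0 hδ hint
  have hmn : ∀ n : ℕ, 0 ≤ mom f x n := fun n => by
    refine integral_nonneg fun u => ?_
    rcases lt_or_ge u 0 with hu | hu
    · rw [hf0 u hu]; simp
    · have := hfn u; positivity
  set F : ℕ → ℝ → ℂ := fun n u => ((f u * Real.exp (-(x * u)) * u ^ n : ℝ) : ℂ) * (z ^ n / n.factorial)
    with hF
  have hFi : ∀ n, Integrable (F n) := fun n => (hmi n).ofReal.mul_const _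
  have hFn : ∀ n, ∫ u, ‖F n u‖ = mom f x n / n.factorial * ‖z‖ ^ n := by
    intro n
    have : ∀ u, ‖F n u‖ = (f u * Real.exp (-(x * u)) * u ^ n) * (‖z‖ ^ n / n.factorial) := by
      intro u
      rw [hF]
      simp only
      rw [norm_mul, norm_div, norm_pow, Complex.norm_natCast, Complex.norm_real, Real.norm_of_nonneg]
      rcases lt_or_ge u 0 with hu | hu
      · rw [hf0 u hu]; simp
      · have := hfn u; positivity
    simp_rw [this]
    rw [integral_mul_const]
    unfold mom
    ring
  have hsum := hasSum_integral_of_summable_integral_norm hFi (by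
    simp_rw [hFn]
    refine hms.of_nonneg_of_le (fun n => ?_) fun n => ?_
    · have := hmn n; positivity
    · have := hmn n; gcongr)
  have e1 : ∀ n, ∫ u, F n u = ((mom f x n / n.factorial : ℝ) : ℂ) * z ^ n := by
    intro n
    rw [hF]
    simp only
    rw [integral_mul_const, integral_complex_ofReal]
    unfold mom
    push_cast
    ring
  have e2 : ∫ u, ∑' n, F n u = Lap (fun u => (f u : ℂ)) (x - z) := by
    unfold Lap
    refine integral_congr_ae (Eventually.of_forall fun u => ?_)
    simp only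
    have h1 : HasSum (fun n : ℕ => ((z * u) ^ n / n.factorial : ℂ)) (Complex.exp (z * u)) := by
      rw [Complex.exp_eq_exp_ℂ]
      exact NormedSpace.expSeries_div_hasSum_exp _
    have h2 := h1.mul_left ((f u : ℂ) * Complex.exp (-(x * u)))
    have h3 : ∀ n, F n u = (f u : ℂ) * Complex.exp (-(x * u)) * ((z * u) ^ n / n.factorial : ℂ) := by
      intro n
      rw [hF]
      simp only
      push_cast
      rw [mul_pow]
      ring
    simp_rw [h3]
    rw [h2.tsum_eq, mul_assoc, ← Complex.exp_add]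
    congr 2
    ring
  rw [← e2]
  simpa [e1] using hsum

open scoped ENNReal NNReal in
/-- **Landau's theorem** (local form). -/
theorem landau {f : ℝ → ℝ} (hfm : Measurable f) (hfn : ∀ u, 0 ≤ f u) (hf0 : ∀ u, u < 0 → f u = 0)
    {x δ r : ℝ} (hδ : 0 < δ) (hint : Integrable (fun u => f u * Real.exp (-((x - δ) * u))))
    {F : ℂ → ℂ} (hF : DifferentiableOn ℂ F (Metric.ball (x:ℂ) r))
    (heq : ∀ᶠ s in 𝓝 (x:ℂ), F s = Lap (fun u => (f u : ℂ)) s) {y : ℝ} (hy : x - r < y) (hyx : y < x) :
    Integrable (fun u => f u * Real.exp (-(y * u))) := by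
  have hmn : ∀ n : ℕ, 0 ≤ mom f x n := fun n => by
    refine integral_nonneg fun u => ?_
    rcases lt_or_ge u 0 with hu | hu
    · rw [hf0 u hu]; simp
    · have := hfn u; positivity
  -- the first power series
  set c : ℕ → ℂ := fun n => ((mom f x n / n.factorial : ℝ) : ℂ) with hc
  set p := FormalMultilinearSeries.ofScalars ℂ c with hp
  have hpn : ∀ n, ‖p n‖ = mom f x n / n.factorial := by
    intro n
    rw [hp, FormalMultilinearSeries.ofScalars_norm, hc]
    simp only
    rw [Complex.norm_real, Real.norm_of_nonneg (div_nonneg (hmn n) (by positivity))]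
  have hms := mom_summable hfm hfn hf0 hδ hint
  set δ' : ℝ≥0 := ⟨δ, hδ.le⟩ with hδ'
  have hP : HasFPowerSeriesOnBall (fun z : ℂ => Lap (fun u => (f u : ℂ)) (x - z)) p 0 (δ' : ℝ≥0∞) := by
    refine ⟨?_, ENNReal.coe_pos.mpr (NNReal.coe_pos.mp hδ), fun {z} hz => ?_⟩
    · refine p.le_radius_of_summable ?_
      simp_rw [hpn]
      exact hms
    · have hz' : ‖z‖ ≤ δ := by
        have h1 : ‖z‖ < δ := by
          rw [Metric.eball_coe, Metric.mem_ball, dist_zero_right] at hz
          exact hz
        exact h1.le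
      have h2 := lap_hasSum hfm hfn hf0 hδ hint hz'
      have h3 : (fun n => p n fun _ => z) = fun n : ℕ => ((mom f x n / n.factorial : ℝ) : ℂ) * z ^ n := by
        ext n
        rw [hp, FormalMultilinearSeries.ofScalars_apply_eq, smul_eq_mul]
      rw [zero_add, h3]
      exact h2
  -- the second power series
  set R : ℝ := x - y with hR
  have hR0 : 0 < R := by rw [hR]; linarith
  have hRr : R < r := by rw [hR]; linarith
  set R2 : ℝ≥0 := ⟨(R + r) / 2, by linarith⟩ with hR2
  have hR2v : (R2 : ℝ) = (R + r) / 2 := rfl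
  have hG : DifferentiableOn ℂ (fun z : ℂ => F (x - z)) (Metric.closedBall 0 R2) := by
    refine hF.comp (by fun_prop) ?_
    intro z hz
    rw [Metric.mem_closedBall, dist_zero_right, hR2v] at hz
    rw [Metric.mem_ball, dist_eq_norm, sub_sub_cancel_left, norm_neg]
    linarith
  have hQ := hG.hasFPowerSeriesOnBall (NNReal.coe_pos.mp (by rw [hR2v]; linarith))
  have hev : (fun z : ℂ => Lap (fun u => (f u : ℂ)) (x - z)) =ᶠ[𝓝 0] (fun z : ℂ => F (x - z)) := by
    have ht : Tendsto (fun z : ℂ => (x:ℂ) - z) (𝓝 0) (𝓝 x) := by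
      have : Continuous (fun z : ℂ => (x:ℂ) - z) := by fun_prop
      simpa using this.tendsto 0
    filter_upwards [ht.eventually heq] with z hz
    exact hz.symm
  have hpq := (hP.hasFPowerSeriesAt.congr hev).eq_formalMultilinearSeries hQ.hasFPowerSeriesAt
  have hrad : (R2 : ℝ≥0∞) ≤ p.radius := by rw [hpq]; exact hQ.r_le
  set R' : ℝ≥0 := ⟨R, hR0.le⟩ with hR'
  have hRR : (R' : ℝ≥0∞) < p.radius := by
    refine lt_of_lt_of_le ?_ hrad
    rw [ENNReal.coe_lt_coe, ← NNReal.coe_lt_coe, hR2v]
    show R < (R + r) / 2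
    linarith
  have hsum : Summable (fun n : ℕ => mom f x n / n.factorial * R ^ n) := by
    have := p.summable_norm_mul_pow hRR
    simp_rw [hpn] at this
    exact this
  -- integrability
  have hmi := mom_integrable hfm hf0 hδ hint
  set G : ℕ → ℝ → ℝ := fun n u => f u * Real.exp (-(x * u)) * u ^ n * (R ^ n / n.factorial) with hGdef
  have hGn : ∀ n u, 0 ≤ G n u := by
    intro n u
    rw [hGdef]
    simp only
    rcases lt_or_ge u 0 with hu | hu
    · rw [hf0 u hu]; simp
    · have := hfn u; positivity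
  have hGi : ∀ n, Integrable (G n) := fun n => (hmi n).mul_const _
  have hGv : ∀ n, ∫ u, G n u = mom f x n / n.factorial * R ^ n := by
    intro n
    rw [hGdef]
    simp only
    rw [integral_mul_const]
    unfold mom
    ring
  have hpt : ∀ u, HasSum (fun n => G n u) (f u * Real.exp (-(y * u))) := by
    intro u
    have h1 : HasSum (fun n : ℕ => ((R * u) ^ n / n.factorial : ℝ)) (Real.exp (R * u)) := by
      rw [Real.exp_eq_exp_ℝ]
      exact NormedSpace.expSeries_div_hasSum_exp _
    have h2 := h1.mul_left (f u * Real.exp (-(x * u)))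
    have e1 : f u * Real.exp (-(x * u)) * Real.exp (R * u) = f u * Real.exp (-(y * u)) := by
      rw [mul_assoc, ← Real.exp_add, hR]; ring_nf
    rw [e1] at h2
    have e2 : (fun n => G n u) = fun n : ℕ => f u * Real.exp (-(x * u)) * ((R * u) ^ n / n.factorial) := by
      ext n
      rw [hGdef]
      simp only
      rw [mul_pow]
      ring
    rw [e2]
    exact h2
  have hmeas : Measurable (fun u => f u * Real.exp (-(y * u))) := hfm.mul (by fun_prop)
  refine ⟨hmeas.aestronglyMeasurable, ?_⟩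
  rw [HasFiniteIntegral]
  have e3 : ∀ u, ‖f u * Real.exp (-(y * u))‖ₑ = ∑' n, ENNReal.ofReal (G n u) := by
    intro u
    rw [← ENNReal.ofReal_tsum_of_nonneg (fun n => hGn n u) (hpt u).summable, (hpt u).tsum_eq,
      Real.enorm_eq_ofReal (mul_nonneg (hfn u) (Real.exp_pos _).le)]
  simp_rw [e3]
  rw [lintegral_tsum fun n => ((hGi n).aestronglyMeasurable.aemeasurable).ennreal_ofReal]
  have e4 : ∀ n, ∫⁻ u, ENNReal.ofReal (G n u) = ENNReal.ofReal (mom f x n / n.factorial * R ^ n) := by
    intro n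
    rw [← hGv n, ofReal_integral_eq_lintegral_ofReal (hGi n) (Eventually.of_forall (hGn n))]
  simp_rw [e4]
  exact hsum.tsum_ofReal_lt_top

/-- **Landau's theorem** -/
theorem landau_global {f : ℝ → ℝ} (hfm : Measurable f) (hfn : ∀ u, 0 ≤ f u)
    (hf0 : ∀ u, u < 0 → f u = 0) {a b : ℝ}
    (hint : ∀ x, a < x → Integrable (fun u => f u * Real.exp (-(x * u))))
    {F : ℂ → ℂ} (hF : ∀ x : ℝ, b < x → AnalyticAt ℂ F x)
    (heq : ∀ s : ℂ, a < s.re → F s = Lap (fun u => (f u : ℂ)) s) :
    ∀ x, b < x → Integrable (fun u => f u * Real.exp (-(x * u))) := by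
  have hup : ∀ x y, x ≤ y → Integrable (fun u => f u * Real.exp (-(x * u))) →
      Integrable (fun u => f u * Real.exp (-(y * u))) := by
    intro x y hxy h
    refine h.mono' (hfm.mul (by fun_prop)).aestronglyMeasurable (Eventually.of_forall fun u => ?_)
    rw [Real.norm_of_nonneg (mul_nonneg (hfn u) (Real.exp_pos _).le)]
    rcases lt_or_ge u 0 with hu | hu
    · rw [hf0 u hu]; simp
    · refine mul_le_mul_of_nonneg_left (Real.exp_le_exp.mpr ?_) (hfn u)
      nlinarith
  set S : Set ℝ := {x | b < x ∧ Integrable (fun u => f u * Real.exp (-(x * u)))} with hS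
  set t : ℝ := max a b + 1 with ht
  have hta : a < t := by have := le_max_left a b; rw [ht]; linarith
  have htb : b < t := by have := le_max_right a b; rw [ht]; linarith
  have htS : t ∈ S := ⟨htb, hint t hta⟩
  have hbdd : BddBelow S := ⟨b, fun x hx => hx.1.le⟩
  set c := sInf S with hc
  have hcb : b ≤ c := le_csInf ⟨t, htS⟩ fun x hx => hx.1.le
  have hct : c ≤ t := csInf_le hbdd htS
  have hcint : ∀ x, c < x → Integrable (fun u => f u * Real.exp (-(x * u))) := by
    intro x hx
    obtain ⟨y, hy, hyx⟩ := exists_lt_of_csInf_lt ⟨t, htS⟩ hx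
    exact hup y x hyx.le hy.2
  rcases hcb.eq_or_lt with hbc | hbc
  · rw [hbc]; exact hcint
  exfalso
  -- `Lap f` is analytic to the right of `c`
  have hL : LInt (fun u => (f u : ℂ)) c := by
    refine ⟨Complex.measurable_ofReal.comp hfm, fun u hu => by rw [hf0 u hu, Complex.ofReal_zero], ?_⟩
    intro x hx
    refine (hcint x hx).congr (Eventually.of_forall fun u => ?_)
    simp only
    rw [Complex.norm_real, Real.norm_of_nonneg (hfn u)]
  -- a disc around `c`
  obtain ⟨ρ, hρ, hball⟩ : ∃ ρ > 0, DifferentiableOn ℂ F (Metric.ball (c:ℂ) (2 * ρ)) := by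
    obtain ⟨r, hr, h⟩ := Metric.eventually_nhds_iff_ball.mp (hF c hbc).eventually_analyticAt
    refine ⟨r / 2, by linarith, fun z hz => ?_⟩
    rw [show 2 * (r / 2) = r by ring] at hz
    exact (h z hz).differentiableAt.differentiableWithinAt
  set x0 : ℝ := c + ρ / 2 with hx0
  have hx0c : c < x0 := by rw [hx0]; linarith
  -- equality near `x0`
  set T : Set ℂ := (fun x : ℝ => (x : ℂ)) '' Ioi c with hT
  have hTpre : IsPreconnected T := isPreconnected_Ioi.image _ (by fun_prop)
  have hFT : AnalyticOnNhd ℂ F T := by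
    rintro _ ⟨x, hx, rfl⟩
    exact hF x (hbc.trans hx)
  have hLT : AnalyticOnNhd ℂ (Lap fun u => (f u : ℂ)) T := by
    rintro _ ⟨x, hx, rfl⟩
    exact hL.analyticOnNhd _ (by simpa using hx)
  have hTt : ((t + 1 : ℝ) : ℂ) ∈ T := ⟨t + 1, by simp only [mem_Ioi]; linarith, rfl⟩
  have hopen : IsOpen {s : ℂ | a < s.re} := isOpen_lt continuous_const Complex.continuous_re
  have hEq : EqOn F (Lap fun u => (f u : ℂ)) T := by
    refine hFT.eqOn_of_preconnected_of_eventuallyEq hLT hTpre hTt ?_
    filter_upwards [hopen.mem_nhds (show ((t + 1 : ℝ) : ℂ) ∈ {s : ℂ | a < s.re} by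
      simp only [Complex.ofReal_re, Set.mem_ofPred_eq]; linarith)] with s hs
    exact heq s hs
  have hx0T : (x0 : ℂ) ∈ T := ⟨x0, hx0c, rfl⟩
  have hev : ∀ᶠ s in 𝓝 (x0:ℂ), F s = Lap (fun u => (f u : ℂ)) s := by
    rw [← (hFT _ hx0T).frequently_eq_iff_eventually_eq (hLT _ hx0T)]
    have h1 : ∃ᶠ x : ℝ in 𝓝[≠] x0, c < x := by
      have : ∀ᶠ x : ℝ in 𝓝[≠] x0, c < x := eventually_nhdsWithin_of_eventually_nhds (lt_mem_nhds hx0c)
      exact this.frequently
    have h2 : Tendsto (fun x : ℝ => (x : ℂ)) (𝓝[≠] x0) (𝓝[≠] (x0 : ℂ)) := by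
      refine tendsto_nhdsWithin_iff.mpr ⟨?_, ?_⟩
      · exact (Complex.continuous_ofReal.tendsto x0).mono_left nhdsWithin_le_nhds
      · filter_upwards [self_mem_nhdsWithin] with x hx
        simpa using hx
    exact h2.frequently (h1.mono fun x hx => hEq ⟨x, hx, rfl⟩)
  have hsub : Metric.ball (x0:ℂ) ρ ⊆ Metric.ball (c:ℂ) (2 * ρ) := by
    intro z hz
    rw [Metric.mem_ball] at hz ⊢
    have h1 : dist (x0:ℂ) (c:ℂ) = ρ / 2 := by
      rw [Complex.dist_eq, ← Complex.ofReal_sub, Complex.norm_real, hx0]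
      rw [add_sub_cancel_left, Real.norm_of_nonneg (by linarith)]
    linarith [dist_triangle z (x0:ℂ) (c:ℂ)]
  have hfin := landau hfm hfn hf0 (x := x0) (δ := ρ / 4) (r := ρ) (by linarith)
    (hcint _ (by rw [hx0]; linarith)) (hball.mono hsub) hev (y := max (c - ρ / 4) ((b + c) / 2))
    (by
      have := le_max_left (c - ρ / 4) ((b + c) / 2)
      rw [hx0]; linarith)
    (by
      rw [hx0]
      apply max_lt <;> linarith)
  have hmem : max (c - ρ / 4) ((b + c) / 2) ∈ S :=
    ⟨lt_of_lt_of_le (by linarith) (le_max_right _ _), hfin⟩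
  have h3 := csInf_le hbdd hmem
  have h4 : max (c - ρ / 4) ((b + c) / 2) < c := by apply max_lt <;> linarith
  linarith

end

end Pool.Agent.W173.OS
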