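import Pool.Agent.W173.OS.A
import Pool.Agent.H295R2.M

set_option autoImplicit false

open MeasureTheory Filter Topology Set
open Pool.Agent.H295R2

namespace Pool.Agent.W173.OS

noncomputable section

lemma le_lam {a l : ℝ} (hl : 0 < l) : |a| ≤ l + l⁻¹ * a ^ 2 := by
  have h : |a| * l ≤ l * l + a ^ 2 := by
    rw [← sq_abs a]
    nlinarith [sq_nonneg (|a| - l), abs_nonneg a, mul_nonneg (abs_nonneg a) hl.le]
  have h2 : (|a| * l) / l ≤ (l * l + a ^ 2) / l := by gcongr
  rw [mul_div_cancel_right₀ _ hl.ne'] at h2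
  calc |a| ≤ (l * l + a ^ 2) / l := h2
    _ = l + l⁻¹ * a ^ 2 := by field_simp

/-- square differences at one level -/
def lev (g : ℝ → ℝ) (h : ℝ) (j : ℕ) (u : ℝ) : ℝ :=
  ∑ i ∈ Finset.range (2 ^ j), (g (u + i * (h / 2 ^ j) + h / 2 ^ j) - g (u + i * (h / 2 ^ j))) ^ 2

lemma lev_nonneg (g : ℝ → ℝ) (h : ℝ) (j : ℕ) (u : ℝ) : 0 ≤ lev g h j u :=
  Finset.sum_nonneg fun _ _ => sq_nonneg _

lemma chain (g : ℝ → ℝ) (u h : ℝ) {l : ℝ} (hl : 0 < l) (J : ℕ) :
    ∀ i : ℕ, i ≤ 2 ^ J → |g (u + i * (h / 2 ^ J)) - g u| ≤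
      ∑ j ∈ Finset.range (J + 1), (l + l⁻¹ * lev g h j u) := by
  induction J with
  | zero =>
    intro i hi
    have h0 : 0 ≤ l⁻¹ * lev g h 0 u := mul_nonneg (by positivity) (lev_nonneg _ _ _ _)
    have hi' : i = 0 ∨ i = 1 := by
      rw [pow_zero] at hi; omega
    simp only [zero_add, Finset.range_one, Finset.sum_singleton]
    rcases hi' with rfl | rfl
    · simp only [Nat.cast_zero, zero_mul, add_zero, sub_self, abs_zero]
      positivity
    · have := le_lam (a := g (u + h) - g u) hl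
      simpa [lev] using this
  | succ J ih =>
    intro i hi
    rw [Finset.sum_range_succ]
    have hlev : 0 ≤ l + l⁻¹ * lev g h (J + 1) u := by
      have := lev_nonneg g h (J + 1) u
      positivity
    rcases Nat.even_or_odd' i with ⟨m, rfl | rfl⟩
    · have e : ((2 * m : ℕ) : ℝ) * (h / 2 ^ (J + 1)) = m * (h / 2 ^ J) := by
        push_cast; rw [pow_succ]; field_simp
      rw [e]
      have := ih m (by rw [pow_succ] at hi; omega)
      linarith
    · have hm : m ≤ 2 ^ J := by rw [pow_succ] at hi; omega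
      have e : u + ((2 * m + 1 : ℕ) : ℝ) * (h / 2 ^ (J + 1)) =
          u + ((2 * m : ℕ) : ℝ) * (h / 2 ^ (J + 1)) + h / 2 ^ (J + 1) := by
        push_cast; ring
      have e2 : ((2 * m : ℕ) : ℝ) * (h / 2 ^ (J + 1)) = m * (h / 2 ^ J) := by
        push_cast; rw [pow_succ]; field_simp
      have h1 := ih m hm
      have h2 := le_lam (a := g (u + ((2 * m : ℕ) : ℝ) * (h / 2 ^ (J + 1)) + h / 2 ^ (J + 1)) -
        g (u + ((2 * m : ℕ) : ℝ) * (h / 2 ^ (J + 1)))) hl
      have h3 : (g (u + ((2 * m : ℕ) : ℝ) * (h / 2 ^ (J + 1)) + h / 2 ^ (J + 1)) -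
          g (u + ((2 * m : ℕ) : ℝ) * (h / 2 ^ (J + 1)))) ^ 2 ≤ lev g h (J + 1) u := by
        unfold lev
        exact Finset.single_le_sum (f := fun i : ℕ => (g (u + i * (h / 2 ^ (J + 1)) + h / 2 ^ (J + 1)) -
          g (u + i * (h / 2 ^ (J + 1)))) ^ 2) (fun _ _ => sq_nonneg _)
          (Finset.mem_range.mpr (by omega))
      have h4 : l⁻¹ * (g (u + ((2 * m : ℕ) : ℝ) * (h / 2 ^ (J + 1)) + h / 2 ^ (J + 1)) -
          g (u + ((2 * m : ℕ) : ℝ) * (h / 2 ^ (J + 1)))) ^ 2 ≤ l⁻¹ * lev g h (J + 1) u :=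
        mul_le_mul_of_nonneg_left h3 (by positivity)
      rw [e]
      rw [← e2] at h1
      calc |g (u + ((2 * m : ℕ) : ℝ) * (h / 2 ^ (J + 1)) + h / 2 ^ (J + 1)) - g u|
          ≤ |g (u + ((2 * m : ℕ) : ℝ) * (h / 2 ^ (J + 1)) + h / 2 ^ (J + 1)) -
              g (u + ((2 * m : ℕ) : ℝ) * (h / 2 ^ (J + 1)))| +
            |g (u + ((2 * m : ℕ) : ℝ) * (h / 2 ^ (J + 1))) - g u| := abs_sub_le _ _ _
        _ ≤ _ := by linarith

/-- the bound for the variation of `g` on `[u, u + e^{-αN}]`, `N = ⌊u⌋` -/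
def V (g : ℝ → ℝ) (α K l : ℝ) (N : ℕ) (u : ℝ) : ℝ :=
  K * Real.exp (l * (u + 1)) + ∑ j ∈ Finset.range (2 * N + 5), (Real.exp (l * N) +
    (Real.exp (l * N))⁻¹ * lev g (Real.exp (-(α * N))) j u)

/-- the variation is at most `V` -/
lemma variation_le {g : ℝ → ℝ} {α K η l : ℝ} (hα : 0 ≤ α) (hη0 : 0 ≤ η) (hη : η ≤ l)
    (hK : ∀ u v : ℝ, 0 ≤ u → u ≤ v → Real.exp v - Real.exp u ≤ 1 → |g v - g u| ≤ K * Real.exp (η * u))
    (N : ℕ) {u v : ℝ} (hu : N ≤ u) (hu1 : u < N + 1) (huv : u ≤ v) (hv : v ≤ u + Real.exp (-(α * N))) :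
    |g v - g u| ≤ V g α K l N u := by
  have hK0 : 0 ≤ K := by
    have := (abs_nonneg _).trans (hK 0 0 le_rfl le_rfl (by simp))
    simpa using this
  have hN0 : (0:ℝ) ≤ N := Nat.cast_nonneg N
  set h : ℝ := Real.exp (-(α * N)) with hh
  have hh0 : 0 < h := Real.exp_pos _
  have hh1 : h ≤ 1 := by
    rw [hh, Real.exp_le_one_iff]
    have : 0 ≤ α * N := by positivity
    linarith
  set J : ℕ := 2 * N + 4 with hJ
  set d : ℝ := h / 2 ^ J with hd
  have hd0 : 0 < d := by positivity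
  set i : ℕ := ⌊(v - u) / d⌋₊ with hi
  have h1 : (i : ℝ) ≤ (v - u) / d := Nat.floor_le (div_nonneg (by linarith) hd0.le)
  have h2 : (v - u) / d < i + 1 := Nat.lt_floor_add_one _
  have h1' : i * d ≤ v - u := by rwa [le_div_iff₀ hd0] at h1
  have h2' : v - u < i * d + d := by
    rw [div_lt_iff₀ hd0] at h2; linarith
  have hi2 : i ≤ 2 ^ J := by
    have h3 : (i : ℝ) * d ≤ (2:ℝ) ^ J * d := by
      rw [hd, mul_div_cancel₀ _ (by positivity)]
      linarith
    have h4 := le_of_mul_le_mul_right h3 hd0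
    exact_mod_cast h4
  have hc := chain g u h (l := Real.exp (l * N)) (Real.exp_pos _) J i hi2
  -- the end effect
  have hw : |g v - g (u + i * d)| ≤ K * Real.exp (l * (u + 1)) := by
    have h5 : Real.exp v - Real.exp (u + i * d) ≤ 1 := by
      have h6 : Real.exp v - Real.exp (u + i * d) ≤ Real.exp v * d := by
        have h7 := Real.add_one_le_exp (u + i * d - v)
        have h8 : Real.exp (u + i * d) = Real.exp v * Real.exp (u + i * d - v) := by
          rw [← Real.exp_add]; ring_nf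
        rw [h8]
        have h9 : Real.exp v * (u + i * d - v + 1) ≤ Real.exp v * Real.exp (u + i * d - v) :=
          mul_le_mul_of_nonneg_left h7 (Real.exp_pos _).le
        have h10 : Real.exp v * (v - (u + i * d)) ≤ Real.exp v * d :=
          mul_le_mul_of_nonneg_left (by linarith) (Real.exp_pos _).le
        nlinarith
      have h11 : Real.exp v ≤ 2 ^ J := by
        have h12 : Real.exp 1 ≤ 4 := by linarith [Real.exp_one_lt_d9]
        calc Real.exp v ≤ Real.exp ((N + 2 : ℕ) * 1) := by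
              apply Real.exp_le_exp.mpr
              push_cast
              linarith
          _ = Real.exp 1 ^ (N + 2) := Real.exp_nat_mul 1 (N + 2)
          _ ≤ 4 ^ (N + 2) := pow_le_pow_left₀ (Real.exp_pos _).le h12 _
          _ = 2 ^ J := by
            rw [hJ, show (4:ℝ) = 2 ^ 2 by norm_num, ← pow_mul]
            congr 1
      have h13 : Real.exp v * d ≤ 1 := by
        rw [hd, mul_div_assoc', div_le_one (by positivity)]
        calc Real.exp v * h ≤ 2 ^ J * 1 := by gcongr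
          _ = 2 ^ J := mul_one _
      linarith
    have h14 : 0 ≤ u + i * d := by
      have hu0 : 0 ≤ u := hN0.trans hu
      positivity
    refine (hK (u + i * d) v h14 (by linarith) h5).trans ?_
    refine mul_le_mul_of_nonneg_left (Real.exp_le_exp.mpr ?_) hK0
    have h15 : u + i * d ≤ u + 1 := by linarith
    calc η * (u + i * d) ≤ l * (u + i * d) := mul_le_mul_of_nonneg_right hη h14
      _ ≤ l * (u + 1) := mul_le_mul_of_nonneg_left h15 (by linarith)
  calc |g v - g u| ≤ |g v - g (u + i * d)| + |g (u + i * d) - g u| := abs_sub_le _ _ _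
    _ ≤ K * Real.exp (l * (u + 1)) + _ := add_le_add hw hc
    _ = V g α K l N u := by
      unfold V
      rw [hJ]

end

end Pool.Agent.W173.OS
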