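import Pool.Agent.W173.OS.B

set_option autoImplicit false

open MeasureTheory Filter Topology Set
open Pool.Agent.H295R2

namespace Pool.Agent.W173.OS

noncomputable section

/-- the mean square modulus of continuity -/
def ModCont (g : ℝ → ℝ) (σ ε C : ℝ) : Prop :=
  ∀ h : ℝ, 0 < h → h ≤ 1 → Integrable (fun w => (g (w + h) - g w) ^ 2 * Real.exp (-(2 * σ * w))) ∧
    ∫ w, (g (w + h) - g w) ^ 2 * Real.exp (-(2 * σ * w)) ≤ C * h ^ (1 - ε)

lemma ModCont.C_nonneg {g : ℝ → ℝ} {σ ε C : ℝ} (h : ModCont g σ ε C) : 0 ≤ C := by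
  obtain ⟨-, h1⟩ := h 1 one_pos le_rfl
  rw [Real.one_rpow, mul_one] at h1
  refine le_trans (integral_nonneg fun w => ?_) h1
  positivity

lemma term_bound {g : ℝ → ℝ} (hg : Measurable g) {σ ε C : ℝ} (hσ : 0 ≤ σ) (hD : ModCont g σ ε C) (N : ℕ)
    {s d : ℝ} (hs0 : 0 ≤ s) (hs : s ≤ 1) (hd0 : 0 < d) (hd1 : d ≤ 1) :
    IntegrableOn (fun u => (g (u + s + d) - g (u + s)) ^ 2) (Ico (N:ℝ) (N + 1)) ∧
    ∫ u in Ico (N:ℝ) (N + 1), (g (u + s + d) - g (u + s)) ^ 2 ≤
      Real.exp (2 * σ * (N + 2)) * (C * d ^ (1 - ε)) := by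
  obtain ⟨h1, h2⟩ := hD d hd0 hd1
  have h3 : Integrable (fun u => Real.exp (2 * σ * (N + 2)) *
      ((g (u + s + d) - g (u + s)) ^ 2 * Real.exp (-(2 * σ * (u + s))))) :=
    (h1.comp_add_right s).const_mul _
  have hpt : ∀ u ∈ Ico (N:ℝ) (N + 1), (g (u + s + d) - g (u + s)) ^ 2 ≤ Real.exp (2 * σ * (N + 2)) *
      ((g (u + s + d) - g (u + s)) ^ 2 * Real.exp (-(2 * σ * (u + s)))) := by
    intro u hu
    have h4 : 1 ≤ Real.exp (2 * σ * (N + 2)) * Real.exp (-(2 * σ * (u + s))) := by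
      rw [← Real.exp_add, Real.one_le_exp_iff]
      have : u + s ≤ N + 2 := by linarith [hu.2]
      nlinarith
    calc (g (u + s + d) - g (u + s)) ^ 2 = (g (u + s + d) - g (u + s)) ^ 2 * 1 := (mul_one _).symm
      _ ≤ (g (u + s + d) - g (u + s)) ^ 2 * (Real.exp (2 * σ * (N + 2)) * Real.exp (-(2 * σ * (u + s)))) :=
          mul_le_mul_of_nonneg_left h4 (sq_nonneg _)
      _ = _ := by ring
  have hmeas : Measurable (fun u => (g (u + s + d) - g (u + s)) ^ 2) := by fun_prop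
  have hint : IntegrableOn (fun u => (g (u + s + d) - g (u + s)) ^ 2) (Ico (N:ℝ) (N + 1)) := by
    refine (h3.integrableOn (s := Ico (N:ℝ) (N + 1))).mono' hmeas.aestronglyMeasurable ?_
    refine (ae_restrict_mem measurableSet_Ico).mono fun u hu => ?_
    rw [Real.norm_of_nonneg (sq_nonneg _)]
    exact hpt u hu
  refine ⟨hint, ?_⟩
  calc ∫ u in Ico (N:ℝ) (N + 1), (g (u + s + d) - g (u + s)) ^ 2
      ≤ ∫ u in Ico (N:ℝ) (N + 1), Real.exp (2 * σ * (N + 2)) *
        ((g (u + s + d) - g (u + s)) ^ 2 * Real.exp (-(2 * σ * (u + s)))) :=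
        setIntegral_mono_on hint h3.integrableOn measurableSet_Ico hpt
    _ ≤ ∫ u, Real.exp (2 * σ * (N + 2)) *
        ((g (u + s + d) - g (u + s)) ^ 2 * Real.exp (-(2 * σ * (u + s)))) :=
        setIntegral_le_integral h3 (Eventually.of_forall fun u => by positivity)
    _ = Real.exp (2 * σ * (N + 2)) * ∫ u, (g (u + d) - g u) ^ 2 * Real.exp (-(2 * σ * u)) := by
        rw [integral_const_mul]
        congr 1
        exact integral_add_right_eq_self (fun u => (g (u + d) - g u) ^ 2 * Real.exp (-(2 * σ * u))) s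
    _ ≤ _ := mul_le_mul_of_nonneg_left h2 (Real.exp_pos _).le

lemma lev_bound {g : ℝ → ℝ} (hg : Measurable g) {σ ε C : ℝ} (hσ : 0 ≤ σ) (hD : ModCont g σ ε C) (N j : ℕ)
    {h : ℝ} (h0 : 0 < h) (h1 : h ≤ 1) :
    IntegrableOn (lev g h j) (Ico (N:ℝ) (N + 1)) ∧
    ∫ u in Ico (N:ℝ) (N + 1), lev g h j u ≤
      2 ^ j * (Real.exp (2 * σ * (N + 2)) * (C * (h / 2 ^ j) ^ (1 - ε))) := by
  have hd0 : 0 < h / 2 ^ j := by positivity
  have hd1 : h / 2 ^ j ≤ 1 := by
    rw [div_le_one (by positivity)]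
    exact h1.trans (one_le_pow₀ (by norm_num))
  have hs : ∀ i ∈ Finset.range (2 ^ j), 0 ≤ (i:ℝ) * (h / 2 ^ j) ∧ (i:ℝ) * (h / 2 ^ j) ≤ 1 := by
    intro i hi
    rw [Finset.mem_range] at hi
    refine ⟨by positivity, ?_⟩
    have : (i:ℝ) ≤ 2 ^ j := by exact_mod_cast hi.le
    calc (i:ℝ) * (h / 2 ^ j) ≤ 2 ^ j * (h / 2 ^ j) := by gcongr
      _ = h := by field_simp
      _ ≤ 1 := h1
  have hI : ∀ i ∈ Finset.range (2 ^ j), IntegrableOn (fun u =>
      (g (u + i * (h / 2 ^ j) + h / 2 ^ j) - g (u + i * (h / 2 ^ j))) ^ 2) (Ico (N:ℝ) (N + 1)) :=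
    fun i hi => (term_bound hg hσ hD N (hs i hi).1 (hs i hi).2 hd0 hd1).1
  unfold lev
  refine ⟨integrable_finsetSum _ hI, ?_⟩
  rw [integral_finsetSum _ hI]
  calc _ ≤ ∑ i ∈ Finset.range (2 ^ j), Real.exp (2 * σ * (N + 2)) * (C * (h / 2 ^ j) ^ (1 - ε)) :=
        Finset.sum_le_sum fun i hi => (term_bound hg hσ hD N (hs i hi).1 (hs i hi).2 hd0 hd1).2
    _ = _ := by rw [Finset.sum_const, Finset.card_range, nsmul_eq_mul]; push_cast; ring

lemma lev_bound' {g : ℝ → ℝ} (hg : Measurable g) {σ ε C α : ℝ} (hσ : 0 ≤ σ) (hε : 0 ≤ ε) (hα : 0 ≤ α)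
    (hD : ModCont g σ ε C) (N j : ℕ) (hj : j ≤ 2 * N + 4) :
    ∫ u in Ico (N:ℝ) (N + 1), lev g (Real.exp (-(α * N))) j u ≤
      C * Real.exp (2 * σ * (N + 2) - α * N * (1 - ε) + ε * (2 * N + 4)) := by
  have hC := hD.C_nonneg
  set h := Real.exp (-(α * N)) with hh
  have h0 : 0 < h := Real.exp_pos _
  have h1 : h ≤ 1 := by
    rw [hh, Real.exp_le_one_iff]
    have : 0 ≤ α * N := by positivity
    linarith
  refine (lev_bound hg hσ hD N j h0 h1).2.trans ?_
  have e1 : (h / 2 ^ j) ^ (1 - ε) = Real.exp (-(α * N * (1 - ε))) * ((2:ℝ) ^ j)⁻¹ * ((2:ℝ) ^ j) ^ ε := by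
    rw [Real.div_rpow h0.le (by positivity), hh, ← Real.exp_mul, Real.rpow_sub (by positivity), Real.rpow_one]
    have : (0:ℝ) < ((2:ℝ) ^ j) ^ ε := by positivity
    field_simp
  have e2 : ((2:ℝ) ^ j) ^ ε ≤ Real.exp (ε * (2 * N + 4)) := by
    rw [← Real.rpow_natCast, ← Real.rpow_mul (by norm_num)]
    have h2 : (2:ℝ) ≤ Real.exp 1 := by linarith [Real.exp_one_gt_d9]
    calc (2:ℝ) ^ ((j:ℝ) * ε) ≤ (Real.exp 1) ^ ((j:ℝ) * ε) := by
          apply Real.rpow_le_rpow (by norm_num) h2 (by positivity)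
      _ = Real.exp ((j:ℝ) * ε) := by rw [← Real.exp_mul, one_mul]
      _ ≤ _ := by
        apply Real.exp_le_exp.mpr
        have : (j:ℝ) ≤ 2 * N + 4 := by exact_mod_cast hj
        nlinarith
  calc 2 ^ j * (Real.exp (2 * σ * (N + 2)) * (C * (h / 2 ^ j) ^ (1 - ε)))
      = C * (Real.exp (2 * σ * (N + 2)) * Real.exp (-(α * N * (1 - ε)))) * ((2:ℝ) ^ j) ^ ε := by
        rw [e1]; field_simp
    _ ≤ C * (Real.exp (2 * σ * (N + 2)) * Real.exp (-(α * N * (1 - ε)))) * Real.exp (ε * (2 * N + 4)) := by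
        gcongr
    _ = _ := by
        rw [mul_assoc, ← Real.exp_add, ← Real.exp_add]
        ring_nf

lemma V_measurable {g : ℝ → ℝ} (hg : Measurable g) (α K l : ℝ) (N : ℕ) : Measurable (V g α K l N) := by
  unfold V lev
  fun_prop

lemma V_nonneg {g : ℝ → ℝ} {α K l : ℝ} (hK : 0 ≤ K) (N : ℕ) (u : ℝ) : 0 ≤ V g α K l N u := by
  unfold V
  refine add_nonneg (by positivity) (Finset.sum_nonneg fun j _ => ?_)
  have := lev_nonneg g (Real.exp (-(α * N))) j u
  positivity

lemma V_bound {g : ℝ → ℝ} (hg : Measurable g) {σ ε C α K l : ℝ} (hσ : 0 ≤ σ) (hε : 0 ≤ ε) (hα : 0 ≤ α)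
    (hK : 0 ≤ K) (hl0 : 0 ≤ l) (hl : 2 * σ - α + ε * (α + 2) ≤ 2 * l) (hD : ModCont g σ ε C) (N : ℕ) :
    IntegrableOn (V g α K l N) (Ico (N:ℝ) (N + 1)) ∧
    ∫ u in Ico (N:ℝ) (N + 1), V g α K l N u ≤
      (K * Real.exp (2 * l) + 5 * (1 + C * Real.exp (4 * σ + 4 * ε))) * (((N:ℝ) + 1) * Real.exp (l * N)) := by
  have hC := hD.C_nonneg
  have hN0 : (0:ℝ) ≤ N := Nat.cast_nonneg N
  have h0 : 0 < Real.exp (-(α * N)) := Real.exp_pos _
  have h1 : Real.exp (-(α * N)) ≤ 1 := by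
    rw [Real.exp_le_one_iff]
    have : 0 ≤ α * N := by positivity
    linarith
  have hfin : volume (Ico (N:ℝ) (N + 1)) ≠ ⊤ := by simp
  have i1 : IntegrableOn (fun u => K * Real.exp (l * (u + 1))) (Ico (N:ℝ) (N + 1)) := by
    have : Continuous (fun u : ℝ => K * Real.exp (l * (u + 1))) := by fun_prop
    exact (this.integrableOn_Icc (a := (N:ℝ)) (b := N + 1)).mono_set Ico_subset_Icc_self
  have i2 : ∀ j ∈ Finset.range (2 * N + 5), IntegrableOn (fun u => Real.exp (l * N) +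
      (Real.exp (l * N))⁻¹ * lev g (Real.exp (-(α * N))) j u) (Ico (N:ℝ) (N + 1)) := by
    intro j _
    refine Integrable.add (integrableOn_const hfin) ?_
    exact ((lev_bound hg hσ hD N j h0 h1).1).const_mul _
  have i3 : IntegrableOn (fun u => ∑ j ∈ Finset.range (2 * N + 5), (Real.exp (l * N) +
      (Real.exp (l * N))⁻¹ * lev g (Real.exp (-(α * N))) j u)) (Ico (N:ℝ) (N + 1)) :=
    integrable_finsetSum _ i2
  unfold V
  refine ⟨i1.add i3, ?_⟩
  rw [integral_add i1 i3, integral_finsetSum _ i2]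
  have b1 : ∫ u in Ico (N:ℝ) (N + 1), K * Real.exp (l * (u + 1)) ≤ K * Real.exp (2 * l) * Real.exp (l * N) := by
    calc ∫ u in Ico (N:ℝ) (N + 1), K * Real.exp (l * (u + 1))
        ≤ ∫ u in Ico (N:ℝ) (N + 1), K * Real.exp (2 * l) * Real.exp (l * N) := by
          refine setIntegral_mono_on i1 (integrableOn_const hfin) measurableSet_Ico fun u hu => ?_
          rw [mul_assoc, ← Real.exp_add]
          refine mul_le_mul_of_nonneg_left (Real.exp_le_exp.mpr ?_) hK
          nlinarith [hu.2]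
      _ = _ := by simp
  have b2 : ∀ j ∈ Finset.range (2 * N + 5), ∫ u in Ico (N:ℝ) (N + 1), (Real.exp (l * N) +
      (Real.exp (l * N))⁻¹ * lev g (Real.exp (-(α * N))) j u) ≤
      (1 + C * Real.exp (4 * σ + 4 * ε)) * Real.exp (l * N) := by
    intro j hj
    rw [Finset.mem_range] at hj
    have i4 : Integrable (fun _ : ℝ => Real.exp (l * N)) (volume.restrict (Ico (N:ℝ) (N + 1))) :=
      integrableOn_const hfin
    have i5 : Integrable (fun u : ℝ => (Real.exp (l * N))⁻¹ * lev g (Real.exp (-(α * N))) j u)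
        (volume.restrict (Ico (N:ℝ) (N + 1))) := ((lev_bound hg hσ hD N j h0 h1).1).const_mul _
    rw [integral_add i4 i5, integral_const_mul]
    have b3 := lev_bound' hg hσ hε hα hD N j (by omega)
    have b4 : (Real.exp (l * N))⁻¹ * ∫ u in Ico (N:ℝ) (N + 1), lev g (Real.exp (-(α * N))) j u ≤
        C * Real.exp (4 * σ + 4 * ε) * Real.exp (l * N) := by
      calc (Real.exp (l * N))⁻¹ * ∫ u in Ico (N:ℝ) (N + 1), lev g (Real.exp (-(α * N))) j u
          ≤ (Real.exp (l * N))⁻¹ * (C * Real.exp (2 * σ * (N + 2) - α * N * (1 - ε) + ε * (2 * N + 4))) :=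
            mul_le_mul_of_nonneg_left b3 (by positivity)
        _ = C * Real.exp (-(l * N) + (2 * σ * (N + 2) - α * N * (1 - ε) + ε * (2 * N + 4))) := by
            rw [Real.exp_add (-(l * N)), Real.exp_neg]; ring
        _ ≤ C * Real.exp ((4 * σ + 4 * ε) + l * N) := by
            refine mul_le_mul_of_nonneg_left (Real.exp_le_exp.mpr ?_) hC
            nlinarith
        _ = _ := by rw [Real.exp_add]; ring
    have b5 : ∫ u in Ico (N:ℝ) (N + 1), Real.exp (l * N) = Real.exp (l * N) := by simp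
    rw [b5]
    linarith
  have b6 := Finset.sum_le_sum b2
  rw [Finset.sum_const, Finset.card_range, nsmul_eq_mul] at b6
  push_cast at b6
  have hx : 0 ≤ Real.exp (l * N) := (Real.exp_pos _).le
  have hy : 0 ≤ C * Real.exp (4 * σ + 4 * ε) := by positivity
  have hz : 0 ≤ K * Real.exp (2 * l) := by positivity
  calc _ ≤ K * Real.exp (2 * l) * Real.exp (l * N) +
        (2 * N + 5) * ((1 + C * Real.exp (4 * σ + 4 * ε)) * Real.exp (l * N)) := add_le_add b1 b6
    _ ≤ _ := by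
      have h5 : K * Real.exp (2 * l) * Real.exp (l * N) ≤
          K * Real.exp (2 * l) * (((N:ℝ) + 1) * Real.exp (l * N)) := by
        refine mul_le_mul_of_nonneg_left ?_ hz
        nlinarith
      have h6 : (2 * N + 5) * ((1 + C * Real.exp (4 * σ + 4 * ε)) * Real.exp (l * N)) ≤
          5 * (1 + C * Real.exp (4 * σ + 4 * ε)) * (((N:ℝ) + 1) * Real.exp (l * N)) := by
        have h7 : (2 * (N:ℝ) + 5) ≤ 5 * (N + 1) := by linarith
        calc (2 * N + 5) * ((1 + C * Real.exp (4 * σ + 4 * ε)) * Real.exp (l * N))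
            ≤ (5 * (N + 1)) * ((1 + C * Real.exp (4 * σ + 4 * ε)) * Real.exp (l * N)) :=
              mul_le_mul_of_nonneg_right h7 (by positivity)
          _ = _ := by ring
      linarith

/-- the variation bound as a function of `u` -/
def Vf (g : ℝ → ℝ) (α K l : ℝ) (u : ℝ) : ℝ := if 0 ≤ u then V g α K l ⌊u⌋₊ u else 0

lemma Vf_measurable {g : ℝ → ℝ} (hg : Measurable g) (α K l : ℝ) : Measurable (Vf g α K l) := by
  unfold Vf
  refine Measurable.ite measurableSet_Ici ?_ measurable_const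
  have h1 : Measurable (fun p : ℕ × ℝ => V g α K l p.1 p.2) :=
    measurable_from_prod_countable_right fun N => V_measurable hg α K l N
  exact h1.comp (Nat.measurable_floor.prodMk measurable_id)

lemma Vf_lint {g : ℝ → ℝ} (hg : Measurable g) {σ ε C α K l : ℝ} (hσ : 0 ≤ σ) (hε : 0 ≤ ε) (hα : 0 ≤ α)
    (hK : 0 ≤ K) (hl0 : 0 ≤ l) (hl : 2 * σ - α + ε * (α + 2) ≤ 2 * l) (hD : ModCont g σ ε C) :
    LInt (fun u => (Vf g α K l u : ℂ)) l where
  meas := Complex.measurable_ofReal.comp (Vf_measurable hg α K l)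
  zero := by
    intro u hu
    unfold Vf
    rw [if_neg (not_le.mpr hu), Complex.ofReal_zero]
  int := by
    intro x hx
    have hx0 : 0 < x := lt_of_le_of_lt hl0 hx
    set B := K * Real.exp (2 * l) + 5 * (1 + C * Real.exp (4 * σ + 4 * ε)) with hB
    have hC := hD.C_nonneg
    have hB0 : 0 ≤ B := by rw [hB]; positivity
    have hon : ∀ N : ℕ, ∀ u ∈ Ico (N:ℝ) (N + 1), Vf g α K l u = V g α K l N u := by
      intro N u hu
      have h0 : 0 ≤ u := (Nat.cast_nonneg N).trans hu.1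
      unfold Vf
      rw [if_pos h0, (Nat.floor_eq_iff h0).mpr hu]
    have hVi : ∀ N : ℕ, IntegrableOn (fun u => ‖(Vf g α K l u : ℂ)‖ * Real.exp (-(x * u)))
        (Ico (N:ℝ) (N + 1)) := by
      intro N
      obtain ⟨h1, -⟩ := V_bound hg hσ hε hα hK hl0 hl hD N
      refine Integrable.mono' h1 ?_ ?_
      · exact (((Complex.measurable_ofReal.comp (Vf_measurable hg α K l)).norm).mul
          (by fun_prop)).aestronglyMeasurable
      · refine (ae_restrict_mem measurableSet_Ico).mono fun u hu => ?_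
        rw [hon N u hu, Complex.norm_real, norm_mul, norm_norm, Real.norm_of_nonneg (V_nonneg hK N u),
          Real.norm_of_nonneg (Real.exp_pos _).le]
        have h0 : 0 ≤ u := (Nat.cast_nonneg N).trans hu.1
        have : Real.exp (-(x * u)) ≤ 1 := by
          rw [Real.exp_le_one_iff]; nlinarith
        exact mul_le_of_le_one_right (V_nonneg hK N u) this
    have hVb : ∀ N : ℕ, ∫ u in Ico (N:ℝ) (N + 1), ‖‖(Vf g α K l u : ℂ)‖ * Real.exp (-(x * u))‖ ≤
        B * (((N:ℝ) + 1) * Real.exp (-(x - l) * N)) := by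
      intro N
      obtain ⟨h1, h2⟩ := V_bound hg hσ hε hα hK hl0 hl hD N
      calc ∫ u in Ico (N:ℝ) (N + 1), ‖‖(Vf g α K l u : ℂ)‖ * Real.exp (-(x * u))‖
          ≤ ∫ u in Ico (N:ℝ) (N + 1), Real.exp (-(x * N)) * V g α K l N u := by
            refine setIntegral_mono_on (hVi N).norm (h1.const_mul _) measurableSet_Ico fun u hu => ?_
            rw [hon N u hu, Complex.norm_real, norm_mul, norm_norm, Real.norm_of_nonneg (V_nonneg hK N u),
              Real.norm_of_nonneg (Real.exp_pos _).le, mul_comm]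
            refine mul_le_mul_of_nonneg_right (Real.exp_le_exp.mpr ?_) (V_nonneg hK N u)
            have := hu.1
            nlinarith
        _ = Real.exp (-(x * N)) * ∫ u in Ico (N:ℝ) (N + 1), V g α K l N u := integral_const_mul _ _
        _ ≤ Real.exp (-(x * N)) * (B * (((N:ℝ) + 1) * Real.exp (l * N))) :=
            mul_le_mul_of_nonneg_left h2 (Real.exp_pos _).le
        _ = _ := by
          have : Real.exp (-(x - l) * N) = Real.exp (-(x * N)) * Real.exp (l * N) := by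
            rw [← Real.exp_add]; ring_nf
          rw [this]; ring
    have hsum : Summable fun N : ℕ => ∫ u in Ico (N:ℝ) (N + 1), ‖‖(Vf g α K l u : ℂ)‖ * Real.exp (-(x * u))‖ := by
      have s1 := Real.summable_pow_mul_exp_neg_nat_mul 1 (sub_pos.mpr hx)
      have s0 := Real.summable_pow_mul_exp_neg_nat_mul 0 (sub_pos.mpr hx)
      have s2 : Summable fun N : ℕ => B * (((N:ℝ) + 1) * Real.exp (-(x - l) * N)) := by
        refine ((s1.add s0).mul_left B).congr fun N => ?_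
        simp only [pow_one, pow_zero, one_mul]
        ring
      exact s2.of_nonneg_of_le (fun N => integral_nonneg fun u => norm_nonneg _) hVb
    have hU := integrableOn_iUnion_of_summable_integral_norm hVi hsum
    have hUn : (⋃ N : ℕ, Ico (N:ℝ) (N + 1)) = Ici 0 := by
      ext u
      simp only [mem_iUnion, mem_Ico, mem_Ici]
      constructor
      · rintro ⟨N, h1, -⟩
        exact (Nat.cast_nonneg N).trans h1
      · intro h
        exact ⟨⌊u⌋₊, Nat.floor_le h, Nat.lt_floor_add_one u⟩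
    rw [hUn] at hU
    rw [← integrable_indicator_iff measurableSet_Ici] at hU
    refine hU.congr (Eventually.of_forall fun u => ?_)
    by_cases hu : u ∈ Ici (0:ℝ)
    · rw [indicator_of_mem hu]
    · rw [indicator_of_notMem hu]
      have : Vf g α K l u = 0 := by
        unfold Vf
        rw [if_neg (by simpa using hu)]
      simp [this]

end

end Pool.Agent.W173.OS
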