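import Pool.Agent.W173.OS.C

set_option autoImplicit false

open MeasureTheory Filter Topology Set
open Pool.Agent.H295R2

namespace Pool.Agent.W173.OS

noncomputable section

/-- The hypotheses on `g`: it vanishes on the negative axis, has exponential growth rate at most `Θ`
(in the mean square sense also for its modulus of continuity), is almost constant on `e`-scale `e^{-u}`,
its Laplace transform is `F` far to the right, `F` is analytic on the real axis right of `Θ - κ₀`, and `Θ` is the
abscissa of absolute convergence. -/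
structure Good (g : ℝ → ℝ) (Θ : ℝ) : Prop where
  meas : Measurable g
  zero : ∀ u, u < 0 → g u = 0
  pos : 0 < Θ
  bound : ∀ σ, Θ < σ → ∃ C, ∀ u, |g u| ≤ C * Real.exp (σ * u)
  mod : ∀ σ, Θ < σ → σ < 2 → ∀ ε, 0 < ε → ∃ C, ModCont g σ ε C
  small : ∀ η, 0 < η → ∃ K, ∀ u v : ℝ, 0 ≤ u → u ≤ v → Real.exp v - Real.exp u ≤ 1 →
    |g v - g u| ≤ K * Real.exp (η * u)
  anal : ∃ a κ : ℝ, 0 < κ ∧ ∃ F : ℂ → ℂ, (∀ x : ℝ, Θ - κ < x → AnalyticAt ℂ F x) ∧
    ∀ s : ℂ, a < s.re → F s = Lap (fun u => (g u : ℂ)) s
  sing : ∀ b, b < Θ → ¬ LInt (fun u => (g u : ℂ)) b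
  le_one : Θ ≤ 1

lemma Good.neg {g : ℝ → ℝ} {Θ : ℝ} (h : Good g Θ) : Good (fun u => - g u) Θ where
  meas := h.meas.neg
  zero := fun u hu => by rw [h.zero u hu, neg_zero]
  pos := h.pos
  bound := by
    intro σ hσ
    obtain ⟨C, hC⟩ := h.bound σ hσ
    exact ⟨C, fun u => by rw [abs_neg]; exact hC u⟩
  mod := by
    intro σ hσ hσ2 ε hε
    obtain ⟨C, hC⟩ := h.mod σ hσ hσ2 ε hε
    refine ⟨C, fun x hx hx1 => ?_⟩
    have e : ∀ w, (-g (w + x) - -g w) ^ 2 * Real.exp (-(2 * σ * w)) =
        (g (w + x) - g w) ^ 2 * Real.exp (-(2 * σ * w)) := fun w => by ring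
    simp_rw [e]
    exact hC x hx hx1
  small := by
    intro η hη
    obtain ⟨K, hK⟩ := h.small η hη
    refine ⟨K, fun u v h1 h2 h3 => ?_⟩
    rw [show -g v - -g u = -(g v - g u) by ring, abs_neg]
    exact hK u v h1 h2 h3
  anal := by
    obtain ⟨a, κ, hκ, F, h1, h2⟩ := h.anal
    refine ⟨a, κ, hκ, fun s => - F s, fun x hx => (h1 x hx).neg, fun s hs => ?_⟩
    show -F s = _
    rw [h2 s hs]
    unfold Lap
    rw [← integral_neg]
    refine integral_congr_ae (Eventually.of_forall fun u => ?_)
    simp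
  sing := by
    intro b hb hL
    refine h.sing b hb ?_
    simpa using hL.neg
  le_one := h.le_one

lemma Good.lint {g : ℝ → ℝ} {Θ : ℝ} (h : Good g Θ) : LInt (fun u => (g u : ℂ)) Θ where
  meas := Complex.measurable_ofReal.comp h.meas
  zero := fun u hu => by rw [h.zero u hu, Complex.ofReal_zero]
  int := by
    intro x hx
    obtain ⟨C, hC⟩ := h.bound ((Θ + x) / 2) (by linarith)
    have hN : Nice (fun u => (g u : ℂ)) C ((Θ + x) / 2) 0 :=
      ⟨Complex.measurable_ofReal.comp h.meas, fun u => by
        rw [Complex.norm_real, Real.norm_eq_abs]; exact hC u,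
        fun u hu => by rw [h.zero u hu, Complex.ofReal_zero]⟩
    exact (Nice.lint hN).int x (by linarith)

lemma exp_ind_lint (c K : ℝ) :
    LInt (fun u => (((Ici (0:ℝ)).indicator (fun u => K * Real.exp (c * u)) u : ℝ) : ℂ)) c where
  meas := by
    refine Complex.measurable_ofReal.comp (Measurable.indicator (by fun_prop) measurableSet_Ici)
  zero := by
    intro u hu
    rw [indicator_of_notMem (by simpa using hu), Complex.ofReal_zero]
  int := by
    intro x hx
    have h1 := (integrable_ind_exp (by linarith : c - x < 0) K 0).norm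
    refine h1.congr (Eventually.of_forall fun u => ?_)
    simp only
    by_cases hu : u ∈ Ici (0:ℝ)
    · rw [indicator_of_mem hu, indicator_of_mem hu, Complex.norm_real, norm_mul, norm_mul,
        Real.norm_of_nonneg (Real.exp_pos _).le, Real.norm_of_nonneg (Real.exp_pos _).le, mul_assoc,
        ← Real.exp_add]
      ring_nf
    · rw [indicator_of_notMem hu, indicator_of_notMem hu]
      simp

/-- **The persistence theorem, in the variable `u = log x`.** -/
theorem persist_u {g : ℝ → ℝ} {Θ : ℝ} (h : Good g Θ) {α ε : ℝ} (hα : 0 < α) (hε : 0 < ε) (U : ℝ) :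
    ∃ u, U ≤ u ∧ ∀ v, u ≤ v → v ≤ u + Real.exp (-(α * u)) → Real.exp ((Θ - ε) * u) ≤ g v := by
  by_contra hcon
  push Not at hcon
  obtain ⟨a, κ₀, hκ₀, F, hF1, hF2⟩ := h.anal
  have hΘ := h.pos
  -- the parameters
  set κ : ℝ := min (min (α / 12) (κ₀ / 2)) (min (ε / 2) (min (Θ / 4) (1 / 2))) with hκ
  have hκ0 : 0 < κ := by
    rw [hκ]; refine lt_min (lt_min ?_ ?_) (lt_min ?_ (lt_min ?_ ?_)) <;> linarith
  have k1 : κ ≤ α / 12 := (min_le_left _ _).trans (min_le_left _ _)
  have k2 : κ ≤ κ₀ / 2 := (min_le_left _ _).trans (min_le_right _ _)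
  have k3 : κ ≤ ε / 2 := (min_le_right _ _).trans (min_le_left _ _)
  have k4 : κ ≤ Θ / 4 := (min_le_right _ _).trans ((min_le_right _ _).trans (min_le_left _ _))
  have k5 : κ ≤ 1 / 2 := (min_le_right _ _).trans ((min_le_right _ _).trans (min_le_right _ _))
  set l : ℝ := Θ - 2 * κ with hl
  have hl0 : 0 < l := by rw [hl]; linarith
  set e : ℝ := α / (2 * (α + 2)) with he
  have he0 : 0 < e := by rw [he]; positivity
  have hee : e * (α + 2) = α / 2 := by rw [he]; field_simp
  have hle := h.le_one
  obtain ⟨C, hC⟩ := h.mod (Θ + κ) (by linarith) (by linarith) e he0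
  obtain ⟨K, hK⟩ := h.small l hl0
  have hK0 : 0 ≤ K := by
    have := (abs_nonneg _).trans (hK 0 0 le_rfl le_rfl (by simp))
    simpa using this
  have hVL : LInt (fun u => (Vf g α K l u : ℂ)) l :=
    Vf_lint h.meas (σ := Θ + κ) (ε := e) (by linarith) he0.le hα.le hK0 hl0.le (by rw [hee]; linarith) hC
  -- the initial segment
  obtain ⟨C1, hC1⟩ := h.bound (Θ + 1) (by linarith)
  have hC10 : 0 ≤ C1 := by
    have := (abs_nonneg _).trans (hC1 0)
    simpa using this
  set U1 : ℝ := max U 0 with hU1
  set K2 : ℝ := C1 * Real.exp ((Θ + 1) * U1) * Real.exp (l * 0) with hK2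
  have hK20 : 0 ≤ K2 := by positivity
  -- the majorant
  set k1f : ℝ → ℝ := fun u => Vf g α K l u + (Ici (0:ℝ)).indicator (fun u => (1 + K2) * Real.exp (l * u)) u
    with hk1f
  have hk1L : LInt (fun u => (k1f u : ℂ)) l := by
    have := hVL.add (exp_ind_lint l (1 + K2))
    simpa [hk1f] using this
  have hVnn : ∀ u, 0 ≤ Vf g α K l u := by
    intro u
    unfold Vf
    split_ifs
    · exact V_nonneg hK0 _ _
    · exact le_rfl
  have hmaj : ∀ u, g u ≤ k1f u := by
    intro u
    rcases lt_or_ge u 0 with hu | hu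
    · rw [h.zero u hu, hk1f]
      simp only
      rw [indicator_of_notMem (by simpa using hu), add_zero]
      exact hVnn u
    · have hu' : u ∈ Ici (0:ℝ) := hu
      simp only [hk1f]
      rw [indicator_of_mem hu']
      rcases lt_or_ge u U with hU | hU
      · -- small `u`
        have h1 : g u ≤ C1 * Real.exp ((Θ + 1) * u) := (le_abs_self _).trans (hC1 u)
        have h2 : C1 * Real.exp ((Θ + 1) * u) ≤ K2 := by
          rw [hK2, mul_zero, Real.exp_zero, mul_one]
          refine mul_le_mul_of_nonneg_left (Real.exp_le_exp.mpr ?_) hC10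
          have : u ≤ U1 := hU.le.trans (le_max_left _ _)
          nlinarith
        have h3 : K2 ≤ (1 + K2) * Real.exp (l * u) := by
          have h4 : 1 ≤ Real.exp (l * u) := by
            rw [Real.one_le_exp_iff]; positivity
          nlinarith
        linarith [hVnn u]
      · obtain ⟨v, hv1, hv2, hv3⟩ := hcon u hU
        have hN : ((⌊u⌋₊ : ℕ) : ℝ) ≤ u := Nat.floor_le hu
        have hv4 : v ≤ u + Real.exp (-(α * (⌊u⌋₊ : ℕ))) := by
          refine hv2.trans ?_
          have : Real.exp (-(α * u)) ≤ Real.exp (-(α * (⌊u⌋₊ : ℕ))) := by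
            apply Real.exp_le_exp.mpr
            nlinarith
          linarith
        have h5 := variation_le (g := g) (α := α) (K := K) (η := l) (l := l) hα.le hl0.le le_rfl hK ⌊u⌋₊ hN
          (Nat.lt_floor_add_one u) hv1 hv4
        have h6 : Vf g α K l u = V g α K l ⌊u⌋₊ u := by
          unfold Vf; rw [if_pos hu]
        rw [h6]
        have h7 : Real.exp ((Θ - ε) * u) ≤ (1 + K2) * Real.exp (l * u) := by
          have h8 : Real.exp ((Θ - ε) * u) ≤ Real.exp (l * u) := by
            apply Real.exp_le_exp.mpr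
            apply mul_le_mul_of_nonneg_right _ hu
            rw [hl]; linarith
          have h9 : 0 < Real.exp (l * u) := Real.exp_pos _
          nlinarith
        have h10 : g u ≤ g v + |g v - g u| := by
          have := neg_abs_le (g v - g u)
          linarith
        linarith
  -- the nonnegative function
  set f : ℝ → ℝ := fun u => k1f u - g u with hf
  have hk1m : Measurable k1f := by
    rw [hk1f]
    exact (Vf_measurable h.meas α K l).add (Measurable.indicator (by fun_prop) measurableSet_Ici)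
  have hfm : Measurable f := hk1m.sub h.meas
  have hfn : ∀ u, 0 ≤ f u := fun u => sub_nonneg.mpr (hmaj u)
  have hf0 : ∀ u, u < 0 → f u = 0 := by
    intro u hu
    have h1 := hk1L.zero u hu
    rw [Complex.ofReal_eq_zero] at h1
    simp only [hf]
    rw [h1, h.zero u hu, sub_zero]
  have hgL := h.lint
  have hfL : LInt (fun u => (f u : ℂ)) Θ := by
    have := (hk1L.mono (by rw [hl]; linarith : l ≤ Θ)).sub hgL
    simpa [hf] using this
  have hconv : ∀ {b : ℝ}, LInt (fun u => (f u : ℂ)) b →
      ∀ x, b < x → Integrable (fun u => f u * Real.exp (-(x * u))) := by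
    intro b hb x hx
    refine (hb.int x hx).congr (Eventually.of_forall fun u => ?_)
    simp only
    rw [Complex.norm_real, Real.norm_of_nonneg (hfn u)]
  have hLan := hk1L.analyticOnNhd
  have hland := landau_global hfm hfn hf0 (a := max a Θ) (b := Θ - κ)
    (fun x hx => hconv hfL x (lt_of_le_of_lt (le_max_right _ _) hx))
    (F := fun s => Lap (fun u => (k1f u : ℂ)) s - F s)
    (fun x hx => (hLan _ (by simp only [Set.mem_ofPred_eq, Complex.ofReal_re]; rw [hl]; linarith)).sub
      (hF1 x (by linarith)))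
    (fun s hs => by
      have hs1 : a < s.re := lt_of_le_of_lt (le_max_left _ _) hs
      have hs2 : Θ < s.re := lt_of_le_of_lt (le_max_right _ _) hs
      rw [hF2 s hs1]
      unfold Lap
      rw [← integral_sub (hk1L.integrable (by rw [hl]; linarith)) (hgL.integrable hs2)]
      refine integral_congr_ae (Eventually.of_forall fun u => ?_)
      simp only [hf]
      push_cast
      ring)
  have hfL2 : LInt (fun u => (f u : ℂ)) (Θ - κ) := by
    refine ⟨hfL.meas, hfL.zero, fun x hx => ?_⟩
    refine (hland x hx).congr (Eventually.of_forall fun u => ?_)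
    simp only
    rw [Complex.norm_real, Real.norm_of_nonneg (hfn u)]
  refine h.sing (Θ - κ) (by linarith) ?_
  have := (hk1L.mono (by rw [hl]; linarith : l ≤ Θ - κ)).sub hfL2
  simpa [hf] using this

end

end Pool.Agent.W173.OS
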