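import Pool.Agent.W173.OS.D

set_option autoImplicit false

open MeasureTheory Filter Topology Set
open Pool.Agent.H295R2

namespace Pool.Agent.W173.OS

noncomputable section

/-- the summatory function in the variable `u = log x` -/
def sumExp (f : ℕ → ℝ) (u : ℝ) : ℝ := ∑ k ∈ Finset.Icc 1 ⌊Real.exp u⌋₊, f k

lemma sumExp_measurable (f : ℕ → ℝ) : Measurable (sumExp f) := by
  unfold sumExp
  have h1 : Measurable (fun n : ℕ => ∑ k ∈ Finset.Icc 1 n, f k) := measurable_from_top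
  exact h1.comp (Nat.measurable_floor.comp Real.measurable_exp)

lemma sumExp_zero (f : ℕ → ℝ) (u : ℝ) (hu : u < 0) : sumExp f u = 0 := by
  unfold sumExp
  have h1 : Real.exp u < 1 := by
    have := Real.exp_lt_exp.mpr hu
    rwa [Real.exp_zero] at this
  rw [Nat.floor_eq_zero.mpr h1]
  simp

lemma lap_sumExp (f : ℕ → ℝ) {r : ℝ} (hr : 0 ≤ r) {s : ℂ} (hs : r < s.re)
    (hO : (fun n => ∑ k ∈ Finset.Icc 1 n, ‖((f k : ℝ) : ℂ)‖) =O[atTop] fun n : ℕ => (n : ℝ) ^ r) :
    LSeries (fun n => ((f n : ℝ) : ℂ)) s = s * Lap (fun u => (sumExp f u : ℂ)) s := by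
  rw [LSeries_eq_mul_integral' _ hr hs hO]
  congr 1
  rw [← Real.exp_zero, ← integral_comp_exp_Ioi]
  unfold Lap
  have h1 : ∀ᵐ u : ℝ, (sumExp f u : ℂ) * Complex.exp (-(s * u)) =
      (Ioi (0:ℝ)).indicator (fun u : ℝ => (sumExp f u : ℂ) * Complex.exp (-(s * u))) u := by
    have h0 : ∀ᵐ u : ℝ, u ≠ 0 := by simp [ae_iff, measure_singleton]
    filter_upwards [h0] with u hu
    by_cases h : u ∈ Ioi (0:ℝ)
    · rw [indicator_of_mem h]
    · rw [indicator_of_notMem h]
      have : u < 0 := lt_of_le_of_ne (by simpa using h) hu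
      rw [sumExp_zero f u this]; simp
  rw [integral_congr_ae h1, integral_indicator measurableSet_Ioi]
  refine setIntegral_congr_fun measurableSet_Ioi fun u _ => ?_
  have hpos : (0:ℝ) < Real.exp u := Real.exp_pos u
  have h2 : ((Real.exp u : ℝ) : ℂ) ^ (-(s + 1)) = Complex.exp (-(s * u)) * Complex.exp (-u) := by
    rw [Complex.cpow_def_of_ne_zero (by exact_mod_cast hpos.ne'), ← Complex.ofReal_log hpos.le,
      Real.log_exp, ← Complex.exp_add]
    congr 1
    ring
  rw [h2]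
  unfold sumExp
  rw [Complex.real_smul]
  push_cast
  have h3 : Complex.exp (u : ℂ) * Complex.exp (-u) = 1 := by rw [← Complex.exp_add]; simp
  linear_combination ((∑ k ∈ Finset.Icc 1 ⌊Real.exp u⌋₊, (f k : ℂ)) * Complex.exp (-(s * u))) * h3

lemma norm_phi_pow2 {η a : ℝ} {s : ℂ} (hη : 0 < η) (hη1 : η ≤ 1) (hs : 1 / 4 ≤ s.re) (hs2 : s.re ≤ 2)
    (ha : 0 ≤ a) (ha2 : a ≤ 2) :
    ‖phi η s‖ ^ 2 ≤ 3025 * (η * (1 + |s.im|)) ^ (-a) := by
  have hre : 0 < s.re := by linarith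
  have h1 := norm_phi_le hη hη1 hre hs2
  have h2 := norm_phi_le' hη hη1 hre hs2
  have hb : 0 < η * (1 + |s.im|) := by positivity
  have hs0 : 1 / 4 ≤ ‖s‖ := hs.trans ((le_abs_self _).trans (Complex.abs_re_le_norm s))
  have hs1 : |s.im| ≤ ‖s‖ := Complex.abs_im_le_norm s
  rcases le_or_gt (η * (1 + |s.im|)) 1 with h | h
  · have h3 : 1 ≤ (η * (1 + |s.im|)) ^ (-a) :=
      Real.one_le_rpow_of_pos_of_le_one_of_nonpos hb h (by linarith)
    nlinarith [norm_nonneg (phi η s)]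
  · have h3 : (η * (1 + |s.im|)) ^ (-(2:ℝ)) ≤ (η * (1 + |s.im|)) ^ (-a) :=
      Real.rpow_le_rpow_of_exponent_le h.le (by linarith)
    have h4 : (η * (1 + |s.im|)) ^ (-(2:ℝ)) = 1 / (η * (1 + |s.im|)) ^ 2 := by
      rw [Real.rpow_neg hb.le, one_div]
      norm_num
    have h5 : 11 / (η * ‖s‖) ≤ 55 / (η * (1 + |s.im|)) := by
      rw [div_le_div_iff₀ (by positivity) hb]
      have : 1 + |s.im| ≤ 5 * ‖s‖ := by linarith
      nlinarith
    calc ‖phi η s‖ ^ 2 ≤ (55 / (η * (1 + |s.im|))) ^ 2 :=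
          pow_le_pow_left₀ (norm_nonneg _) (h2.trans h5) 2
      _ = 3025 * (η * (1 + |s.im|)) ^ (-(2:ℝ)) := by rw [h4, div_pow]; ring
      _ ≤ 3025 * (η * (1 + |s.im|)) ^ (-a) := by gcongr

/-- The mean square modulus of continuity from a bound for the Laplace transform on a vertical line. -/
lemma modCont_of_bound {g : ℝ → ℝ} {C a σ ε B : ℝ} (hg : Nice (fun u => (g u : ℂ)) C a 0) (ha0 : 0 ≤ a)
    (ha : a < σ) (hσ : 1 / 4 ≤ σ) (hσ2 : σ ≤ 2) (hε : 0 < ε) (hε1 : ε ≤ 1)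
    (hB : ∀ s : ℂ, s.re = σ → ‖s * Lap (fun u => (g u : ℂ)) s‖ ≤ B * (1 + |s.im|) ^ (ε / 4)) :
    ∃ K, ModCont g σ ε K := by
  have hB0 : 0 ≤ B := by
    have := (norm_nonneg _).trans (hB (σ : ℂ) (by simp))
    simpa using this
  set I0 : ℝ := ∫ ξ : ℝ, (1 + |2 * Real.pi * ξ|) ^ (-(1 + ε / 2)) with hI0
  refine ⟨3025 * B ^ 2 * I0, fun h hh hh1 => ?_⟩
  have hC := hg.C_nonneg
  set k : ℝ → ℂ := fun u => (g (u + h) : ℂ) - (g u : ℂ) with hk
  have hkN : Nice k (C * (Real.exp (a * h) + 1)) a (-h) := by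
    refine ⟨?_, fun u => ?_, fun u hu => ?_⟩
    · exact (hg.meas.comp (measurable_id.add_const h)).sub hg.meas
    · have b1 := hg.bound (u + h)
      have b2 := hg.bound u
      have b3 : Real.exp (a * (u + h)) = Real.exp (a * u) * Real.exp (a * h) := by
        rw [← Real.exp_add]; ring_nf
      rw [b3] at b1
      calc ‖k u‖ ≤ ‖(g (u + h) : ℂ)‖ + ‖(g u : ℂ)‖ := norm_sub_le _ _
        _ ≤ C * (Real.exp (a * u) * Real.exp (a * h)) + C * Real.exp (a * u) := add_le_add b1 b2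
        _ = _ := by ring
    · rw [hk]
      simp only
      rw [hg.zero (u + h) (by linarith), hg.zero u (by linarith), sub_zero]
  have hLap : ∀ s : ℂ, s.re = σ → Lap k s = h * phi h s * (s * Lap (fun u => (g u : ℂ)) s) := by
    intro s hs
    have hsa : a < s.re := by rw [hs]; exact ha
    have hs0 : s ≠ 0 := by rintro rfl; simp at hs; linarith
    have hh' : (h : ℂ) ≠ 0 := by exact_mod_cast hh.ne'
    have h1 : Lap k s = (∫ u : ℝ, (g (u + h) : ℂ) * Complex.exp (-(s * u))) -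
        Lap (fun u => (g u : ℂ)) s := by
      unfold Lap
      rw [← integral_sub (hg.shift_integrable hsa h) (hg.integrable hsa)]
      refine integral_congr_ae (Eventually.of_forall fun u => ?_)
      simp only [hk]
      ring
    rw [h1, hg.Lap_shift s h]
    unfold phi
    field_simp
  obtain ⟨p1, p2⟩ := plancherel_Lap hkN ha
  have e1 : ∀ u, ‖k u‖ ^ 2 * Real.exp (-(2 * σ * u)) = (g (u + h) - g u) ^ 2 * Real.exp (-(2 * σ * u)) := by
    intro u
    rw [hk]
    simp only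
    rw [← Complex.ofReal_sub, Complex.norm_real, Real.norm_eq_abs, sq_abs]
  simp_rw [e1] at p2
  have hpt : ∀ ξ : ℝ, ‖Lap k (σ + 2 * Real.pi * ξ * Complex.I)‖ ^ 2 ≤
      3025 * B ^ 2 * h ^ (1 - ε) * (1 + |2 * Real.pi * ξ|) ^ (-(1 + ε / 2)) := by
    intro ξ
    set s : ℂ := σ + 2 * Real.pi * ξ * Complex.I with hs
    have hre : s.re = σ := line_re σ ξ
    have him : s.im = 2 * Real.pi * ξ := line_im σ ξ
    rw [hLap s hre, norm_mul, norm_mul, mul_pow, mul_pow, Complex.norm_real, Real.norm_of_nonneg hh.le]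
    have q1 := norm_phi_pow2 (η := h) (a := 1 + ε) hh hh1 (s := s) (by rw [hre]; exact hσ)
      (by rw [hre]; exact hσ2) (by linarith) (by linarith)
    have q2 := hB s hre
    set T : ℝ := 1 + |s.im| with hT
    have hT0 : 0 < T := by rw [hT]; positivity
    have q3 : ‖s * Lap (fun u => (g u : ℂ)) s‖ ^ 2 ≤ B ^ 2 * T ^ (ε / 2) := by
      calc _ ≤ (B * T ^ (ε / 4)) ^ 2 := pow_le_pow_left₀ (norm_nonneg _) q2 2
        _ = B ^ 2 * T ^ (ε / 2) := by
          rw [mul_pow, ← Real.rpow_natCast (T ^ (ε / 4)) 2, ← Real.rpow_mul hT0.le]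
          congr 2
          push_cast
          ring
    calc h ^ 2 * ‖phi h s‖ ^ 2 * ‖s * Lap (fun u => (g u : ℂ)) s‖ ^ 2
        ≤ h ^ 2 * (3025 * (h * T) ^ (-(1 + ε))) * (B ^ 2 * T ^ (ε / 2)) := by gcongr
      _ = 3025 * B ^ 2 * h ^ (1 - ε) * T ^ (-(1 + ε / 2)) := by
          rw [Real.mul_rpow hh.le hT0.le]
          have r1 : h ^ (1 - ε) = h ^ 2 * h ^ (-(1 + ε)) := by
            rw [← Real.rpow_natCast h 2, ← Real.rpow_add hh]; congr 1; push_cast; ring
          have r2 : T ^ (-(1 + ε / 2)) = T ^ (-(1 + ε)) * T ^ (ε / 2) := by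
            rw [← Real.rpow_add hT0]; congr 1; ring
          rw [r1, r2]; ring
      _ = _ := by rw [hT, him]
  have hI : Integrable (fun ξ : ℝ => 3025 * B ^ 2 * h ^ (1 - ε) * (1 + |2 * Real.pi * ξ|) ^ (-(1 + ε / 2))) :=
    (integrable_decay' (by linarith : (1:ℝ) < 1 + ε / 2)).const_mul _
  refine ⟨?_, ?_⟩
  · -- integrability
    have m1 := integrable_ind_exp (by linarith : 2 * (a - σ) < 0) ((C * (Real.exp (a * h) + 1)) ^ 2) (-h)
    refine m1.mono' ?_ (Eventually.of_forall fun u => ?_)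
    · have hgm : Measurable g := by
        have := Complex.measurable_re.comp hg.meas
        simpa [Function.comp_def] using this
      exact (((hgm.comp (measurable_id.add_const h)).sub hgm).pow_const 2 |>.mul
        (by fun_prop)).aestronglyMeasurable
    · rw [Real.norm_of_nonneg (by positivity), ← e1 u]
      by_cases hu : u ∈ Ici (-h)
      · rw [indicator_of_mem hu]
        have b := hkN.bound u
        calc ‖k u‖ ^ 2 * Real.exp (-(2 * σ * u))
            ≤ (C * (Real.exp (a * h) + 1) * Real.exp (a * u)) ^ 2 * Real.exp (-(2 * σ * u)) := by gcongr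
          _ = _ := by
            rw [mul_pow, ← Real.exp_nat_mul, mul_assoc, ← Real.exp_add]
            push_cast
            ring_nf
      · rw [indicator_of_notMem hu, hkN.zero u (by simpa using hu)]
        simp
  · rw [← p2]
    calc _ ≤ ∫ ξ : ℝ, 3025 * B ^ 2 * h ^ (1 - ε) * (1 + |2 * Real.pi * ξ|) ^ (-(1 + ε / 2)) :=
          integral_mono p1 hI hpt
      _ = 3025 * B ^ 2 * h ^ (1 - ε) * I0 := integral_const_mul _ _
      _ = _ := by ring

end

end Pool.Agent.W173.OS
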