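import Pool.Agent.W173.OS.E
import Pool.Agent.H295R2.T6b

set_option autoImplicit false

open MeasureTheory Filter Topology Set
open Pool.Agent.H295R2

namespace Pool.Agent.W173.OS

noncomputable section

/-- the Mertens function in the variable `u = log x` -/
def gM (u : ℝ) : ℝ := Mx (Real.exp u)

lemma gM_eq : gM = sumExp mu := rfl

lemma gM_measurable : Measurable gM := sumExp_measurable mu

lemma gM_zero (u : ℝ) (hu : u < 0) : gM u = 0 := sumExp_zero mu u hu

lemma gM_bound (σ : ℝ) (hσ : zetaSup < σ) : ∃ C, ∀ u, |gM u| ≤ C * Real.exp (σ * u) := by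
  have h12 := half_le_zetaSup
  have h1 := zetaSup_le_one
  obtain ⟨C, hC0, hC⟩ := mertens_bound (θ := zetaSup) (σ := min σ 2) (by linarith) zetaSup_free
    (lt_min hσ (by linarith)) (min_le_right _ _)
  refine ⟨C, fun u => ?_⟩
  rcases lt_or_ge u 0 with hu | hu
  · rw [gM_zero u hu, abs_zero]; positivity
  · have h2 : 1 ≤ Real.exp u := Real.one_le_exp_iff.mpr hu
    calc |gM u| ≤ C * Real.exp u ^ (min σ 2) := hC _ h2
      _ ≤ C * Real.exp u ^ σ := by
        refine mul_le_mul_of_nonneg_left ?_ hC0.le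
        exact Real.rpow_le_rpow_of_exponent_le h2 (min_le_left _ _)
      _ = C * Real.exp (σ * u) := by rw [← Real.exp_mul, mul_comm u σ]

lemma gM_lint : LInt (fun u => (gM u : ℂ)) zetaSup where
  meas := Complex.measurable_ofReal.comp gM_measurable
  zero := fun u hu => by rw [gM_zero u hu, Complex.ofReal_zero]
  int := by
    intro x hx
    obtain ⟨C, hC⟩ := gM_bound ((zetaSup + x) / 2) (by linarith)
    have hN : Nice (fun u => (gM u : ℂ)) C ((zetaSup + x) / 2) 0 :=
      ⟨Complex.measurable_ofReal.comp gM_measurable, fun u => by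
        rw [Complex.norm_real, Real.norm_eq_abs]; exact hC u,
        fun u hu => by rw [gM_zero u hu, Complex.ofReal_zero]⟩
    exact (Nice.lint hN).int x (by linarith)

/-- `s ∫ M(e^u) e^{-su} du = 1/ζ(s)` for `Re s > 1` -/
lemma lap_gM {s : ℂ} (hs : 1 < s.re) : s * Lap (fun u => (gM u : ℂ)) s = fz s := by
  rw [gM_eq, ← lap_sumExp mu (r := 1) zero_le_one hs ?_]
  · exact (moebius_lseries hs).LSeries_eq
  · refine Asymptotics.IsBigO.of_bound 1 (Eventually.of_forall fun n => ?_)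
    rw [Real.rpow_one, one_mul, Real.norm_of_nonneg (Finset.sum_nonneg fun _ _ => norm_nonneg _),
      Real.norm_of_nonneg (Nat.cast_nonneg n)]
    calc ∑ k ∈ Finset.Icc 1 n, ‖((mu k : ℝ) : ℂ)‖ ≤ ∑ k ∈ Finset.Icc 1 n, (1:ℝ) := by
          refine Finset.sum_le_sum fun k _ => ?_
          rw [Complex.norm_real]
          exact abs_mu_le k
      _ = n := by simp

/-- the identity in every half-plane where the Laplace transform converges -/
lemma lap_gM_mul {b : ℝ} (hL : LInt (fun u => (gM u : ℂ)) b) {s : ℂ} (hs : b < s.re) :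
    Zs s * (s * Lap (fun u => (gM u : ℂ)) s) = s - 1 := by
  have h1 : AnalyticOnNhd ℂ (fun s => Zs s * (s * Lap (fun u => (gM u : ℂ)) s)) {s | b < s.re} := by
    intro z hz
    exact (Zs_differentiable.analyticAt z).mul (analyticAt_id.mul (hL.analyticOnNhd z hz))
  have h2 : AnalyticOnNhd ℂ (fun s : ℂ => s - 1) {s | b < s.re} := by
    intro z _
    exact analyticAt_id.sub analyticAt_const
  set t : ℝ := max b 1 + 1 with ht
  have htb : b < t := by have := le_max_left b 1; rw [ht]; linarith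
  have ht1 : 1 < t := by have := le_max_right b 1; rw [ht]; linarith
  have h3 := h1.eqOn_of_preconnected_of_eventuallyEq h2 (halfplane_preconnected b)
    (z₀ := (t : ℂ)) (by simpa using htb) (by
      filter_upwards [(halfplane_open 1).mem_nhds (show (t : ℂ) ∈ {s : ℂ | 1 < s.re} by simpa using ht1)]
        with z hz
      rw [lap_gM hz]
      have : Zs z ≠ 0 := Zs_ne_zero_of_one_le (le_of_lt hz)
      unfold fz
      field_simp)
  exact h3 hs

lemma lap_gM' {s : ℂ} (hs : zetaSup < s.re) : s * Lap (fun u => (gM u : ℂ)) s = fz s := by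
  have h1 := lap_gM_mul gM_lint hs
  have h2 := zetaSup_free s hs
  unfold fz
  rw [eq_div_iff h2, mul_comm, h1]

lemma gM_mod (σ : ℝ) (hσ : zetaSup < σ) (hσ2 : σ < 2) (ε : ℝ) (hε : 0 < ε) :
    ∃ C, ModCont gM σ ε C := by
  have h12 := half_le_zetaSup
  set e : ℝ := min ε 1 with he
  have he0 : 0 < e := lt_min hε one_pos
  obtain ⟨C, hC⟩ := gM_bound ((zetaSup + σ) / 2) (by linarith)
  have hN : Nice (fun u => (gM u : ℂ)) C ((zetaSup + σ) / 2) 0 :=
    ⟨Complex.measurable_ofReal.comp gM_measurable, fun u => by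
      rw [Complex.norm_real, Real.norm_eq_abs]; exact hC u,
      fun u hu => by rw [gM_zero u hu, Complex.ofReal_zero]⟩
  obtain ⟨B, hB0, hB⟩ := fz_bound (θ := zetaSup) (σ := σ) (ε := e / 4) (by linarith) zetaSup_free hσ
    (by linarith)
  obtain ⟨K, hK⟩ := modCont_of_bound hN (by linarith) (by linarith) (by linarith) hσ2.le he0 (min_le_right _ _)
    (B := B) (fun s hs => by
      rw [lap_gM' (by rw [hs]; exact hσ)]
      exact hB s hs.ge (by rw [hs]; exact hσ2.le))
  refine ⟨K, fun h hh hh1 => ⟨(hK h hh hh1).1, (hK h hh hh1).2.trans ?_⟩⟩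
  refine mul_le_mul_of_nonneg_left ?_ hK.C_nonneg
  refine Real.rpow_le_rpow_of_exponent_ge hh hh1 ?_
  have := min_le_left ε 1
  linarith

lemma Mx_sub_le {x y : ℝ} (hx : 0 ≤ x) (hxy : x ≤ y) : |Mx y - Mx x| ≤ y - x + 1 := by
  unfold Mx
  have hfl : ⌊x⌋₊ ≤ ⌊y⌋₊ := Nat.floor_le_floor hxy
  have h1 : ∑ k ∈ Finset.Icc 1 ⌊y⌋₊, mu k - ∑ k ∈ Finset.Icc 1 ⌊x⌋₊, mu k =
      ∑ k ∈ Finset.Ioc ⌊x⌋₊ ⌊y⌋₊, mu k := by
    have h2 : Finset.Icc 1 ⌊y⌋₊ = Finset.Icc 1 ⌊x⌋₊ ∪ Finset.Ioc ⌊x⌋₊ ⌊y⌋₊ := by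
      ext k; simp only [Finset.mem_union, Finset.mem_Icc, Finset.mem_Ioc]; omega
    have h3 : Disjoint (Finset.Icc 1 ⌊x⌋₊) (Finset.Ioc ⌊x⌋₊ ⌊y⌋₊) := by
      rw [Finset.disjoint_left]; intro k; simp only [Finset.mem_Icc, Finset.mem_Ioc]; omega
    rw [h2, Finset.sum_union h3]; ring
  rw [h1]
  calc |∑ k ∈ Finset.Ioc ⌊x⌋₊ ⌊y⌋₊, mu k| ≤ ∑ k ∈ Finset.Ioc ⌊x⌋₊ ⌊y⌋₊, |mu k| := Finset.abs_sum_le_sum_abs _ _
    _ ≤ ∑ k ∈ Finset.Ioc ⌊x⌋₊ ⌊y⌋₊, (1:ℝ) := Finset.sum_le_sum fun k _ => abs_mu_le k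
    _ = (⌊y⌋₊ : ℝ) - ⌊x⌋₊ := by
      rw [Finset.sum_const, Nat.card_Ioc, nsmul_eq_mul, mul_one, Nat.cast_sub hfl]
    _ ≤ y - x + 1 := by
      have h4 := Nat.floor_le (hx.trans hxy)
      have h5 := Nat.lt_floor_add_one x
      linarith

lemma Zs_real_ne {x : ℝ} (hx : 0 < x) : Zs (x : ℂ) ≠ 0 := by
  rcases le_or_gt 1 x with h1 | h1
  · exact Zs_ne_zero_of_one_le (by simpa using h1)
  · rw [Zs_eq_Zt (by simpa using hx)]
    have hH : Hf (x : ℂ) = ((∫ t in Ioi (1:ℝ), Int.fract t * t ^ (-(x + 1)) : ℝ) : ℂ) := by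
      rw [Hf_eq, ← integral_complex_ofReal]
      refine setIntegral_congr_fun measurableSet_Ioi fun t ht => ?_
      have ht0 : (0:ℝ) ≤ t := le_trans zero_le_one (le_of_lt ht)
      rw [Complex.ofReal_mul, Complex.ofReal_cpow ht0]
      push_cast
      rfl
    set H : ℝ := ∫ t in Ioi (1:ℝ), Int.fract t * t ^ (-(x + 1)) with hHd
    have hH0 : 0 ≤ H := by
      refine setIntegral_nonneg measurableSet_Ioi fun t ht => ?_
      have ht0 : (0:ℝ) ≤ t := le_trans zero_le_one (le_of_lt ht)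
      exact mul_nonneg (Int.fract_nonneg t) (Real.rpow_nonneg ht0 _)
    unfold Zt
    rw [hH]
    have : (x : ℂ) - x * (x - 1) * (H : ℂ) = ((x - x * (x - 1) * H : ℝ) : ℂ) := by push_cast; ring
    rw [this, Complex.ofReal_ne_zero]
    have : 0 ≤ x * (1 - x) * H := by
      have : 0 ≤ 1 - x := by linarith
      positivity
    nlinarith

theorem gM_good : Good gM zetaSup where
  meas := gM_measurable
  zero := gM_zero
  pos := zetaSup_pos
  bound := gM_bound
  mod := gM_mod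
  small := by
    intro η hη
    refine ⟨2, fun u v hu huv h => ?_⟩
    have h1 : 1 ≤ Real.exp (η * u) := Real.one_le_exp_iff.mpr (by positivity)
    have h2 : Real.exp u ≤ Real.exp v := Real.exp_le_exp.mpr huv
    have h3 := Mx_sub_le (Real.exp_pos u).le h2
    unfold gM
    linarith
  anal := by
    refine ⟨1, zetaSup, zetaSup_pos, fun s => fz s / s, fun x hx => ?_, fun s hs => ?_⟩
    · have hx0 : 0 < x := by linarith
      have hz := Zs_real_ne hx0
      have hx' : (x : ℂ) ≠ 0 := by exact_mod_cast hx0.ne'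
      have h1 : AnalyticAt ℂ fz (x : ℂ) :=
        (analyticAt_id.sub analyticAt_const).div (Zs_differentiable.analyticAt _) hz
      exact h1.div analyticAt_id hx'
    · have hs0 : s ≠ 0 := by rintro rfl; simp at hs; linarith
      show fz s / s = _
      rw [← lap_gM hs]
      field_simp
  sing := by
    intro b hb hL
    obtain ⟨ρ, h1, h2⟩ := zetaSup_sup (zetaSup - b) (by linarith)
    have h3 := lap_gM_mul hL (s := ρ) (by linarith)
    rw [h2, zero_mul] at h3
    have h4 : ρ = 1 := (sub_eq_zero.mp h3.symm)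
    have h5 := Zs_ne_zero_of_one_le (s := ρ) (by rw [h4]; simp)
    exact h5 h2
  le_one := zetaSup_le_one

end

end Pool.Agent.W173.OS
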