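import Pool.Agent.W173.OS.F

set_option autoImplicit false

open MeasureTheory Filter Topology Set
open Pool.Agent.H295R2

namespace Pool.Agent.W173.OS

noncomputable section

/-- **The persistence theorem in the variable `x`.** -/
theorem persist_x {g : ℝ → ℝ} {Θ : ℝ} (h : Good g Θ) {α ε : ℝ} (hα : 0 < α) (hε : 0 < ε) (X : ℝ) :
    ∃ x, X ≤ x ∧ 1 ≤ x ∧ ∀ y, x ≤ y → y ≤ x + x ^ (1 - α) → x ^ (Θ - ε) ≤ g (Real.log y) := by
  obtain ⟨u, hu, hv⟩ := persist_u h hα hε (Real.log (max X 1))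
  have hX1 : (0:ℝ) < max X 1 := lt_of_lt_of_le one_pos (le_max_right _ _)
  have hx : max X 1 ≤ Real.exp u := by
    rw [← Real.log_le_iff_le_exp hX1]; exact hu
  have hx1 : 1 ≤ Real.exp u := (le_max_right _ _).trans hx
  refine ⟨Real.exp u, (le_max_left _ _).trans hx, hx1, fun y hy1 hy2 => ?_⟩
  have hy0 : 0 < y := by linarith
  have e1 : Real.exp u ^ (Θ - ε) = Real.exp ((Θ - ε) * u) := by
    rw [← Real.exp_mul, mul_comm]
  rw [e1]
  refine hv _ ?_ ?_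
  · rw [Real.le_log_iff_exp_le hy0]; exact hy1
  · rw [Real.log_le_iff_le_exp hy0]
    refine hy2.trans ?_
    have e2 : Real.exp u ^ (1 - α) = Real.exp u * Real.exp (-(α * u)) := by
      rw [← Real.exp_mul, ← Real.exp_add]; ring_nf
    rw [e2, Real.exp_add]
    have h3 := Real.add_one_le_exp (Real.exp (-(α * u)))
    calc Real.exp u + Real.exp u * Real.exp (-(α * u)) = Real.exp u * (Real.exp (-(α * u)) + 1) := by ring
      _ ≤ _ := mul_le_mul_of_nonneg_left h3 (Real.exp_pos _).le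

/-- `M` keeps one sign and is large on a long interval -/
theorem mertens_persist {α ε : ℝ} (hα : 0 < α) (hε : 0 < ε) (X : ℝ) {τ : ℝ} (hτ : τ = 1 ∨ τ = -1) :
    ∃ x, X ≤ x ∧ 1 ≤ x ∧ ∀ y, x ≤ y → y ≤ x + x ^ (1 - α) → x ^ (zetaSup - ε) ≤ τ * Mx y := by
  rcases hτ with rfl | rfl
  · obtain ⟨x, h1, h2, h3⟩ := persist_x gM_good hα hε X
    refine ⟨x, h1, h2, fun y hy1 hy2 => ?_⟩
    have := h3 y hy1 hy2
    rw [gM, Real.exp_log (by linarith)] at this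
    linarith
  · obtain ⟨x, h1, h2, h3⟩ := persist_x gM_good.neg hα hε X
    refine ⟨x, h1, h2, fun y hy1 hy2 => ?_⟩
    have := h3 y hy1 hy2
    rw [gM, Real.exp_log (by linarith)] at this
    linarith

/-- `A` meets every interval `[x, x + x^(1-α)]` with `x` large -/
def PolyDense (A : Set ℕ) : Prop :=
  ∃ α : ℝ, 0 < α ∧ ∃ X : ℝ, ∀ x : ℝ, X ≤ x → ∃ n ∈ A, x ≤ n ∧ (n : ℝ) ≤ x + x ^ (1 - α)

lemma sup_le_of_bound {A : Set ℕ} (hA : PolyDense A) {τ : ℝ} (hτ : τ = 1 ∨ τ = -1) {θ C : ℝ} (hθ : 0 ≤ θ)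
    (hC : ∀ n ∈ A, 1 ≤ n → τ * Mx n ≤ C * (n : ℝ) ^ θ) : zetaSup ≤ θ := by
  by_contra hcon
  push Not at hcon
  obtain ⟨α, hα, X, hX⟩ := hA
  set ε : ℝ := (zetaSup - θ) / 2 with hε
  have hε0 : 0 < ε := by rw [hε]; linarith
  have hlim : ∀ᶠ x : ℝ in atTop, |C| * 2 ^ θ < x ^ ε :=
    (tendsto_rpow_atTop hε0).eventually_gt_atTop _
  obtain ⟨X1, hX1⟩ := eventually_atTop.mp hlim
  obtain ⟨x, hx1, hx2, hx3⟩ := mertens_persist hα hε0 (max X X1) hτ
  obtain ⟨n, hnA, hn1, hn2⟩ := hX x ((le_max_left _ _).trans hx1)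
  have h1 := hx3 n hn1 hn2
  have h2 := hC n hnA (by exact_mod_cast hx2.trans hn1)
  have hx0 : 0 < x := by linarith
  have hn3 : (n : ℝ) ≤ 2 * x := by
    have : x ^ (1 - α) ≤ x ^ (1:ℝ) := Real.rpow_le_rpow_of_exponent_le hx2 (by linarith)
    rw [Real.rpow_one] at this
    linarith
  have h3 : C * (n : ℝ) ^ θ ≤ |C| * (2 ^ θ * x ^ θ) := by
    calc C * (n : ℝ) ^ θ ≤ |C| * (n : ℝ) ^ θ := mul_le_mul_of_nonneg_right (le_abs_self _) (by positivity)
      _ ≤ |C| * (2 * x) ^ θ := by gcongr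
      _ = _ := by rw [Real.mul_rpow (by norm_num) hx0.le]
  have h4 := hX1 x ((le_max_right _ _).trans hx1)
  have h5 : x ^ (zetaSup - ε) = x ^ ε * x ^ θ := by
    rw [← Real.rpow_add hx0]; congr 1; rw [hε]; ring
  have h6 : 0 < x ^ θ := by positivity
  nlinarith

lemma bound_of_sup {σ : ℝ} (hσ : zetaSup < σ) : ∃ C, 0 ≤ C ∧ ∀ x : ℝ, 1 ≤ x → |Mx x| ≤ C * x ^ σ := by
  obtain ⟨C, hC⟩ := gM_bound σ hσ
  refine ⟨C, ?_, fun x hx => ?_⟩
  · have := (abs_nonneg _).trans (hC 0)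
    simpa using this
  · have h1 := hC (Real.log x)
    have hx0 : 0 < x := by linarith
    rw [gM, Real.exp_log hx0] at h1
    rw [Real.rpow_def_of_pos hx0, mul_comm (Real.log x)]
    exact h1

lemma Mx_zero : Mx ((0:ℕ) : ℝ) = 0 := by
  unfold Mx; simp

lemma bound_on_nat {τ : ℝ} (hτ : τ = 1 ∨ τ = -1) {C σ : ℝ} (hC : 0 ≤ C)
    (h : ∀ x : ℝ, 1 ≤ x → |Mx x| ≤ C * x ^ σ) (n : ℕ) : τ * Mx n ≤ C * (n : ℝ) ^ σ := by
  rcases Nat.eq_zero_or_pos n with rfl | hn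
  · rw [Mx_zero, mul_zero]; positivity
  · have h1 := h n (by exact_mod_cast hn)
    have h2 : τ * Mx n ≤ |Mx n| := by
      rcases hτ with rfl | rfl
      · rw [one_mul]; exact le_abs_self _
      · rw [neg_one_mul]; exact neg_le_abs _
    linarith

/-- zero-free half-planes and one-sided bounds on polynomially dense sets -/
theorem main_half {A : Set ℕ} (hA : PolyDense A) {τ : ℝ} (hτ : τ = 1 ∨ τ = -1) {θ : ℝ} (hθ : 1 / 2 ≤ θ) :
    (∀ δ : ℝ, 0 < δ → ∃ C : ℝ, ∀ n ∈ A, τ * Mx n ≤ C * (n : ℝ) ^ (θ + δ)) ↔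
      ∀ s : ℂ, θ < s.re → s ≠ 1 → riemannZeta s ≠ 0 := by
  have key : (∀ s : ℂ, θ < s.re → s ≠ 1 → riemannZeta s ≠ 0) ↔ zetaSup ≤ θ := by
    constructor
    · intro h
      refine csSup_le zset_nonempty ?_
      rintro _ ⟨s, ⟨hs1, hs2, hs3⟩, rfl⟩
      by_contra hcon
      push Not at hcon
      refine h s hcon ?_ hs1
      rintro rfl
      simp at hs3
    · intro h s hs hs1 hz
      have h1 := zetaSup_free s (lt_of_le_of_lt h hs)
      refine h1 ?_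
      rw [← Zs_eq hs1, hz, mul_zero]
  rw [key]
  constructor
  · intro h
    refine le_of_forall_pos_le_add fun δ hδ => ?_
    obtain ⟨C, hC⟩ := h δ hδ
    exact sup_le_of_bound hA hτ (by linarith) fun n hn _ => hC n hn
  · intro h δ hδ
    obtain ⟨C, hC0, hC⟩ := bound_of_sup (σ := θ + δ) (by linarith)
    exact ⟨C, fun n _ => bound_on_nat hτ hC0 hC n⟩

/-- the problem -/
theorem main_Q1 {A : Set ℕ} (hA : PolyDense A) {τ : ℝ} (hτ : τ = 1 ∨ τ = -1) :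
    (∃ θ : ℝ, θ < 1 ∧ ∃ C : ℝ, ∀ n ∈ A, τ * Mx n ≤ C * (n : ℝ) ^ θ) ↔
      ∃ ε : ℝ, ε < 1 / 2 ∧ ∃ C : ℝ, ∀ x : ℝ, 1 ≤ x → |Mx x| ≤ C * x ^ (1 / 2 + ε) := by
  constructor
  · rintro ⟨θ, hθ, C, hC⟩
    have h1 : zetaSup ≤ max θ (1 / 2) := by
      refine sup_le_of_bound hA hτ (C := |C|) (le_trans (by norm_num) (le_max_right _ _)) fun n hn hn0 => ?_
      refine (hC n hn).trans ?_
      have hn1 : (1:ℝ) ≤ n := by exact_mod_cast hn0
      calc C * (n:ℝ) ^ θ ≤ |C| * (n:ℝ) ^ θ := mul_le_mul_of_nonneg_right (le_abs_self _) (by positivity)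
        _ ≤ |C| * (n:ℝ) ^ (max θ (1 / 2)) := by
          refine mul_le_mul_of_nonneg_left ?_ (abs_nonneg _)
          exact Real.rpow_le_rpow_of_exponent_le hn1 (le_max_left _ _)
    have h2 : max θ (1 / 2) < 1 := max_lt hθ (by norm_num)
    obtain ⟨C', hC0, hC'⟩ := bound_of_sup (σ := (1 + max θ (1 / 2)) / 2) (by linarith)
    refine ⟨(1 + max θ (1 / 2)) / 2 - 1 / 2, by linarith, C', fun x hx => ?_⟩
    have e : 1 / 2 + ((1 + max θ (1 / 2)) / 2 - 1 / 2) = (1 + max θ (1 / 2)) / 2 := by ring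
    rw [e]
    exact hC' x hx
  · rintro ⟨ε, hε, C, hC⟩
    have hC0 : 0 ≤ C := by
      have := (abs_nonneg _).trans (hC 1 le_rfl)
      simpa using this
    exact ⟨1 / 2 + ε, by linarith, C, fun n _ => bound_on_nat hτ hC0 hC n⟩

lemma one_add_pow_le (k : ℕ) {t : ℝ} (h0 : 0 ≤ t) (h1 : t ≤ 1) : (1 + t) ^ k ≤ 1 + (2 ^ k - 1) * t := by
  induction k with
  | zero => simp
  | succ k ih =>
    have h2 : (1:ℝ) ≤ 2 ^ k := one_le_pow₀ (by norm_num)
    calc (1 + t) ^ (k + 1) = (1 + t) ^ k * (1 + t) := pow_succ _ _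
      _ ≤ (1 + (2 ^ k - 1) * t) * (1 + t) := mul_le_mul_of_nonneg_right ih (by linarith)
      _ = 1 + t + (2 ^ k - 1) * t + (2 ^ k - 1) * (t * t) := by ring
      _ ≤ 1 + t + (2 ^ k - 1) * t + (2 ^ k - 1) * t := by
        have : t * t ≤ t := by nlinarith
        have h3 : 0 ≤ (2:ℝ) ^ k - 1 := by linarith
        nlinarith
      _ = 1 + (2 ^ (k + 1) - 1) * t := by rw [pow_succ]; ring

/-- the `k`-th powers are polynomially dense -/
theorem polyDense_pow {k : ℕ} (hk : 1 ≤ k) : PolyDense {n | ∃ m : ℕ, n = m ^ k} := by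
  have hk0 : (0:ℝ) < k := by exact_mod_cast hk
  refine ⟨1 / (2 * k), by positivity, ?_⟩
  have hlim : ∀ᶠ x : ℝ in atTop, (2:ℝ) ^ k ≤ x ^ (1 / (2 * (k:ℝ))) :=
    (tendsto_rpow_atTop (by positivity)).eventually_ge_atTop _
  obtain ⟨X, hX⟩ := eventually_atTop.mp hlim
  refine ⟨max X 1, fun x hx => ?_⟩
  have hx1 : 1 ≤ x := (le_max_right _ _).trans hx
  have hx0 : 0 < x := by linarith
  have h1 := hX x ((le_max_left _ _).trans hx)
  set y : ℝ := x ^ (1 / (k:ℝ)) with hy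
  have hy0 : 0 < y := by positivity
  have hyk : y ^ k = x := by
    rw [hy, ← Real.rpow_natCast, ← Real.rpow_mul hx0.le, one_div, inv_mul_cancel₀ hk0.ne', Real.rpow_one]
  have hy1 : 1 ≤ y := Real.one_le_rpow hx1 (by positivity)
  refine ⟨⌈y⌉₊ ^ k, ⟨_, rfl⟩, ?_, ?_⟩
  · push_cast
    rw [← hyk]
    exact pow_le_pow_left₀ hy0.le (Nat.le_ceil y) k
  · push_cast
    have h2 : (⌈y⌉₊ : ℝ) ≤ y * (1 + 1 / y) := by
      have := (Nat.ceil_lt_add_one hy0.le).le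
      rw [mul_add, mul_one, mul_one_div_cancel hy0.ne']
      exact this
    have h3 : 1 / y ≤ 1 := by rw [div_le_one hy0]; exact hy1
    have h4 := one_add_pow_le k (t := 1 / y) (by positivity) h3
    calc (⌈y⌉₊ : ℝ) ^ k ≤ (y * (1 + 1 / y)) ^ k := pow_le_pow_left₀ (Nat.cast_nonneg _) h2 k
      _ = x * (1 + 1 / y) ^ k := by rw [mul_pow, hyk]
      _ ≤ x * (1 + (2 ^ k - 1) * (1 / y)) := mul_le_mul_of_nonneg_left h4 hx0.le
      _ ≤ x * (1 + x ^ (1 / (2 * (k:ℝ))) * (1 / y)) := by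
        refine mul_le_mul_of_nonneg_left ?_ hx0.le
        have : (2 ^ k - 1) * (1 / y) ≤ x ^ (1 / (2 * (k:ℝ))) * (1 / y) :=
          mul_le_mul_of_nonneg_right (by linarith) (by positivity)
        linarith
      _ = x + x ^ (1 - 1 / (2 * (k:ℝ))) := by
        rw [mul_add, mul_one]
        congr 1
        have e1 : 1 / y = x ^ (-(1 / (k:ℝ))) := by rw [hy, Real.rpow_neg hx0.le, one_div]
        rw [e1, ← Real.rpow_add hx0]
        nth_rewrite 1 [← Real.rpow_one x]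
        rw [← Real.rpow_add hx0]
        congr 1
        field_simp
        ring

end

end Pool.Agent.W173.OS
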