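import Pool.Agent.W173.OS.H

set_option autoImplicit false

open MeasureTheory Filter Topology Set
open Pool.Agent.H295R2

namespace Pool.Agent.W173.OS

noncomputable section
set_option maxHeartbeats 1000000

/-- Hypotheses with two exponents: the modulus of continuity is controlled to the right of `Θ`,
and `β ≤ Θ` is (a lower bound for) the abscissa of absolute convergence. -/
structure Good2 (g : ℝ → ℝ) (Θ β : ℝ) : Prop where
  meas : Measurable g
  zero : ∀ u, u < 0 → g u = 0
  pos : 0 < β
  le : β ≤ Θ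
  le_one : Θ ≤ 1
  bound : ∃ a C : ℝ, 0 ≤ a ∧ ∀ u, |g u| ≤ C * Real.exp (a * u)
  mod : ∀ σ, Θ < σ → σ < 2 → ∀ ε, 0 < ε → ∃ C, ModCont g σ ε C
  small : ∀ η, 0 < η → ∃ K, ∀ u v : ℝ, 0 ≤ u → u ≤ v → Real.exp v - Real.exp u ≤ 1 →
    |g v - g u| ≤ K * Real.exp (η * u)
  anal : ∃ a κ : ℝ, 0 < κ ∧ ∃ F : ℂ → ℂ, (∀ x : ℝ, β - κ < x → AnalyticAt ℂ F x) ∧
    ∀ s : ℂ, a < s.re → F s = Lap (fun u => (g u : ℂ)) s
  sing : ∀ b, b < β → ¬ LInt (fun u => (g u : ℂ)) b

lemma Good2.neg {g : ℝ → ℝ} {Θ β : ℝ} (h : Good2 g Θ β) : Good2 (fun u => - g u) Θ β where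
  meas := h.meas.neg
  zero := fun u hu => by rw [h.zero u hu, neg_zero]
  pos := h.pos
  le := h.le
  le_one := h.le_one
  bound := by
    obtain ⟨a, C, ha, hC⟩ := h.bound
    exact ⟨a, C, ha, fun u => by rw [abs_neg]; exact hC u⟩
  mod := by
    intro σ hσ hσ2 ε hε
    obtain ⟨C, hC⟩ := h.mod σ hσ hσ2 ε hε
    refine ⟨C, fun x hx hx1 => ?_⟩
    have e : ∀ w, (-g (w + x) - -g w) ^ 2 * Real.exp (-(2 * σ * w)) =
        (g (w + x) - g w) ^ 2 * Real.exp (-(2 * σ * w)) := fun w => by ring
    simp_rw [e]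
    exact hC x hx hx1
  small := by
    intro η hη
    obtain ⟨K, hK⟩ := h.small η hη
    refine ⟨K, fun u v h1 h2 h3 => ?_⟩
    rw [show -g v - -g u = -(g v - g u) by ring, abs_neg]
    exact hK u v h1 h2 h3
  anal := by
    obtain ⟨a, κ, hκ, F, h1, h2⟩ := h.anal
    refine ⟨a, κ, hκ, fun s => - F s, fun x hx => (h1 x hx).neg, fun s hs => ?_⟩
    show -F s = _
    rw [h2 s hs]
    unfold Lap
    rw [← integral_neg]
    refine integral_congr_ae (Eventually.of_forall fun u => ?_)
    simp
  sing := by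
    intro b hb hL
    refine h.sing b hb ?_
    simpa using hL.neg

/-- **The persistence theorem with two exponents, in the variable `u = log x`.** -/
theorem persist_u2 {g : ℝ → ℝ} {Θ β : ℝ} (h : Good2 g Θ β) {α ε : ℝ} (hα : 0 < α) (hε : 0 < ε)
    (hβ : Θ - α / 2 < β) (U : ℝ) :
    ∃ u, U ≤ u ∧ ∀ v, u ≤ v → v ≤ u + Real.exp (-(α * u)) → Real.exp ((β - ε) * u) ≤ g v := by
  by_contra hcon
  push Not at hcon
  obtain ⟨a, κ₀, hκ₀, F, hF1, hF2⟩ := h.anal
  have hβ0 := h.pos
  have hβΘ := h.le
  have hle := h.le_one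
  obtain ⟨a0, C1, ha0, hC1⟩ := h.bound
  -- the parameters
  set m : ℝ := max (max (Θ - α / 2) (β - κ₀)) (max (β - ε) 0) with hm
  have hmβ : m < β := by
    rw [hm]; refine max_lt (max_lt ?_ ?_) (max_lt ?_ ?_) <;> linarith
  have m1 : Θ - α / 2 ≤ m := (le_max_left _ _).trans (le_max_left _ _)
  have m2 : β - κ₀ ≤ m := (le_max_right _ _).trans (le_max_left _ _)
  have m3 : β - ε ≤ m := (le_max_left _ _).trans (le_max_right _ _)
  have m4 : 0 ≤ m := (le_max_right _ _).trans (le_max_right _ _)
  set l : ℝ := (m + β) / 2 with hl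
  have hl0 : 0 < l := by rw [hl]; linarith
  have hml : m < l := by rw [hl]; linarith
  have hlβ : l < β := by rw [hl]; linarith
  set γ : ℝ := l - (Θ - α / 2) with hγ
  have hγ0 : 0 < γ := by rw [hγ]; linarith
  set κ : ℝ := min (γ / 2) (1 / 2) with hκ
  have hκ0 : 0 < κ := by rw [hκ]; exact lt_min (by linarith) (by norm_num)
  have k1 : κ ≤ γ / 2 := min_le_left _ _
  have k5 : κ ≤ 1 / 2 := min_le_right _ _
  set e : ℝ := γ / (α + 2) with he
  have he0 : 0 < e := by rw [he]; positivity
  have hee : e * (α + 2) = γ := by rw [he]; field_simp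
  obtain ⟨C, hC⟩ := h.mod (Θ + κ) (by linarith) (by linarith) e he0
  obtain ⟨K, hK⟩ := h.small l hl0
  have hK0 : 0 ≤ K := by
    have := (abs_nonneg _).trans (hK 0 0 le_rfl le_rfl (by simp))
    simpa using this
  have hVL : LInt (fun u => (Vf g α K l u : ℂ)) l :=
    Vf_lint h.meas (σ := Θ + κ) (ε := e) (by linarith) he0.le hα.le hK0 hl0.le (by rw [hee]; linarith) hC
  -- the initial segment
  have hC10 : 0 ≤ C1 := by
    have := (abs_nonneg _).trans (hC1 0)
    simpa using this
  set U1 : ℝ := max U 0 with hU1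
  set K2 : ℝ := C1 * Real.exp (a0 * U1) * Real.exp (l * 0) with hK2
  have hK20 : 0 ≤ K2 := by positivity
  -- the majorant
  set k1f : ℝ → ℝ := fun u => Vf g α K l u + (Ici (0:ℝ)).indicator (fun u => (1 + K2) * Real.exp (l * u)) u
    with hk1f
  have hk1L : LInt (fun u => (k1f u : ℂ)) l := by
    have := hVL.add (exp_ind_lint l (1 + K2))
    simpa [hk1f] using this
  have hVnn : ∀ u, 0 ≤ Vf g α K l u := by
    intro u
    unfold Vf
    split_ifs
    · exact V_nonneg hK0 _ _
    · exact le_rfl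
  have hmaj : ∀ u, g u ≤ k1f u := by
    intro u
    rcases lt_or_ge u 0 with hu | hu
    · rw [h.zero u hu, hk1f]
      simp only
      rw [indicator_of_notMem (by simpa using hu), add_zero]
      exact hVnn u
    · have hu' : u ∈ Ici (0:ℝ) := hu
      simp only [hk1f]
      rw [indicator_of_mem hu']
      rcases lt_or_ge u U with hU | hU
      · -- small `u`
        have h1 : g u ≤ C1 * Real.exp (a0 * u) := (le_abs_self _).trans (hC1 u)
        have h2 : C1 * Real.exp (a0 * u) ≤ K2 := by
          rw [hK2, mul_zero, Real.exp_zero, mul_one]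
          refine mul_le_mul_of_nonneg_left (Real.exp_le_exp.mpr ?_) hC10
          have : u ≤ U1 := hU.le.trans (le_max_left _ _)
          exact mul_le_mul_of_nonneg_left this ha0
        have h3 : K2 ≤ (1 + K2) * Real.exp (l * u) := by
          have h4 : 1 ≤ Real.exp (l * u) := by
            rw [Real.one_le_exp_iff]; positivity
          calc K2 ≤ (1 + K2) * 1 := by linarith
            _ ≤ (1 + K2) * Real.exp (l * u) := mul_le_mul_of_nonneg_left h4 (by linarith)
        linarith [hVnn u]
      · obtain ⟨v, hv1, hv2, hv3⟩ := hcon u hU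
        have hN : ((⌊u⌋₊ : ℕ) : ℝ) ≤ u := Nat.floor_le hu
        have hv4 : v ≤ u + Real.exp (-(α * (⌊u⌋₊ : ℕ))) := by
          refine hv2.trans ?_
          have : Real.exp (-(α * u)) ≤ Real.exp (-(α * (⌊u⌋₊ : ℕ))) := by
            apply Real.exp_le_exp.mpr
            exact neg_le_neg (mul_le_mul_of_nonneg_left hN hα.le)
          linarith
        have h5 := variation_le (g := g) (α := α) (K := K) (η := l) (l := l) hα.le hl0.le le_rfl hK ⌊u⌋₊ hN
          (Nat.lt_floor_add_one u) hv1 hv4
        have h6 : Vf g α K l u = V g α K l ⌊u⌋₊ u := by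
          unfold Vf; rw [if_pos hu]
        rw [h6]
        have h7 : Real.exp ((β - ε) * u) ≤ (1 + K2) * Real.exp (l * u) := by
          have h8 : Real.exp ((β - ε) * u) ≤ Real.exp (l * u) := by
            apply Real.exp_le_exp.mpr
            apply mul_le_mul_of_nonneg_right _ hu
            rw [hl]; linarith
          have h9 : 0 < Real.exp (l * u) := Real.exp_pos _
          have h9' : 0 ≤ K2 * Real.exp (l * u) := mul_nonneg hK20 h9.le
          linarith
        have h10 : g u ≤ g v + |g v - g u| := by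
          have := neg_abs_le (g v - g u)
          linarith
        linarith
  -- the nonnegative function
  set f : ℝ → ℝ := fun u => k1f u - g u with hf
  have hk1m : Measurable k1f := by
    rw [hk1f]
    exact (Vf_measurable h.meas α K l).add (Measurable.indicator (by fun_prop) measurableSet_Ici)
  have hfm : Measurable f := hk1m.sub h.meas
  have hfn : ∀ u, 0 ≤ f u := fun u => sub_nonneg.mpr (hmaj u)
  have hf0 : ∀ u, u < 0 → f u = 0 := by
    intro u hu
    have h1 := hk1L.zero u hu
    rw [Complex.ofReal_eq_zero] at h1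
    simp only [hf]
    rw [h1, h.zero u hu, sub_zero]
  set a1 : ℝ := max a0 β with ha1
  have hla1 : l ≤ a1 := by have := le_max_right a0 β; rw [ha1]; linarith
  have hgL : LInt (fun u => (g u : ℂ)) a1 := by
    have hN : Nice (fun u => (g u : ℂ)) C1 a0 0 :=
      ⟨Complex.measurable_ofReal.comp h.meas, fun u => by
        rw [Complex.norm_real, Real.norm_eq_abs]; exact hC1 u,
        fun u hu => by rw [h.zero u hu, Complex.ofReal_zero]⟩
    exact (Nice.lint hN).mono (le_max_left _ _)
  have hfL : LInt (fun u => (f u : ℂ)) a1 := by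
    have := (hk1L.mono hla1).sub hgL
    simpa [hf] using this
  have hconv : ∀ {b : ℝ}, LInt (fun u => (f u : ℂ)) b →
      ∀ x, b < x → Integrable (fun u => f u * Real.exp (-(x * u))) := by
    intro b hb x hx
    refine (hb.int x hx).congr (Eventually.of_forall fun u => ?_)
    simp only
    rw [Complex.norm_real, Real.norm_of_nonneg (hfn u)]
  have hLan := hk1L.analyticOnNhd
  have hland := landau_global hfm hfn hf0 (a := max a a1) (b := l)
    (fun x hx => hconv hfL x (lt_of_le_of_lt (le_max_right _ _) hx))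
    (F := fun s => Lap (fun u => (k1f u : ℂ)) s - F s)
    (fun x hx => (hLan _ (by simp only [Set.mem_ofPred_eq, Complex.ofReal_re]; exact hx)).sub
      (hF1 x (by linarith)))
    (fun s hs => by
      have hs1 : a < s.re := lt_of_le_of_lt (le_max_left _ _) hs
      have hs2 : a1 < s.re := lt_of_le_of_lt (le_max_right _ _) hs
      rw [hF2 s hs1]
      unfold Lap
      rw [← integral_sub (hk1L.integrable (by linarith)) (hgL.integrable hs2)]
      refine integral_congr_ae (Eventually.of_forall fun u => ?_)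
      simp only [hf]
      push_cast
      ring)
  have hfL2 : LInt (fun u => (f u : ℂ)) l := by
    refine ⟨hfL.meas, hfL.zero, fun x hx => ?_⟩
    refine (hland x hx).congr (Eventually.of_forall fun u => ?_)
    simp only
    rw [Complex.norm_real, Real.norm_of_nonneg (hfn u)]
  refine h.sing l hlβ ?_
  have := hk1L.sub hfL2
  simpa [hf] using this

/-- the same in the variable `x` -/
theorem persist_x2 {g : ℝ → ℝ} {Θ β : ℝ} (h : Good2 g Θ β) {α ε : ℝ} (hα : 0 < α) (hε : 0 < ε)
    (hβ : Θ - α / 2 < β) (X : ℝ) :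
    ∃ x, X ≤ x ∧ 1 ≤ x ∧ ∀ y, x ≤ y → y ≤ x + x ^ (1 - α) → x ^ (β - ε) ≤ g (Real.log y) := by
  obtain ⟨u, hu, hv⟩ := persist_u2 h hα hε hβ (Real.log (max X 1))
  have hX1 : (0:ℝ) < max X 1 := lt_of_lt_of_le one_pos (le_max_right _ _)
  have hx : max X 1 ≤ Real.exp u := by
    rw [← Real.log_le_iff_le_exp hX1]; exact hu
  have hx1 : 1 ≤ Real.exp u := (le_max_right _ _).trans hx
  refine ⟨Real.exp u, (le_max_left _ _).trans hx, hx1, fun y hy1 hy2 => ?_⟩
  have hy0 : 0 < y := by linarith
  have e1 : Real.exp u ^ (β - ε) = Real.exp ((β - ε) * u) := by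
    rw [← Real.exp_mul, mul_comm]
  rw [e1]
  refine hv _ ?_ ?_
  · rw [Real.le_log_iff_exp_le hy0]; exact hy1
  · rw [Real.log_le_iff_le_exp hy0]
    refine hy2.trans ?_
    have e2 : Real.exp u ^ (1 - α) = Real.exp u * Real.exp (-(α * u)) := by
      rw [← Real.exp_mul, ← Real.exp_add]; ring_nf
    rw [e2, Real.exp_add]
    have h3 := Real.add_one_le_exp (Real.exp (-(α * u)))
    calc Real.exp u + Real.exp u * Real.exp (-(α * u)) = Real.exp u * (Real.exp (-(α * u)) + 1) := by ring
      _ ≤ _ := mul_le_mul_of_nonneg_left h3 (Real.exp_pos _).le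

end

end Pool.Agent.W173.OS
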