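import Pool.Agent.W173.OS.I

set_option autoImplicit false

open MeasureTheory Filter Topology Set
open Pool.Agent.H295R2

namespace Pool.Agent.W173.OS

noncomputable section

/-! ### interpolation in a strip -/

/-- If `f` grows at most like `|t|^A` on `Re s = a`, like `|t|^B` on `Re s = b` and polynomially in between,
then it satisfies the interpolated bound. -/
lemma pl_interp {f : ℂ → ℂ} (hf : Differentiable ℂ f) {a b A B Ca Cb K : ℝ} (hab : a < b)
    (hA : 0 ≤ A) (hB : 0 ≤ B) (hK : ∀ s : ℂ, a ≤ s.re → s.re ≤ b → ‖f s‖ ≤ K * (1 + |s.im|) ^ (2:ℝ))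
    (ha : ∀ s : ℂ, s.re = a → ‖f s‖ ≤ Ca * (1 + |s.im|) ^ A)
    (hb : ∀ s : ℂ, s.re = b → ‖f s‖ ≤ Cb * (1 + |s.im|) ^ B) :
    ∃ C : ℝ, 0 < C ∧ ∀ s : ℂ, a ≤ s.re → s.re ≤ b →
      ‖f s‖ ≤ C * (1 + |s.im|) ^ (A * (1 - (s.re - a) / (b - a)) + B * ((s.re - a) / (b - a))) := by
  have hCa : 0 ≤ Ca := by
    have := (norm_nonneg _).trans (ha (a : ℂ) (by simp))
    simpa using this
  have hCb : 0 ≤ Cb := by
    have := (norm_nonneg _).trans (hb (b : ℂ) (by simp))
    simpa using this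
  have hK0 : 0 ≤ K := by
    have := (norm_nonneg _).trans (hK (a : ℂ) (by simp) (by simpa using hab.le))
    simpa using this
  set L : ℝ := Real.exp ((b - a) ^ 2) with hL
  have hL0 : 0 < L := Real.exp_pos _
  -- an elementary bound
  have helem : ∀ P : ℝ, 0 ≤ P → ∃ D : ℝ, 0 < D ∧ ∀ T t : ℝ,
      (1 + |t|) ^ P * Real.exp (-(t - T) ^ 2) ≤ D * (1 + |T|) ^ P := by
    intro P hP
    refine ⟨Real.exp (P ^ 2), Real.exp_pos _, fun T t => ?_⟩
    have h1 : 1 + |t| ≤ (1 + |T|) * Real.exp |t - T| := by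
      have h2 : |t| ≤ |T| + |t - T| := by
        have := abs_add_le T (t - T)
        rwa [add_sub_cancel] at this
      have h3 := Real.add_one_le_exp |t - T|
      have h4 : 0 ≤ |T| := abs_nonneg T
      have h5 : 0 ≤ |t - T| := abs_nonneg _
      nlinarith
    calc (1 + |t|) ^ P * Real.exp (-(t - T) ^ 2)
        ≤ ((1 + |T|) * Real.exp |t - T|) ^ P * Real.exp (-(t - T) ^ 2) := by gcongr
      _ = (1 + |T|) ^ P * Real.exp (P * |t - T| - (t - T) ^ 2) := by
          rw [Real.mul_rpow (by positivity) (Real.exp_pos _).le, ← Real.exp_mul, mul_assoc, ← Real.exp_add]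
          ring_nf
      _ ≤ (1 + |T|) ^ P * Real.exp (P ^ 2) := by
          refine mul_le_mul_of_nonneg_left (Real.exp_le_exp.mpr ?_) (by positivity)
          have h6 : (t - T) ^ 2 = |t - T| ^ 2 := (sq_abs _).symm
          rw [h6]
          nlinarith [sq_nonneg (P - |t - T|), abs_nonneg (t - T), mul_nonneg hP (abs_nonneg (t - T))]
      _ = _ := mul_comm _ _
  obtain ⟨DA, hDA0, hDA⟩ := helem A hA
  obtain ⟨DB, hDB0, hDB⟩ := helem B hB
  obtain ⟨D2, hD20, hD2⟩ := helem 2 (by norm_num)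
  set MA : ℝ := Ca * L * DA + 1 with hMA
  set MB : ℝ := Cb * L * DB + 1 with hMB
  have hMA1 : 1 ≤ MA := by rw [hMA]; have : 0 ≤ Ca * L * DA := by positivity
                           linarith
  have hMB1 : 1 ≤ MB := by rw [hMB]; have : 0 ≤ Cb * L * DB := by positivity
                           linarith
  refine ⟨MA * MB, by positivity, fun s hs1 hs2 => ?_⟩
  set T : ℝ := s.im with hT
  set g : ℂ → ℂ := fun z => f z * Complex.exp ((z - s) ^ 2) with hg
  have hexpn : ∀ z : ℂ, a ≤ z.re → z.re ≤ b → ‖Complex.exp ((z - s) ^ 2)‖ ≤ L * Real.exp (-(z.im - T) ^ 2) := by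
    intro z h1 h2
    rw [Complex.norm_exp, hL, ← Real.exp_add]
    apply Real.exp_le_exp.mpr
    have : ((z - s) ^ 2).re = (z.re - s.re) ^ 2 - (z.im - T) ^ 2 := by
      rw [sq, Complex.mul_re, Complex.sub_re, Complex.sub_im]; ring
    rw [this]
    have h3 : (z.re - s.re) ^ 2 ≤ (b - a) ^ 2 := by
      apply sq_le_sq'
      · linarith
      · linarith
    linarith
  have hT1 : 1 ≤ 1 + |T| := by linarith [abs_nonneg T]
  have hgd : DiffContOnCl ℂ g (Complex.HadamardThreeLines.verticalStrip a b) := by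
    have : Differentiable ℂ g := by rw [hg]; fun_prop
    exact this.diffContOnCl
  have hbd : BddAbove ((norm ∘ g) '' Complex.HadamardThreeLines.verticalClosedStrip a b) := by
    refine ⟨K * L * (D2 * (1 + |T|) ^ (2:ℝ)), ?_⟩
    rintro _ ⟨z, hz, rfl⟩
    have hz' : a ≤ z.re ∧ z.re ≤ b := hz
    simp only [Function.comp, hg]
    rw [norm_mul]
    calc ‖f z‖ * ‖Complex.exp ((z - s) ^ 2)‖
        ≤ (K * (1 + |z.im|) ^ (2:ℝ)) * (L * Real.exp (-(z.im - T) ^ 2)) :=
          mul_le_mul (hK z hz'.1 hz'.2) (hexpn z hz'.1 hz'.2) (norm_nonneg _) (by positivity)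
      _ = K * L * ((1 + |z.im|) ^ (2:ℝ) * Real.exp (-(z.im - T) ^ 2)) := by ring
      _ ≤ _ := mul_le_mul_of_nonneg_left (hD2 T z.im) (by positivity)
  have hla : ∀ z ∈ Complex.re ⁻¹' {a}, ‖g z‖ ≤ MA * (1 + |T|) ^ A := by
    intro z hz
    have hz' : z.re = a := hz
    simp only [hg]
    rw [norm_mul]
    have e1 : 0 < (1 + |T|) ^ A := by positivity
    calc ‖f z‖ * ‖Complex.exp ((z - s) ^ 2)‖
        ≤ (Ca * (1 + |z.im|) ^ A) * (L * Real.exp (-(z.im - T) ^ 2)) :=
          mul_le_mul (ha z hz') (hexpn z hz'.ge (by rw [hz']; exact hab.le)) (norm_nonneg _) (by positivity)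
      _ = Ca * L * ((1 + |z.im|) ^ A * Real.exp (-(z.im - T) ^ 2)) := by ring
      _ ≤ Ca * L * (DA * (1 + |T|) ^ A) := mul_le_mul_of_nonneg_left (hDA T z.im) (by positivity)
      _ ≤ MA * (1 + |T|) ^ A := by rw [hMA]; nlinarith
  have hlb : ∀ z ∈ Complex.re ⁻¹' {b}, ‖g z‖ ≤ MB * (1 + |T|) ^ B := by
    intro z hz
    have hz' : z.re = b := hz
    simp only [hg]
    rw [norm_mul]
    have e1 : 0 < (1 + |T|) ^ B := by positivity
    calc ‖f z‖ * ‖Complex.exp ((z - s) ^ 2)‖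
        ≤ (Cb * (1 + |z.im|) ^ B) * (L * Real.exp (-(z.im - T) ^ 2)) :=
          mul_le_mul (hb z hz') (hexpn z (by rw [hz']; exact hab.le) hz'.le) (norm_nonneg _) (by positivity)
      _ = Cb * L * ((1 + |z.im|) ^ B * Real.exp (-(z.im - T) ^ 2)) := by ring
      _ ≤ Cb * L * (DB * (1 + |T|) ^ B) := mul_le_mul_of_nonneg_left (hDB T z.im) (by positivity)
      _ ≤ MB * (1 + |T|) ^ B := by rw [hMB]; nlinarith
  have hmem : s ∈ Complex.HadamardThreeLines.verticalClosedStrip a b := ⟨hs1, hs2⟩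
  have key := Complex.HadamardThreeLines.norm_le_interp_of_mem_verticalClosedStrip' hab hmem hgd hbd hla hlb
  have hgs : g s = f s := by rw [hg]; simp
  rw [hgs] at key
  set x : ℝ := (s.re - a) / (b - a) with hx
  have hx0 : 0 ≤ x := div_nonneg (by linarith) (by linarith)
  have hx1 : x ≤ 1 := by rw [hx, div_le_one (by linarith)]; linarith
  refine key.trans ?_
  have hp : 0 < 1 + |T| := by linarith
  rw [Real.mul_rpow (by linarith) (by positivity), Real.mul_rpow (by linarith) (by positivity),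
    ← Real.rpow_mul hp.le, ← Real.rpow_mul hp.le]
  have e1 : MA ^ (1 - x) ≤ MA := by
    calc MA ^ (1 - x) ≤ MA ^ (1:ℝ) := Real.rpow_le_rpow_of_exponent_le hMA1 (by linarith)
      _ = MA := Real.rpow_one _
  have e2 : MB ^ x ≤ MB := by
    calc MB ^ x ≤ MB ^ (1:ℝ) := Real.rpow_le_rpow_of_exponent_le hMB1 hx1
      _ = MB := Real.rpow_one _
  rw [Real.rpow_add hp]
  calc MA ^ (1 - x) * (1 + |T|) ^ (A * (1 - x)) * (MB ^ x * (1 + |T|) ^ (B * x))
      = (MA ^ (1 - x) * MB ^ x) * ((1 + |T|) ^ (A * (1 - x)) * (1 + |T|) ^ (B * x)) := by ring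
    _ ≤ (MA * MB) * ((1 + |T|) ^ (A * (1 - x)) * (1 + |T|) ^ (B * x)) := by
      refine mul_le_mul_of_nonneg_right ?_ (by positivity)
      exact mul_le_mul e1 e2 (by positivity) (by linarith)

end

end Pool.Agent.W173.OS
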