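import Pool.Agent.W173.OS.J

set_option autoImplicit false

open MeasureTheory Filter Topology Set
open Pool.Agent.H295R2
open scoped ArithmeticFunction

namespace Pool.Agent.W173.OS

noncomputable section

/-- the entire function `(1 - 2^(1-s))/(s-1)` -/
def E2 (s : ℂ) : ℂ := dslope (fun s : ℂ => 1 - (2:ℂ) ^ (1 - s)) 1 s

/-- the Dirichlet eta function -/
def etaf (s : ℂ) : ℂ := E2 s * Zs s

lemma base_diff : Differentiable ℂ (fun s : ℂ => 1 - (2:ℂ) ^ (1 - s)) := by
  intro s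
  refine (differentiableAt_const _).sub ?_
  exact DifferentiableAt.const_cpow (by fun_prop) (Or.inl (by norm_num))

lemma E2_diff : Differentiable ℂ E2 := by
  have h : DifferentiableOn ℂ E2 univ := by
    unfold E2
    exact (Complex.differentiableOn_dslope (by simp)).mpr base_diff.differentiableOn
  exact differentiableOn_univ.mp h

lemma E2_eq {s : ℂ} (hs : s ≠ 1) : E2 s = (1 - (2:ℂ) ^ (1 - s)) / (s - 1) := by
  unfold E2
  rw [dslope_of_ne _ hs, slope_def_field]
  simp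

lemma etaf_eq {s : ℂ} (hs : s ≠ 1) : etaf s = (1 - (2:ℂ) ^ (1 - s)) * riemannZeta s := by
  have h : s - 1 ≠ 0 := sub_ne_zero.mpr hs
  unfold etaf
  rw [E2_eq hs, ← Zs_eq hs]
  field_simp

lemma etaf_diff : Differentiable ℂ etaf := E2_diff.mul Zs_differentiable

lemma norm_two_cpow (s : ℂ) : ‖(2:ℂ) ^ (1 - s)‖ = (2:ℝ) ^ (1 - s.re) := by
  have h := Complex.norm_cpow_eq_rpow_re_of_pos (x := 2) (by norm_num) (1 - s)
  simpa using h

lemma etaf_poly : ∃ K : ℝ, 0 < K ∧ ∀ s : ℂ, 1 / 4 ≤ s.re → s.re ≤ 2 → ‖etaf s‖ ≤ K * (1 + |s.im|) ^ (2:ℝ) := by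
  -- compact part
  have hcomp : IsCompact (Icc (1 / 4 : ℝ) 2 ×ℂ Icc (-1 : ℝ) 1) := isCompact_Icc.reProdIm isCompact_Icc
  obtain ⟨K0, hK0⟩ := hcomp.exists_bound_of_continuousOn E2_diff.continuous.continuousOn
  have hE : ∀ s : ℂ, 1 / 4 ≤ s.re → s.re ≤ 2 → ‖E2 s‖ ≤ max K0 3 := by
    intro s h1 h2
    rcases le_or_gt |s.im| 1 with h | h
    · refine (hK0 s ?_).trans (le_max_left _ _)
      rw [Complex.mem_reProdIm]
      exact ⟨⟨h1, h2⟩, abs_le.mp h⟩
    · have hs : s ≠ 1 := by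
        rintro rfl
        simp at h
        linarith
      rw [E2_eq hs, norm_div]
      have h3 : 1 ≤ ‖s - 1‖ := by
        have := Complex.abs_im_le_norm (s - 1)
        rw [Complex.sub_im, Complex.one_im, sub_zero] at this
        linarith
      have h4 : ‖1 - (2:ℂ) ^ (1 - s)‖ ≤ 3 := by
        have h5 : (2:ℝ) ^ (1 - s.re) ≤ 2 := by
          calc (2:ℝ) ^ (1 - s.re) ≤ (2:ℝ) ^ (1:ℝ) := Real.rpow_le_rpow_of_exponent_le (by norm_num) (by linarith)
            _ = 2 := Real.rpow_one 2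
        calc ‖1 - (2:ℂ) ^ (1 - s)‖ ≤ ‖(1:ℂ)‖ + ‖(2:ℂ) ^ (1 - s)‖ := norm_sub_le _ _
          _ ≤ 3 := by rw [norm_one, norm_two_cpow]; linarith
      calc ‖1 - (2:ℂ) ^ (1 - s)‖ / ‖s - 1‖ ≤ 3 / 1 := by gcongr
        _ ≤ max K0 3 := by rw [div_one]; exact le_max_right _ _
  refine ⟨max K0 3 * 45, by positivity, fun s h1 h2 => ?_⟩
  have h3 := hE s h1 h2
  have h4 := Zs_norm_le h1
  have h5 : ‖s‖ ≤ 2 + |s.im| := by
    have h6 := Complex.norm_le_abs_re_add_abs_im s
    have h7 : |s.re| = s.re := abs_of_nonneg (by linarith)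
    linarith
  have h6 : (‖s‖ + 1) ^ 2 ≤ 9 * (1 + |s.im|) ^ (2:ℝ) := by
    have h7 : (1 + |s.im|) ^ (2:ℝ) = (1 + |s.im|) ^ 2 := by norm_num
    rw [h7]
    have h8 : ‖s‖ + 1 ≤ 3 * (1 + |s.im|) := by linarith [abs_nonneg s.im]
    calc (‖s‖ + 1) ^ 2 ≤ (3 * (1 + |s.im|)) ^ 2 := pow_le_pow_left₀ (by positivity) h8 2
      _ = 9 * (1 + |s.im|) ^ 2 := by ring
  unfold etaf
  rw [norm_mul]
  calc ‖E2 s‖ * ‖Zs s‖ ≤ max K0 3 * (5 * (9 * (1 + |s.im|) ^ (2:ℝ))) := by
        refine mul_le_mul h3 (h4.trans ?_) (norm_nonneg _) (le_trans (by norm_num) (le_max_right _ _))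
        linarith
    _ = _ := by ring

/-! ### the arithmetic functions -/

/-- `n ↦ (-1)^(n+1)`, `n ≥ 1` -/
def alt : ArithmeticFunction ℤ := ⟨fun n => if n = 0 then 0 else (-1) ^ (n + 1), by simp⟩

lemma alt_apply {n : ℕ} (hn : n ≠ 0) : alt n = (-1) ^ (n + 1) := by
  simp [alt, hn]

lemma abs_alt_le (n : ℕ) : |alt n| ≤ 1 := by
  rcases eq_or_ne n 0 with rfl | hn
  · simp
  · rw [alt_apply hn, abs_pow]; simp

lemma alt_lseries {s : ℂ} (hs : 1 < s.re) : LSeriesHasSum (fun n => ((alt n : ℤ) : ℂ)) s (etaf s) := by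
  have hs1 : s ≠ 1 := by rintro rfl; simp at hs
  have h1 : HasSum (LSeries.term 1 s) (riemannZeta s) := LSeriesHasSum_one hs
  have hmul : ∀ m : ℕ, LSeries.term 1 s (2 * m) = (2:ℂ) ^ (-s) * LSeries.term 1 s m := by
    intro m
    rcases eq_or_ne m 0 with rfl | hm
    · simp [LSeries.term]
    · rw [LSeries.term_of_ne_zero (by omega), LSeries.term_of_ne_zero hm]
      have h2 : ((2 * m : ℕ) : ℂ) ^ s = (2:ℂ) ^ s * (m:ℂ) ^ s := by
        have := Complex.natCast_mul_natCast_cpow 2 m s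
        push_cast at this ⊢
        exact this
      rw [h2, Complex.cpow_neg]
      simp only [Pi.one_apply]
      rw [one_div, one_div, mul_inv]
  have h2 : HasSum (fun n : ℕ => if 2 ∣ n then 2 * LSeries.term 1 s n else 0)
      (2 * ((2:ℂ) ^ (-s) * riemannZeta s)) := by
    have hinj : Function.Injective (fun m : ℕ => 2 * m) := fun a b h => by
      simp only at h; omega
    rw [← hinj.hasSum_iff]
    · have h3 := (h1.mul_left ((2:ℂ) ^ (-s))).mul_left 2
      refine h3.congr_fun ?_ |> id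
      intro m
      simp only [Function.comp, dvd_mul_right, if_true]
      rw [hmul]
    · intro n hn
      rw [if_neg]
      rintro ⟨m, rfl⟩
      exact hn ⟨m, rfl⟩
  have h3 := h1.sub h2
  have h4 : riemannZeta s - 2 * ((2:ℂ) ^ (-s) * riemannZeta s) = etaf s := by
    rw [etaf_eq hs1, Complex.cpow_sub _ _ (by norm_num), Complex.cpow_one, Complex.cpow_neg]
    ring
  rw [h4] at h3
  unfold LSeriesHasSum
  have h5 : LSeries.term (fun n => ((alt n : ℤ) : ℂ)) s =
      fun n => LSeries.term 1 s n - (if 2 ∣ n then 2 * LSeries.term 1 s n else 0) := by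
    ext n
    rcases eq_or_ne n 0 with rfl | hn
    · simp [LSeries.term]
    · rw [LSeries.term_of_ne_zero hn, LSeries.term_of_ne_zero hn, alt_apply hn]
      simp only [Pi.one_apply]
      by_cases h : 2 ∣ n
      · rw [if_pos h]
        have : Odd (n + 1) := Even.add_one (even_iff_two_dvd.mpr h)
        rw [this.neg_one_pow]
        push_cast
        ring
      · rw [if_neg h]
        have : Even (n + 1) := by
          rw [← even_iff_two_dvd, Nat.not_even_iff_odd] at h
          exact h.add_one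
        rw [this.neg_one_pow]
        push_cast
        ring
  rw [h5]
  exact h3

lemma altk_lseries (k : ℕ) {s : ℂ} (hs : 1 < s.re) :
    LSeriesHasSum (fun n => (((alt ^ k) n : ℤ) : ℂ)) s (etaf s ^ k) := by
  induction k with
  | zero =>
    rw [pow_zero, pow_zero]
    have h : LSeries.term (fun n => (((1 : ArithmeticFunction ℤ) n : ℤ) : ℂ)) s = fun n => if n = 1 then 1 else 0 := by
      ext n
      rcases eq_or_ne n 0 with rfl | hn
      · simp [LSeries.term]
      · rw [LSeries.term_of_ne_zero hn, ArithmeticFunction.one_apply]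
        by_cases h1 : n = 1
        · simp [h1]
        · simp [h1]
    unfold LSeriesHasSum
    rw [h]
    exact hasSum_ite_eq 1 1
  | succ k ih =>
    rw [pow_succ, pow_succ]
    have h1 : LSeriesHasSum (fun n => ((alt ^ k : ArithmeticFunction ℤ) : ArithmeticFunction ℂ) n) s (etaf s ^ k) := by
      simpa using ih
    have h2 : LSeriesHasSum (fun n => ((alt : ArithmeticFunction ℤ) : ArithmeticFunction ℂ) n) s (etaf s) := by
      simpa using alt_lseries hs
    have h3 := ArithmeticFunction.LSeriesHasSum_mul h1 h2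
    rw [← ArithmeticFunction.intCoe_mul] at h3
    simpa using h3

lemma altk_le_card (k : ℕ) : ∀ n : ℕ, |(alt ^ k) n| ≤ (n.divisors.card : ℤ) ^ k := by
  induction k with
  | zero =>
    intro n
    rw [pow_zero, pow_zero, ArithmeticFunction.one_apply]
    split_ifs <;> simp
  | succ k ih =>
    intro n
    rw [pow_succ, ArithmeticFunction.mul_apply]
    calc |∑ x ∈ n.divisorsAntidiagonal, (alt ^ k) x.1 * alt x.2|
        ≤ ∑ x ∈ n.divisorsAntidiagonal, |(alt ^ k) x.1 * alt x.2| := Finset.abs_sum_le_sum_abs _ _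
      _ ≤ ∑ x ∈ n.divisorsAntidiagonal, (n.divisors.card : ℤ) ^ k := by
        refine Finset.sum_le_sum fun x hx => ?_
        rw [abs_mul]
        have hx' := Nat.mem_divisorsAntidiagonal.mp hx
        have h1 : x.1.divisors.card ≤ n.divisors.card := by
          refine Finset.card_le_card (Nat.divisors_subset_of_dvd hx'.2 ⟨x.2, hx'.1.symm⟩)
        calc |(alt ^ k) x.1| * |alt x.2| ≤ (x.1.divisors.card : ℤ) ^ k * 1 :=
              mul_le_mul (ih _) (abs_alt_le _) (abs_nonneg _) (by positivity)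
          _ ≤ (n.divisors.card : ℤ) ^ k := by
            rw [mul_one]
            exact pow_le_pow_left₀ (by positivity) (by exact_mod_cast h1) k
      _ = (n.divisors.card : ℤ) ^ (k + 1) := by
        rw [Finset.sum_const, nsmul_eq_mul, pow_succ, mul_comm]
        congr 2
        rw [← Nat.map_div_right_divisors, Finset.card_map]

lemma altk_bound (k : ℕ) {η : ℝ} (hη : 0 < η) : ∃ C : ℝ, 0 ≤ C ∧ ∀ n : ℕ, |(((alt ^ k) n : ℤ) : ℝ)| ≤ C * (n:ℝ) ^ η := by
  set K : ℕ := ⌈(k:ℝ) / η⌉₊ + 1 with hK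
  have hK0 : 0 < K := by omega
  have hKr : (0:ℝ) < K := by exact_mod_cast hK0
  have hkK : (k:ℝ) / K ≤ η := by
    rw [div_le_iff₀ hKr]
    have h1 : (k:ℝ) / η ≤ K := by
      have := Nat.le_ceil ((k:ℝ) / η)
      rw [hK]; push_cast; linarith
    rw [div_le_iff₀ hη] at h1
    linarith
  set C : ℕ := (K ^ K * 2) ^ (2 ^ K) with hC
  refine ⟨(C:ℝ) ^ ((k:ℝ) / K), by positivity, fun n => ?_⟩
  rcases Nat.eq_zero_or_pos n with rfl | hn
  · rw [ArithmeticFunction.map_zero]; simp; positivity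
  · have h1 := altk_le_card k n
    have h2 := Helper924.MW.Lower.card_divisors_pow_le K hK0 n hn.ne'
    have h3 : |(((alt ^ k) n : ℤ) : ℝ)| ≤ (n.divisors.card : ℝ) ^ k := by exact_mod_cast h1
    have h4 : ((n.divisors.card : ℝ)) ^ K ≤ C * n := by exact_mod_cast h2
    have hd : (0:ℝ) ≤ n.divisors.card := Nat.cast_nonneg _
    have hn1 : (1:ℝ) ≤ n := by exact_mod_cast hn
    refine h3.trans ?_
    have h5 : (n.divisors.card : ℝ) ^ k = ((n.divisors.card : ℝ) ^ K) ^ ((k:ℝ) / K) := by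
      rw [← Real.rpow_natCast (n.divisors.card : ℝ) K, ← Real.rpow_mul hd, mul_div_cancel₀ _ hKr.ne',
        Real.rpow_natCast]
    rw [h5]
    calc ((n.divisors.card : ℝ) ^ K) ^ ((k:ℝ) / K) ≤ ((C:ℝ) * n) ^ ((k:ℝ) / K) := by
          refine Real.rpow_le_rpow (by positivity) h4 (by positivity)
      _ = (C:ℝ) ^ ((k:ℝ) / K) * (n:ℝ) ^ ((k:ℝ) / K) := Real.mul_rpow (by positivity) (by positivity)
      _ ≤ (C:ℝ) ^ ((k:ℝ) / K) * (n:ℝ) ^ η := by
        refine mul_le_mul_of_nonneg_left ?_ (by positivity)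
        exact Real.rpow_le_rpow_of_exponent_le hn1 hkK

end

end Pool.Agent.W173.OS
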