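import Pool.Agent.W173.OS.K

set_option autoImplicit false

open MeasureTheory Filter Topology Set
open Pool.Agent.H295R2
open scoped ArithmeticFunction

namespace Pool.Agent.W173.OS

noncomputable section

/-- the Lindelöf bound for `η` in `Re s ≥ σ` -/
def Sub (σ : ℝ) : Prop :=
  ∀ ε : ℝ, 0 < ε → ∃ C : ℝ, 0 < C ∧ ∀ s : ℂ, σ ≤ s.re → s.re ≤ 2 → ‖etaf s‖ ≤ C * (1 + |s.im|) ^ ε

lemma Sub.mono {σ σ' : ℝ} (h : Sub σ) (hσ : σ ≤ σ') : Sub σ' := by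
  intro ε hε
  obtain ⟨C, hC, h1⟩ := h ε hε
  exact ⟨C, hC, fun s hs1 hs2 => h1 s (hσ.trans hs1) hs2⟩

lemma etaf_right {a : ℝ} (ha : 1 < a) : ∃ K : ℝ, 0 < K ∧ ∀ s : ℂ, a ≤ s.re → ‖etaf s‖ ≤ K := by
  obtain ⟨K, hK1, hK⟩ := zeta_bounds ha
  refine ⟨2 * K, by linarith, fun s hs => ?_⟩
  have hs1 : s ≠ 1 := by
    rintro rfl
    simp at hs
    linarith
  rw [etaf_eq hs1, norm_mul]
  have h1 : ‖1 - (2:ℂ) ^ (1 - s)‖ ≤ 2 := by
    have h5 : (2:ℝ) ^ (1 - s.re) ≤ 1 := by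
      calc (2:ℝ) ^ (1 - s.re) ≤ (2:ℝ) ^ (0:ℝ) := Real.rpow_le_rpow_of_exponent_le (by norm_num) (by linarith)
        _ = 1 := Real.rpow_zero 2
    calc ‖1 - (2:ℂ) ^ (1 - s)‖ ≤ ‖(1:ℂ)‖ + ‖(2:ℂ) ^ (1 - s)‖ := norm_sub_le _ _
      _ ≤ 2 := by rw [norm_one, norm_two_cpow]; linarith
  exact mul_le_mul h1 (hK s hs).1 (norm_nonneg _) (by norm_num)

lemma one_le_pow_abs (t : ℝ) {ε : ℝ} (hε : 0 ≤ ε) : 1 ≤ (1 + |t|) ^ ε :=
  Real.one_le_rpow (by linarith [abs_nonneg t]) hε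

lemma sub_right {a : ℝ} (ha : 1 < a) : Sub a := by
  intro ε hε
  obtain ⟨K, hK0, hK⟩ := etaf_right ha
  refine ⟨K, hK0, fun s hs _ => (hK s hs).trans ?_⟩
  have := one_le_pow_abs s.im hε.le
  nlinarith

/-- the Lindelöf abscissa, via `η` -/
def lam : ℝ := sInf {σ : ℝ | 1 / 2 < σ ∧ Sub σ}

lemma lam_set_bdd : BddBelow {σ : ℝ | 1 / 2 < σ ∧ Sub σ} := ⟨1 / 2, fun _ h => h.1.le⟩

lemma lam_set_ne : (3 / 2 : ℝ) ∈ {σ : ℝ | 1 / 2 < σ ∧ Sub σ} := ⟨by norm_num, sub_right (by norm_num)⟩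

lemma half_le_lam : 1 / 2 ≤ lam := le_csInf ⟨_, lam_set_ne⟩ fun _ h => h.1.le

lemma lam_le_one : lam ≤ 1 := by
  refine le_of_forall_pos_le_add fun δ hδ => ?_
  exact csInf_le lam_set_bdd ⟨by linarith, sub_right (by linarith)⟩

lemma sub_of_lam {σ : ℝ} (h : lam < σ) : Sub σ := by
  obtain ⟨σ', h1, h2⟩ := exists_lt_of_csInf_lt ⟨_, lam_set_ne⟩ h
  exact h1.2.mono h2.le

lemma not_sub_of_lam {σ : ℝ} (h0 : 1 / 2 < σ) (h : σ < lam) : ¬ Sub σ := fun hs =>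
  absurd (csInf_le lam_set_bdd ⟨h0, hs⟩) (not_le.mpr h)

/-! ### the summatory functions -/

/-- the coefficients as real numbers -/
def ak (k n : ℕ) : ℝ := (((alt ^ k) n : ℤ) : ℝ)

/-- the summatory function in the variable `log x` -/
def gk (k : ℕ) : ℝ → ℝ := sumExp (ak k)

lemma gk_eq (k : ℕ) (u : ℝ) : gk k u = sumX (ak k) (Real.exp u) := rfl

lemma gk_measurable (k : ℕ) : Measurable (gk k) := sumExp_measurable _

lemma gk_zero (k : ℕ) (u : ℝ) (hu : u < 0) : gk k u = 0 := sumExp_zero _ u hu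

lemma etapow_bound (k : ℕ) {σ : ℝ} (h : Sub σ) {ε : ℝ} (hε : 0 < ε) :
    ∃ C : ℝ, 0 < C ∧ ∀ s : ℂ, σ ≤ s.re → s.re ≤ 2 → ‖etaf s ^ k‖ ≤ C * (1 + |s.im|) ^ ε := by
  obtain ⟨C, hC0, hC⟩ := h (ε / (k + 1)) (by positivity)
  refine ⟨C ^ k, by positivity, fun s h1 h2 => ?_⟩
  have hT : 1 ≤ 1 + |s.im| := by linarith [abs_nonneg s.im]
  rw [norm_pow]
  calc ‖etaf s‖ ^ k ≤ (C * (1 + |s.im|) ^ (ε / (k + 1))) ^ k := pow_le_pow_left₀ (norm_nonneg _) (hC s h1 h2) k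
    _ = C ^ k * (1 + |s.im|) ^ (ε / (k + 1) * k) := by
      rw [mul_pow, ← Real.rpow_natCast ((1 + |s.im|) ^ (ε / (k + 1))) k, ← Real.rpow_mul (by linarith)]
    _ ≤ C ^ k * (1 + |s.im|) ^ ε := by
      refine mul_le_mul_of_nonneg_left (Real.rpow_le_rpow_of_exponent_le hT ?_) (by positivity)
      rw [div_mul_eq_mul_div, div_le_iff₀ (by positivity)]
      nlinarith

lemma ak_lseries (k : ℕ) {s : ℂ} (hs : 1 < s.re) : LSeriesHasSum (fun n => ((ak k n : ℝ) : ℂ)) s (etaf s ^ k) := by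
  have h := altk_lseries k hs
  have e : (fun n => ((ak k n : ℝ) : ℂ)) = fun n => (((alt ^ k) n : ℤ) : ℂ) := by
    ext n; unfold ak; push_cast; rfl
  rw [e]; exact h

/-- `S_k(x) ≪ x^σ` for `σ > Λ` -/
lemma sk_bound (k : ℕ) {σ : ℝ} (hσ : lam < σ) (hσ2 : σ ≤ 2) :
    ∃ C : ℝ, 0 < C ∧ ∀ y : ℝ, 1 ≤ y → |sumX (ak k) y| ≤ C * y ^ σ := by
  obtain ⟨Ca, hCa0, hCa⟩ := altk_bound k (η := 1 / 2) (by norm_num)
  exact sum_bound (F := fun s => etaf s ^ k) half_le_lam (fun s _ => (etaf_diff.pow k) s)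
    (fun σ' hσ' ε hε => etapow_bound k (sub_of_lam hσ') hε) (fun s hs => ak_lseries k hs) hCa hσ hσ2

lemma gk_bound (k : ℕ) {σ : ℝ} (hσ : lam < σ) (hσ2 : σ ≤ 2) :
    ∃ C : ℝ, 0 < C ∧ ∀ u : ℝ, |gk k u| ≤ C * Real.exp (σ * u) := by
  obtain ⟨C, hC0, hC⟩ := sk_bound k hσ hσ2
  refine ⟨C, hC0, fun u => ?_⟩
  rcases lt_or_ge u 0 with hu | hu
  · rw [gk_zero k u hu, abs_zero]; positivity
  · rw [gk_eq]
    have := hC _ (Real.one_le_exp_iff.mpr hu)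
    rwa [← Real.exp_mul, mul_comm u σ] at this

lemma sum_norm_ak (k : ℕ) {r : ℝ} (hr : 1 < r) :
    (fun n => ∑ m ∈ Finset.Icc 1 n, ‖((ak k m : ℝ) : ℂ)‖) =O[atTop] fun n : ℕ => (n : ℝ) ^ r := by
  obtain ⟨C, hC0, hC⟩ := altk_bound k (η := r - 1) (by linarith)
  refine Asymptotics.IsBigO.of_bound C (Eventually.of_forall fun n => ?_)
  rw [Real.norm_of_nonneg (Finset.sum_nonneg fun _ _ => norm_nonneg _),
    Real.norm_of_nonneg (by positivity)]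
  calc ∑ m ∈ Finset.Icc 1 n, ‖((ak k m : ℝ) : ℂ)‖ ≤ ∑ m ∈ Finset.Icc 1 n, C * (n:ℝ) ^ (r - 1) := by
        refine Finset.sum_le_sum fun m hm => ?_
        rw [Complex.norm_real, Real.norm_eq_abs]
        refine (hC m).trans (mul_le_mul_of_nonneg_left ?_ hC0)
        refine Real.rpow_le_rpow (Nat.cast_nonneg m) ?_ (by linarith)
        exact_mod_cast (Finset.mem_Icc.mp hm).2
    _ = C * (n:ℝ) ^ r := by
      rw [Finset.sum_const, Nat.card_Icc, nsmul_eq_mul, add_tsub_cancel_right]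
      rcases Nat.eq_zero_or_pos n with rfl | hn
      · have h1 : r ≠ 0 := by linarith
        simp [Real.zero_rpow h1]
      · have hn0 : (0:ℝ) < n := by exact_mod_cast hn
        have : (n:ℝ) ^ r = n * (n:ℝ) ^ (r - 1) := by
          rw [Real.rpow_sub_one hn0.ne']; field_simp
        rw [this]; ring

lemma lap_gk (k : ℕ) {s : ℂ} (hs : 1 < s.re) : s * Lap (fun u => (gk k u : ℂ)) s = etaf s ^ k := by
  have h1 : 1 < (1 + s.re) / 2 := by linarith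
  unfold gk
  rw [← lap_sumExp (ak k) (r := (1 + s.re) / 2) (by linarith) (by linarith) (sum_norm_ak k h1)]
  exact (ak_lseries k hs).LSeries_eq

lemma lap_gk_of (k : ℕ) {b : ℝ} (hL : LInt (fun u => (gk k u : ℂ)) b) {s : ℂ} (hs : b < s.re) :
    s * Lap (fun u => (gk k u : ℂ)) s = etaf s ^ k := by
  have h1 : AnalyticOnNhd ℂ (fun s => s * Lap (fun u => (gk k u : ℂ)) s) {s | b < s.re} := by
    intro z hz
    exact analyticAt_id.mul (hL.analyticOnNhd z hz)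
  have h2 : AnalyticOnNhd ℂ (fun s : ℂ => etaf s ^ k) {s | b < s.re} := by
    intro z _
    exact (etaf_diff.pow k).analyticAt z
  set t : ℝ := max b 1 + 1 with ht
  have htb : b < t := by have := le_max_left b 1; rw [ht]; linarith
  have ht1 : 1 < t := by have := le_max_right b 1; rw [ht]; linarith
  have h3 := h1.eqOn_of_preconnected_of_eventuallyEq h2 (halfplane_preconnected b)
    (z₀ := (t : ℂ)) (by simpa using htb) (by
      filter_upwards [(halfplane_open 1).mem_nhds (show (t : ℂ) ∈ {s : ℂ | 1 < s.re} by simpa using ht1)]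
        with z hz
      exact lap_gk k hz)
  exact h3 hs

lemma gk_nice (k : ℕ) {σ : ℝ} (hσ : lam < σ) (hσ2 : σ ≤ 2) : ∃ C : ℝ, Nice (fun u => (gk k u : ℂ)) C σ 0 := by
  obtain ⟨C, hC0, hC⟩ := gk_bound k hσ hσ2
  exact ⟨C, Complex.measurable_ofReal.comp (gk_measurable k), fun u => by
      rw [Complex.norm_real, Real.norm_eq_abs]; exact hC u,
      fun u hu => by rw [gk_zero k u hu, Complex.ofReal_zero]⟩

lemma gk_mod (k : ℕ) (σ : ℝ) (hσ : lam < σ) (hσ2 : σ < 2) (ε : ℝ) (hε : 0 < ε) :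
    ∃ C, ModCont (gk k) σ ε C := by
  have h12 := half_le_lam
  set e : ℝ := min ε 1 with he
  have he0 : 0 < e := lt_min hε one_pos
  obtain ⟨C, hN⟩ := gk_nice k (σ := (lam + σ) / 2) (by linarith) (by linarith)
  obtain ⟨B, hB0, hB⟩ := etapow_bound k (sub_of_lam hσ) (ε := e / 4) (by linarith)
  obtain ⟨K, hK⟩ := modCont_of_bound hN (by linarith) (by linarith) (by linarith) hσ2.le he0 (min_le_right _ _)
    (B := B) (fun s hs => by
      rw [lap_gk_of k (Nice.lint hN) (by rw [hs]; linarith)]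
      exact hB s hs.ge (by rw [hs]; exact hσ2.le))
  refine ⟨K, fun h hh hh1 => ⟨(hK h hh hh1).1, (hK h hh hh1).2.trans ?_⟩⟩
  refine mul_le_mul_of_nonneg_left ?_ hK.C_nonneg
  refine Real.rpow_le_rpow_of_exponent_ge hh hh1 ?_
  have := min_le_left ε 1
  linarith

lemma gk_small (k : ℕ) (η : ℝ) (hη : 0 < η) : ∃ K, ∀ u v : ℝ, 0 ≤ u → u ≤ v →
    Real.exp v - Real.exp u ≤ 1 → |gk k v - gk k u| ≤ K * Real.exp (η * u) := by
  obtain ⟨C, hC0, hC⟩ := altk_bound k hη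
  refine ⟨2 * (C * 2 ^ η), fun u v hu huv h => ?_⟩
  set x := Real.exp u with hx
  set y := Real.exp v with hy
  have hx1 : 1 ≤ x := Real.one_le_exp_iff.mpr hu
  have hxy : x ≤ y := Real.exp_le_exp.mpr huv
  have hfl : ⌊x⌋₊ ≤ ⌊y⌋₊ := Nat.floor_le_floor hxy
  rw [gk_eq, gk_eq]
  unfold sumX
  have h1 : ∑ m ∈ Finset.Icc 1 ⌊y⌋₊, ak k m - ∑ m ∈ Finset.Icc 1 ⌊x⌋₊, ak k m =
      ∑ m ∈ Finset.Ioc ⌊x⌋₊ ⌊y⌋₊, ak k m := by
    have h2 : Finset.Icc 1 ⌊y⌋₊ = Finset.Icc 1 ⌊x⌋₊ ∪ Finset.Ioc ⌊x⌋₊ ⌊y⌋₊ := by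
      ext k; simp only [Finset.mem_union, Finset.mem_Icc, Finset.mem_Ioc]; omega
    have h3 : Disjoint (Finset.Icc 1 ⌊x⌋₊) (Finset.Ioc ⌊x⌋₊ ⌊y⌋₊) := by
      rw [Finset.disjoint_left]; intro k; simp only [Finset.mem_Icc, Finset.mem_Ioc]; omega
    rw [h2, Finset.sum_union h3]; ring
  rw [← hx, ← hy, h1]
  have hb : ∀ m ∈ Finset.Ioc ⌊x⌋₊ ⌊y⌋₊, |ak k m| ≤ C * 2 ^ η * Real.exp (η * u) := by
    intro m hm
    have hm1 : (m:ℝ) ≤ 2 * x := by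
      have h4 : (m:ℝ) ≤ ⌊y⌋₊ := by exact_mod_cast (Finset.mem_Ioc.mp hm).2
      have h5 := Nat.floor_le (by linarith : 0 ≤ y)
      linarith
    calc |ak k m| ≤ C * (m:ℝ) ^ η := hC m
      _ ≤ C * (2 * x) ^ η := by gcongr
      _ = C * 2 ^ η * Real.exp (η * u) := by
        rw [Real.mul_rpow (by norm_num) (by linarith), hx, ← Real.exp_mul, mul_comm u η]; ring
  calc |∑ m ∈ Finset.Ioc ⌊x⌋₊ ⌊y⌋₊, ak k m| ≤ ∑ m ∈ Finset.Ioc ⌊x⌋₊ ⌊y⌋₊, |ak k m| := Finset.abs_sum_le_sum_abs _ _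
    _ ≤ ∑ m ∈ Finset.Ioc ⌊x⌋₊ ⌊y⌋₊, C * 2 ^ η * Real.exp (η * u) := Finset.sum_le_sum hb
    _ = ((⌊y⌋₊ : ℝ) - ⌊x⌋₊) * (C * 2 ^ η * Real.exp (η * u)) := by
      rw [Finset.sum_const, Nat.card_Ioc, nsmul_eq_mul, Nat.cast_sub hfl]
    _ ≤ 2 * (C * 2 ^ η * Real.exp (η * u)) := by
      refine mul_le_mul_of_nonneg_right ?_ (by positivity)
      have h4 := Nat.floor_le (by linarith : 0 ≤ y)
      have h5 := Nat.lt_floor_add_one x
      linarith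
    _ = _ := by ring

/-- the abscissa of convergence for large `k` -/
lemma gk_sing {β : ℝ} (hβ : 0 < β) (hβ2 : ¬ Sub β) :
    ∃ k₀ : ℕ, ∀ k : ℕ, k₀ ≤ k → ∀ b, b < β → ¬ LInt (fun u => (gk k u : ℂ)) b := by
  unfold Sub at hβ2
  push Not at hβ2
  obtain ⟨ε, hε, h⟩ := hβ2
  refine ⟨⌈1 / ε⌉₊ + 1, fun k hk b hb hL => ?_⟩
  have hk0 : 0 < k := by omega
  have hkr : (0:ℝ) < k := by exact_mod_cast hk0
  have hkε : 1 / (k:ℝ) ≤ ε := by
    rw [div_le_iff₀ hkr]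
    have h1 : 1 / ε ≤ k := by
      have h2 := Nat.le_ceil (1 / ε)
      have h3 : ((⌈1 / ε⌉₊ : ℕ) : ℝ) + 1 ≤ k := by exact_mod_cast hk
      linarith
    rw [div_le_iff₀ hε] at h1
    linarith
  set B : ℝ := ∫ u, ‖(gk k u : ℂ)‖ * Real.exp (-(β * u)) with hB
  have hB0 : 0 ≤ B := integral_nonneg fun u => by positivity
  obtain ⟨s, hs1, hs2, hs3⟩ := h ((2 * B + 1) ^ (1 / (k:ℝ))) (by positivity)
  have h1 : ‖Lap (fun u => (gk k u : ℂ)) s‖ ≤ B := by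
    refine norm_integral_le_of_norm_le (hL.int β hb) (Eventually.of_forall fun u => ?_)
    rw [norm_mul, norm_exp_neg_mul]
    rcases lt_or_ge u 0 with hu | hu
    · simp only [gk_zero k u hu]; simp
    · refine mul_le_mul_of_nonneg_left (Real.exp_le_exp.mpr ?_) (norm_nonneg _)
      nlinarith
  have h2 := lap_gk_of k hL (s := s) (by linarith)
  have hT : 1 ≤ 1 + |s.im| := by linarith [abs_nonneg s.im]
  have h3 : ‖s‖ ≤ 2 * (1 + |s.im|) := by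
    have h4 := Complex.norm_le_abs_re_add_abs_im s
    have h5 : |s.re| = s.re := abs_of_nonneg (by linarith)
    linarith [abs_nonneg s.im]
  have h4 : ‖etaf s‖ ^ k ≤ (2 * B + 1) * (1 + |s.im|) := by
    rw [← norm_pow, ← h2, norm_mul]
    calc ‖s‖ * ‖Lap (fun u => (gk k u : ℂ)) s‖ ≤ (2 * (1 + |s.im|)) * B :=
          mul_le_mul h3 h1 (norm_nonneg _) (by positivity)
      _ ≤ _ := by nlinarith
  have h5 : ‖etaf s‖ ≤ ((2 * B + 1) * (1 + |s.im|)) ^ (1 / (k:ℝ)) := by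
    have h6 : ‖etaf s‖ = (‖etaf s‖ ^ k) ^ (1 / (k:ℝ)) := by
      rw [← Real.rpow_natCast, ← Real.rpow_mul (norm_nonneg _), mul_one_div_cancel hkr.ne', Real.rpow_one]
    rw [h6]
    exact Real.rpow_le_rpow (by positivity) h4 (by positivity)
  rw [Real.mul_rpow (by positivity) (by positivity)] at h5
  have h6 : (1 + |s.im|) ^ (1 / (k:ℝ)) ≤ (1 + |s.im|) ^ ε := Real.rpow_le_rpow_of_exponent_le hT hkε
  have h7 : (2 * B + 1) ^ (1 / (k:ℝ)) * (1 + |s.im|) ^ (1 / (k:ℝ)) ≤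
      (2 * B + 1) ^ (1 / (k:ℝ)) * (1 + |s.im|) ^ ε := mul_le_mul_of_nonneg_left h6 (by positivity)
  linarith

lemma gk_good {β : ℝ} (hβ0 : 1 / 2 < β) (hβ : β < lam) : ∃ k₀ : ℕ, ∀ k : ℕ, k₀ ≤ k → Good2 (gk k) lam β := by
  obtain ⟨k₀, hk₀⟩ := gk_sing (by linarith) (not_sub_of_lam hβ0 hβ)
  refine ⟨k₀, fun k hk => ?_⟩
  have hl1 := lam_le_one
  exact
    { meas := gk_measurable k
      zero := gk_zero k
      pos := by linarith
      le := hβ.le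
      le_one := hl1
      bound := by
        obtain ⟨C, hC0, hC⟩ := gk_bound k (σ := 2) (by linarith) le_rfl
        exact ⟨2, C, by norm_num, hC⟩
      mod := gk_mod k
      small := gk_small k
      anal := by
        refine ⟨1, β, by linarith, fun s => etaf s ^ k / s, fun x hx => ?_, fun s hs => ?_⟩
        · have hx0 : 0 < x := by linarith
          have hx' : (x : ℂ) ≠ 0 := by exact_mod_cast hx0.ne'
          exact ((etaf_diff.pow k).analyticAt _).div analyticAt_id hx'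
        · have hs0 : s ≠ 0 := by rintro rfl; simp at hs; linarith
          show etaf s ^ k / s = _
          rw [← lap_gk k hs]
          field_simp
      sing := hk₀ k hk }

/-- persistence for the sums -/
theorem sk_persist {α ε : ℝ} (hα : 0 < α) (hε : 0 < ε) (hlam : 1 / 2 < lam) :
    ∃ k₀ : ℕ, ∀ k : ℕ, k₀ ≤ k → ∀ τ : ℝ, (τ = 1 ∨ τ = -1) → ∀ X : ℝ,
      ∃ x, X ≤ x ∧ 1 ≤ x ∧ ∀ y, x ≤ y → y ≤ x + x ^ (1 - α) → x ^ (lam - ε) ≤ τ * sumX (ak k) y := by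
  set β : ℝ := max (max (lam - α / 4) (lam - ε / 2)) ((1 / 2 + lam) / 2) with hβ
  have hβl : β < lam := by
    rw [hβ]; refine max_lt (max_lt ?_ ?_) ?_ <;> linarith
  have b1 : lam - α / 4 ≤ β := (le_max_left _ _).trans (le_max_left _ _)
  have b2 : lam - ε / 2 ≤ β := (le_max_right _ _).trans (le_max_left _ _)
  have b3 : (1 / 2 + lam) / 2 ≤ β := le_max_right _ _
  obtain ⟨k₀, hk₀⟩ := gk_good (by linarith) hβl
  refine ⟨k₀, fun k hk τ hτ X => ?_⟩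
  have hG := hk₀ k hk
  have hexp : ∀ x : ℝ, 1 ≤ x → x ^ (lam - ε) ≤ x ^ (β - ε / 2) := fun x hx =>
    Real.rpow_le_rpow_of_exponent_le hx (by linarith)
  rcases hτ with rfl | rfl
  · obtain ⟨x, h1, h2, h3⟩ := persist_x2 hG hα (half_pos hε) (by linarith) X
    refine ⟨x, h1, h2, fun y hy1 hy2 => ?_⟩
    have := h3 y hy1 hy2
    rw [gk_eq, Real.exp_log (by linarith)] at this
    linarith [hexp x h2]
  · obtain ⟨x, h1, h2, h3⟩ := persist_x2 hG.neg hα (half_pos hε) (by linarith) X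
    refine ⟨x, h1, h2, fun y hy1 hy2 => ?_⟩
    have := h3 y hy1 hy2
    rw [gk_eq, Real.exp_log (by linarith)] at this
    linarith [hexp x h2]

end

end Pool.Agent.W173.OS
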