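import Pool.Agent.W173.OS.L

set_option autoImplicit false

open MeasureTheory Filter Topology Set
open Pool.Agent.H295R2
open scoped ArithmeticFunction

namespace Pool.Agent.W173.OS

noncomputable section

/-- the Lindelöf hypothesis -/
def LH : Prop := ∀ ε : ℝ, 0 < ε → ∃ C : ℝ, ∀ t : ℝ, ‖riemannZeta (1 / 2 + t * Complex.I)‖ ≤ C * (1 + |t|) ^ ε

lemma line_eq {s : ℂ} {σ : ℝ} (h : s.re = σ) : s = (σ : ℂ) + (s.im : ℂ) * Complex.I := by
  rw [← h]; exact (Complex.re_add_im s).symm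

lemma two_sub_ge {s : ℂ} (h : s.re = 1 / 2) : 2 / 5 ≤ ‖1 - (2:ℂ) ^ (1 - s)‖ ∧ ‖1 - (2:ℂ) ^ (1 - s)‖ ≤ 3 := by
  have h1 : ‖(2:ℂ) ^ (1 - s)‖ = Real.sqrt 2 := by
    rw [norm_two_cpow, h, Real.sqrt_eq_rpow]; norm_num
  have h2 : (7 / 5 : ℝ) ≤ Real.sqrt 2 := by
    apply Real.le_sqrt_of_sq_le; norm_num
  have h3 : Real.sqrt 2 ≤ 2 := by
    rw [Real.sqrt_le_left (by norm_num)]; norm_num
  constructor
  · have := norm_sub_norm_le ((2:ℂ) ^ (1 - s)) 1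
    rw [h1, norm_one, norm_sub_rev] at this
    linarith
  · calc ‖1 - (2:ℂ) ^ (1 - s)‖ ≤ ‖(1:ℂ)‖ + ‖(2:ℂ) ^ (1 - s)‖ := norm_sub_le _ _
      _ ≤ 3 := by rw [norm_one, h1]; linarith

/-- LH gives the Lindelöf bound for `η` in the half plane -/
lemma sub_of_LH (h : LH) {σ : ℝ} (hσ : 1 / 2 < σ) : Sub σ := by
  intro ε hε
  obtain ⟨C, hC⟩ := h ε hε
  have hC0 : 0 ≤ C := by
    have := (norm_nonneg _).trans (hC 0)
    simpa using this
  obtain ⟨K2, hK20, hK2⟩ := etaf_right (a := 2) (by norm_num)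
  obtain ⟨K, hK0, hK⟩ := etaf_poly
  obtain ⟨D, hD0, hD⟩ := pl_interp (f := etaf) etaf_diff (a := 1 / 2) (b := 2) (A := ε) (B := ε)
    (Ca := 3 * C) (Cb := K2) (K := K) (by norm_num) hε.le hε.le
    (fun s h1 h2 => hK s (by linarith) h2)
    (fun s hs => by
      have hs1 : s ≠ 1 := by
        intro h'
        rw [h', Complex.one_re] at hs
        norm_num at hs
      rw [etaf_eq hs1, norm_mul]
      have h1 := hC s.im
      have h2 : (1 / 2 : ℂ) + (s.im : ℂ) * Complex.I = s := by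
        have := line_eq hs
        rw [this]
        push_cast
        simp
      rw [h2] at h1
      calc ‖1 - (2:ℂ) ^ (1 - s)‖ * ‖riemannZeta s‖ ≤ 3 * (C * (1 + |s.im|) ^ ε) :=
            mul_le_mul (two_sub_ge hs).2 h1 (norm_nonneg _) (by norm_num)
        _ = _ := by ring)
    (fun s hs => (hK2 s hs.ge).trans (by
      have := one_le_pow_abs s.im hε.le
      nlinarith))
  refine ⟨D, hD0, fun s hs1 hs2 => ?_⟩
  have h1 := hD s (by linarith) hs2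
  have e : ε * (1 - (s.re - 1 / 2) / (2 - 1 / 2)) + ε * ((s.re - 1 / 2) / (2 - 1 / 2)) = ε := by ring
  rw [e] at h1
  exact h1

/-- conversely -/
lemma LH_of_sub (h : ∀ σ : ℝ, 1 / 2 < σ → Sub σ) : LH := by
  intro ε hε
  set δ : ℝ := min (ε / 16) 1 with hδ
  have hδ0 : 0 < δ := lt_min (by linarith) one_pos
  have hδ1 : δ ≤ ε / 16 := min_le_left _ _
  have hδ2 : δ ≤ 1 := min_le_right _ _
  obtain ⟨C, hC0, hC⟩ := h (1 / 2 + δ) (by linarith) (ε / 2) (by linarith)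
  obtain ⟨K, hK0, hK⟩ := etaf_poly
  obtain ⟨D, hD0, hD⟩ := pl_interp (f := etaf) etaf_diff (a := 1 / 4) (b := 1 / 2 + δ) (A := 2) (B := ε / 2)
    (Ca := K) (Cb := C) (K := K) (by linarith) (by norm_num) (by linarith)
    (fun s h1 h2 => hK s h1 (by linarith))
    (fun s hs => hK s hs.ge (by linarith))
    (fun s hs => hC s hs.ge (by linarith))
  refine ⟨5 / 2 * D, fun t => ?_⟩
  set s : ℂ := 1 / 2 + t * Complex.I with hs
  have hre : s.re = 1 / 2 := by rw [hs]; simp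
  have him : s.im = t := by rw [hs]; simp
  have h1 := hD s (by rw [hre]; norm_num) (by rw [hre]; linarith)
  rw [hre, him] at h1
  have hT : 1 ≤ 1 + |t| := by linarith [abs_nonneg t]
  have h2 : (1 + |t|) ^ (2 * (1 - (1 / 2 - 1 / 4) / (1 / 2 + δ - 1 / 4)) +
      ε / 2 * ((1 / 2 - 1 / 4) / (1 / 2 + δ - 1 / 4))) ≤ (1 + |t|) ^ ε := by
    apply Real.rpow_le_rpow_of_exponent_le hT
    have e1 : (1 / 2 - 1 / 4 : ℝ) / (1 / 2 + δ - 1 / 4) ≤ 1 := by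
      rw [div_le_one (by linarith)]; linarith
    have e2 : 1 - (1 / 2 - 1 / 4 : ℝ) / (1 / 2 + δ - 1 / 4) ≤ 4 * δ := by
      rw [sub_le_comm, le_div_iff₀ (by linarith)]
      nlinarith
    nlinarith
  have hs1 : s ≠ 1 := by
    intro h'
    rw [h'] at hre
    norm_num at hre
  rw [etaf_eq hs1, norm_mul] at h1
  have h3 := (two_sub_ge hre).1
  have h4 : 2 / 5 * ‖riemannZeta s‖ ≤ D * (1 + |t|) ^ ε := by
    calc 2 / 5 * ‖riemannZeta s‖ ≤ ‖1 - (2:ℂ) ^ (1 - s)‖ * ‖riemannZeta s‖ :=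
          mul_le_mul_of_nonneg_right h3 (norm_nonneg _)
      _ ≤ _ := h1
      _ ≤ D * (1 + |t|) ^ ε := mul_le_mul_of_nonneg_left h2 hD0.le
  linarith

lemma LH_iff_lam : LH ↔ lam = 1 / 2 := by
  constructor
  · intro h
    refine le_antisymm ?_ half_le_lam
    refine le_of_forall_pos_le_add fun δ hδ => ?_
    exact csInf_le lam_set_bdd ⟨by linarith, sub_of_LH h (by linarith)⟩
  · intro h
    refine LH_of_sub fun σ hσ => sub_of_lam (by rw [h]; exact hσ)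

/-- one-sided bounds on a polynomially dense set for infinitely many `k` imply LH -/
theorem LH_of_onesided {A : Set ℕ} (hA : PolyDense A) {τ : ℕ → ℝ} (hτ : ∀ k, τ k = 1 ∨ τ k = -1)
    (h : ∀ K : ℕ, ∃ k, K ≤ k ∧ ∀ δ : ℝ, 0 < δ → ∃ C : ℝ, ∀ n ∈ A, τ k * sumX (ak k) n ≤ C * (n : ℝ) ^ (1 / 2 + δ)) :
    LH := by
  rw [LH_iff_lam]
  by_contra hne
  have hlt : 1 / 2 < lam := lt_of_le_of_ne half_le_lam (Ne.symm hne)
  obtain ⟨α, hα, X, hX⟩ := hA
  set ε : ℝ := (lam - 1 / 2) / 4 with hε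
  have hε0 : 0 < ε := by rw [hε]; linarith
  obtain ⟨k₀, hk₀⟩ := sk_persist hα hε0 hlt
  obtain ⟨k, hk, hbd⟩ := h k₀
  obtain ⟨C, hC⟩ := hbd ε hε0
  have hlim : ∀ᶠ x : ℝ in atTop, |C| * 2 ^ (1 / 2 + ε) < x ^ ε :=
    (tendsto_rpow_atTop hε0).eventually_gt_atTop _
  obtain ⟨X1, hX1⟩ := eventually_atTop.mp hlim
  obtain ⟨x, hx1, hx2, hx3⟩ := hk₀ k hk (τ k) (hτ k) (max X X1)
  obtain ⟨n, hnA, hn1, hn2⟩ := hX x ((le_max_left _ _).trans hx1)
  have h1 := hx3 n hn1 hn2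
  have h2 := hC n hnA
  have hx0 : 0 < x := by linarith
  have hn3 : (n : ℝ) ≤ 2 * x := by
    have : x ^ (1 - α) ≤ x ^ (1:ℝ) := Real.rpow_le_rpow_of_exponent_le hx2 (by linarith)
    rw [Real.rpow_one] at this
    linarith
  have h3 : C * (n : ℝ) ^ (1 / 2 + ε) ≤ |C| * (2 ^ (1 / 2 + ε) * x ^ (1 / 2 + ε)) := by
    calc C * (n : ℝ) ^ (1 / 2 + ε) ≤ |C| * (n : ℝ) ^ (1 / 2 + ε) :=
          mul_le_mul_of_nonneg_right (le_abs_self _) (by positivity)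
      _ ≤ |C| * (2 * x) ^ (1 / 2 + ε) := by gcongr
      _ = _ := by rw [Real.mul_rpow (by norm_num) hx0.le]
  have h4 := hX1 x ((le_max_right _ _).trans hx1)
  have h5 : x ^ ε * x ^ (1 / 2 + ε) ≤ x ^ (lam - ε) := by
    rw [← Real.rpow_add hx0]
    apply Real.rpow_le_rpow_of_exponent_le hx2
    rw [hε]; linarith
  have h6 : 0 < x ^ (1 / 2 + ε) := by positivity
  nlinarith

/-- LH implies the two-sided bound for all `k` and all `n` -/
theorem bound_of_LH (h : LH) (k : ℕ) {δ : ℝ} (hδ : 0 < δ) :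
    ∃ C : ℝ, ∀ n : ℕ, |sumX (ak k) n| ≤ C * (n : ℝ) ^ (1 / 2 + δ) := by
  have hl : lam = 1 / 2 := LH_iff_lam.mp h
  obtain ⟨C, hC0, hC⟩ := sk_bound k (σ := min (1 / 2 + δ) 2) (by rw [hl]; exact lt_min (by linarith) (by norm_num))
    (min_le_right _ _)
  refine ⟨C, fun n => ?_⟩
  rcases Nat.eq_zero_or_pos n with rfl | hn
  · have : sumX (ak k) ((0:ℕ) : ℝ) = 0 := by unfold sumX; simp
    rw [this, abs_zero]; positivity
  · have hn1 : (1:ℝ) ≤ n := by exact_mod_cast hn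
    refine (hC n hn1).trans (mul_le_mul_of_nonneg_left ?_ hC0.le)
    exact Real.rpow_le_rpow_of_exponent_le hn1 (min_le_left _ _)

end

end Pool.Agent.W173.OS
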