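import Pool.Agent.W173.OS.M

set_option autoImplicit false

open MeasureTheory Filter Topology Set
open Pool.Agent.H295R2
open scoped ArithmeticFunction

namespace Pool.Agent.W173.OS

noncomputable section

/-- the Lindelöf bound for `ζ` in `Re s ≥ σ` -/
def LindAt (σ : ℝ) : Prop :=
  ∀ ε : ℝ, 0 < ε → ∃ C : ℝ, ∀ s : ℂ, σ ≤ s.re → 1 ≤ |s.im| → ‖riemannZeta s‖ ≤ C * |s.im| ^ ε

lemma ne_one_of_abs_im {s : ℂ} (h : 1 ≤ |s.im|) : s ≠ 1 := by
  rintro rfl
  simp at h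
  linarith

lemma sub_of_lindAt {σ : ℝ} (hσ : 1 / 2 ≤ σ) (h : LindAt σ) : Sub σ := by
  intro ε hε
  obtain ⟨C, hC⟩ := h ε hε
  obtain ⟨K, hK0, hK⟩ := etaf_poly
  refine ⟨4 * K + 3 * |C|, by positivity, fun s hs1 hs2 => ?_⟩
  have hT := one_le_pow_abs s.im hε.le
  rcases le_or_gt |s.im| 1 with him | him
  · have h1 := hK s (by linarith) hs2
    have h2 : (1 + |s.im|) ^ (2:ℝ) ≤ 4 := by
      calc (1 + |s.im|) ^ (2:ℝ) ≤ (2:ℝ) ^ (2:ℝ) := Real.rpow_le_rpow (by positivity) (by linarith) (by norm_num)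
        _ = 4 := by norm_num
    calc ‖etaf s‖ ≤ K * (1 + |s.im|) ^ (2:ℝ) := h1
      _ ≤ K * 4 := mul_le_mul_of_nonneg_left h2 hK0.le
      _ ≤ (4 * K + 3 * |C|) * 1 := by linarith [abs_nonneg C]
      _ ≤ _ := mul_le_mul_of_nonneg_left hT (by positivity)
  · rw [etaf_eq (ne_one_of_abs_im him.le), norm_mul]
    have h1 := hC s hs1 him.le
    have h2 : ‖1 - (2:ℂ) ^ (1 - s)‖ ≤ 3 := by
      have h5 : (2:ℝ) ^ (1 - s.re) ≤ 2 := by
        calc (2:ℝ) ^ (1 - s.re) ≤ (2:ℝ) ^ (1:ℝ) := Real.rpow_le_rpow_of_exponent_le (by norm_num) (by linarith)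
          _ = 2 := Real.rpow_one 2
      calc ‖1 - (2:ℂ) ^ (1 - s)‖ ≤ ‖(1:ℂ)‖ + ‖(2:ℂ) ^ (1 - s)‖ := norm_sub_le _ _
        _ ≤ 3 := by rw [norm_one, norm_two_cpow]; linarith
    have h3 : |s.im| ^ ε ≤ (1 + |s.im|) ^ ε := Real.rpow_le_rpow (abs_nonneg _) (by linarith) hε.le
    have h4 : 0 ≤ |s.im| ^ ε := by positivity
    calc ‖1 - (2:ℂ) ^ (1 - s)‖ * ‖riemannZeta s‖ ≤ 3 * (|C| * (1 + |s.im|) ^ ε) := by
          refine mul_le_mul h2 (h1.trans ?_) (norm_nonneg _) (by norm_num)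
          calc C * |s.im| ^ ε ≤ |C| * |s.im| ^ ε := mul_le_mul_of_nonneg_right (le_abs_self C) h4
            _ ≤ _ := mul_le_mul_of_nonneg_left h3 (abs_nonneg C)
      _ = 3 * |C| * (1 + |s.im|) ^ ε := by ring
      _ ≤ _ := mul_le_mul_of_nonneg_right (by linarith) (by positivity)

lemma lindAt_right {σ : ℝ} (hσ : 1 < σ) : LindAt σ := by
  intro ε hε
  obtain ⟨K, hK1, hK⟩ := zeta_bounds hσ
  refine ⟨K, fun s hs him => (hK s hs).1.trans ?_⟩
  have := Real.one_le_rpow him hε.le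
  nlinarith

lemma lindAt_of_sub {σ : ℝ} (hσ : 1 / 2 ≤ σ) (hσ1 : σ < 1) (h : Sub σ) : LindAt σ := by
  intro ε hε
  obtain ⟨C, hC0, hC⟩ := h ε hε
  obtain ⟨K, hK1, hK⟩ := zeta_bounds (a := 2) (by norm_num)
  set c : ℝ := (2:ℝ) ^ (1 - σ) - 1 with hc
  have hc0 : 0 < c := by
    rw [hc]
    have : (1:ℝ) < (2:ℝ) ^ (1 - σ) := Real.one_lt_rpow (by norm_num) (by linarith)
    linarith
  have hZs : ∀ s : ℂ, 1 / 4 ≤ s.re → s.re ≤ 2 → ‖Zs s‖ ≤ 45 * (1 + |s.im|) ^ (2:ℝ) := by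
    intro s h1 h2
    have h4 := Zs_norm_le h1
    have h5 : ‖s‖ ≤ 2 + |s.im| := by
      have h6 := Complex.norm_le_abs_re_add_abs_im s
      have h7 : |s.re| = s.re := abs_of_nonneg (by linarith)
      linarith
    have h7 : (1 + |s.im|) ^ (2:ℝ) = (1 + |s.im|) ^ 2 := by norm_num
    rw [h7]
    have h8 : ‖s‖ + 1 ≤ 3 * (1 + |s.im|) := by linarith [abs_nonneg s.im]
    calc ‖Zs s‖ ≤ 5 * (‖s‖ + 1) ^ 2 := h4
      _ ≤ 5 * (3 * (1 + |s.im|)) ^ 2 := by gcongr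
      _ = 45 * (1 + |s.im|) ^ 2 := by ring
  have hsub1 : ∀ s : ℂ, 0 ≤ s.re → s.re ≤ 2 → ‖s - 1‖ ≤ 1 + |s.im| := by
    intro s h1 h2
    have h6 := Complex.norm_le_abs_re_add_abs_im (s - 1)
    rw [Complex.sub_re, Complex.sub_im, Complex.one_re, Complex.one_im, sub_zero] at h6
    have : |s.re - 1| ≤ 1 := by rw [abs_le]; constructor <;> linarith
    linarith
  obtain ⟨D, hD0, hD⟩ := pl_interp (f := Zs) Zs_differentiable (a := σ) (b := 2) (A := 1 + ε) (B := 1 + ε)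
    (Ca := C / c) (Cb := K) (K := 45) (by linarith) (by linarith) (by linarith)
    (fun s h1 h2 => hZs s (by linarith) h2)
    (fun s hs => by
      have hs1 : s ≠ 1 := by
        intro h'
        rw [h', Complex.one_re] at hs
        linarith
      have h1 : c ≤ ‖1 - (2:ℂ) ^ (1 - s)‖ := by
        have := norm_sub_norm_le ((2:ℂ) ^ (1 - s)) 1
        rw [norm_two_cpow, norm_one, norm_sub_rev, hs] at this
        exact this
      have h2 := hC s hs.ge (by linarith)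
      rw [etaf_eq hs1, norm_mul] at h2
      have hpos : 0 < ‖1 - (2:ℂ) ^ (1 - s)‖ := by linarith
      have h3 : ‖riemannZeta s‖ ≤ C / c * (1 + |s.im|) ^ ε := by
        have h4 : c * ‖riemannZeta s‖ ≤ C * (1 + |s.im|) ^ ε :=
          (mul_le_mul_of_nonneg_right h1 (norm_nonneg _)).trans h2
        rw [div_mul_eq_mul_div, le_div_iff₀ hc0]
        linarith
      rw [← Zs_eq hs1, norm_mul, Real.rpow_add (by positivity), Real.rpow_one]
      calc ‖s - 1‖ * ‖riemannZeta s‖ ≤ (1 + |s.im|) * (C / c * (1 + |s.im|) ^ ε) :=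
            mul_le_mul (hsub1 s (by linarith) (by linarith)) h3 (norm_nonneg _) (by positivity)
        _ = _ := by ring)
    (fun s hs => by
      have hs1 : s ≠ 1 := by
        intro h'
        rw [h', Complex.one_re] at hs
        norm_num at hs
      have h5 := one_le_pow_abs s.im hε.le
      rw [← Zs_eq hs1, norm_mul, Real.rpow_add (by positivity), Real.rpow_one]
      have h6 : (0:ℝ) < 1 + |s.im| := by positivity
      calc ‖s - 1‖ * ‖riemannZeta s‖ ≤ (1 + |s.im|) * K :=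
            mul_le_mul (hsub1 s (by linarith) hs.le) (hK s hs.ge).1 (norm_nonneg _) (by positivity)
        _ = K * ((1 + |s.im|) * 1) := by ring
        _ ≤ K * ((1 + |s.im|) * (1 + |s.im|) ^ ε) := by gcongr)
  refine ⟨2 * D * 2 ^ ε + K, fun s hs him => ?_⟩
  have hε1 : 1 ≤ |s.im| ^ ε := Real.one_le_rpow him hε.le
  have hK0 : 0 ≤ K := by linarith
  rcases le_or_gt s.re 2 with h2 | h2
  · have hs1 := ne_one_of_abs_im him
    have h3 := hD s hs h2
    have e : (1 + ε) * (1 - (s.re - σ) / (2 - σ)) + (1 + ε) * ((s.re - σ) / (2 - σ)) = 1 + ε := by ring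
    rw [e, ← Zs_eq hs1, norm_mul, Real.rpow_add (by positivity), Real.rpow_one] at h3
    have h4 : |s.im| ≤ ‖s - 1‖ := by
      have := Complex.abs_im_le_norm (s - 1)
      rwa [Complex.sub_im, Complex.one_im, sub_zero] at this
    have h5 : |s.im| * ‖riemannZeta s‖ ≤ |s.im| * (2 * D * 2 ^ ε * |s.im| ^ ε) := by
      calc |s.im| * ‖riemannZeta s‖ ≤ ‖s - 1‖ * ‖riemannZeta s‖ :=
            mul_le_mul_of_nonneg_right h4 (norm_nonneg _)
        _ ≤ D * ((1 + |s.im|) * (1 + |s.im|) ^ ε) := h3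
        _ ≤ D * ((2 * |s.im|) * (2 * |s.im|) ^ ε) := by
          have : 1 + |s.im| ≤ 2 * |s.im| := by linarith
          gcongr
        _ = _ := by rw [Real.mul_rpow (by norm_num) (abs_nonneg _)]; ring
    have h6 := le_of_mul_le_mul_left h5 (by linarith)
    nlinarith
  · have h3 := (hK s h2.le).1
    have h4 : 0 ≤ 2 * D * 2 ^ ε * |s.im| ^ ε := by positivity
    nlinarith

/-- the Lindelöf abscissa: the infimum of the `σ ≥ 1/2` with `ζ(s) = O(|s|^ε)` in `Re s ≥ σ`, for all `ε > 0` -/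
def Lam : ℝ := sInf {σ : ℝ | 1 / 2 ≤ σ ∧ LindAt σ}

lemma Lam_eq : Lam = lam := by
  have hne : {σ : ℝ | 1 / 2 ≤ σ ∧ LindAt σ}.Nonempty := ⟨2, by norm_num, lindAt_right (by norm_num)⟩
  have hbdd : BddBelow {σ : ℝ | 1 / 2 ≤ σ ∧ LindAt σ} := ⟨1 / 2, fun _ h => h.1⟩
  apply le_antisymm
  · refine le_of_forall_pos_le_add fun δ hδ => ?_
    rcases lt_or_ge lam 1 with h | h
    · set σ := (lam + min (lam + δ) 1) / 2 with hσ
      have h1 : lam < min (lam + δ) 1 := lt_min (by linarith) h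
      have h2 : min (lam + δ) 1 ≤ lam + δ := min_le_left _ _
      have h3 : min (lam + δ) 1 ≤ 1 := min_le_right _ _
      have h4 := half_le_lam
      have h5 : Lam ≤ σ := csInf_le hbdd ⟨by rw [hσ]; linarith, lindAt_of_sub (by rw [hσ]; linarith)
        (by rw [hσ]; linarith) (sub_of_lam (by rw [hσ]; linarith))⟩
      rw [hσ] at h5
      linarith
    · exact csInf_le hbdd ⟨by linarith, lindAt_right (by linarith)⟩
  · refine le_csInf hne fun σ hσ => ?_
    refine le_of_forall_pos_le_add fun δ hδ => ?_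
    exact csInf_le lam_set_bdd ⟨by linarith [hσ.1], (sub_of_lindAt hσ.1 hσ.2).mono (by linarith)⟩

end

end Pool.Agent.W173.OS
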